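import Pool.Agent.TH563.CV.Std

/-!
# The flattening of a tree
-/

set_option autoImplicit false

namespace Pool.Agent.TH563.CV

open Pool.Agent.TH563.UV
open Pool.Agent.TH563.UV.Arb
open Pool.Agent.TH609.UV (HQ fe hq_symm hpt lg VL lcr ang hq vc_facts ang_isok ang_fl ang_vol
  ang_shape ang_wt ang_bl vl_im)
open Pool.Agent.W711.HT hiding XX
open Pool.Agent.W719.AR (Fl)
open scoped Real

/-- is the weight odd -/
def odd (w : ℤ) : Bool := decide (¬ Even w)

lemma odd_mod (w : ℤ) : ∃ k : ℤ, (((odd w).toNat : ℕ) : ℤ) = w + 2 * k := by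
  unfold odd
  rcases Int.even_or_odd w with h | h
  · obtain ⟨r, hr⟩ := h
    refine ⟨-r, ?_⟩
    have : Even w := ⟨r, hr⟩
    simp only [this, not_true_eq_false, decide_false, Bool.toNat_false]
    push_cast
    omega
  · have h' : ¬ Even w := Int.not_even_iff_odd.2 h
    obtain ⟨r, hr⟩ := h
    refine ⟨-r, ?_⟩
    simp only [h', not_false_eq_true, decide_true, Bool.toNat_true]
    push_cast
    omega

/-- the tree with the standard flattening; `μ`, `m`: marks of the first edge at the root -/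
noncomputable def flat (dl : ℂ → ℂ → ℂ) : ℤ → Bool → PB → FlatTree
  | _, _, .vx b a _ => .single b a
  | μ, m, .br t c => .join (flat dl μ m t) (flat dl 0 false c)
      (std (if t.nc = 0 then m else false) (odd c.wt) (if t.nc = 0 then μ else 0)
        (if c.bl then 0 else 1) (ofFl (fe t.rz (2 * π * dl c.rz t.rz)))
        (ofFl (fe c.rz (2 * π * dl c.rz t.rz))))

lemma flat_angles (dl : ℂ → ℂ → ℂ) : ∀ (p : PB) (μ : ℤ) (m : Bool),
    (flat dl μ m p).angles = ofAB (ang dl p)
  | .vx b a z, μ, m => rfl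
  | .br t c, μ, m => by
    simp only [flat, FlatTree.angles, ang, ofAB]
    rw [flat_angles dl t, flat_angles dl c]
    rfl

/-- the conditions on the edges at a vertex -/
def Mrk (l : List Piece) (μ : ℤ) (m : Bool) : Prop :=
  (∀ x ∈ l, x.End ∧ x.n1 < x.n2) ∧
  (l.map fun x => x.F.a + x.F.a' + x.F.c' - 1).sum = 2 * μ ∧
  (l.map fun x => x.B.a + x.B.a' + x.B.c' - 1).sum = 2 * μ ∧
  (∀ y ∈ l.tail, y.n4 < y.n3) ∧ ∀ y ∈ l.head?, (y.n4 < y.n3 ↔ m = false)

lemma chain_of {α : Type} {R : α → α → Prop} : ∀ l : List α,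
    (∀ x ∈ l, ∀ y ∈ l.tail, R x y) → l.IsChain R
  | [], _ => List.IsChain.nil
  | [_], _ => List.IsChain.singleton _
  | x :: y :: l, h => by
    rw [List.isChain_cons_cons]
    refine ⟨h x (by simp) y (by simp), chain_of (y :: l) ?_⟩
    intro a ha b hb
    exact h a (List.mem_cons_of_mem _ ha) b (by
      simp only [List.tail_cons] at hb ⊢
      exact List.mem_cons_of_mem _ hb)

lemma vertex_flat {b : Bool} {w : ℤ} {l : List Piece}
    (h : Mrk l (if b then 0 else 1) (odd w)) : VertexFlat b w l := by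
  obtain ⟨h1, h2, h3, h4, h5⟩ := h
  have e : (2 * (if b then 0 else 1) : ℤ) = (if b then 0 else 2) := by
    split_ifs <;> rfl
  refine ⟨fun x hx => (h1 x hx).1, h2.trans e, h3.trans e, ?_, ?_⟩
  · apply chain_of
    intro x hx y hy
    exact iff_of_true (h1 x hx).2 (h4 y hy)
  · intro x hx y hy
    have k1 := (h1 x (List.mem_of_getLast? hx)).2
    have k2 := h5 y hy
    have k3 : odd w = false ↔ Even w := by
      unfold odd
      simp
    rw [← k3, ← k2]
    exact ⟨fun h => h.1 k1, fun h => iff_of_true k1 h⟩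

lemma nc_edges (dl : ℂ → ℂ → ℂ) : ∀ (p : PB) (μ : ℤ) (m : Bool),
    ((flat dl μ m p).edges).length = p.nc
  | .vx b a z, μ, m => rfl
  | .br t c, μ, m => by
    simp only [flat, FlatTree.edges, PB.nc, List.length_append, List.length_singleton]
    rw [nc_edges dl t]

lemma gl_edges (dl : ℂ → ℂ → ℂ) : ∀ (p : PB) (μ : ℤ) (m : Bool),
    Mrk (flat dl μ m p).edges (if p.nc = 0 then 0 else μ) m
  | .vx b a z, μ, m => by
    simp [flat, FlatTree.edges, Mrk, PB.nc]
  | .br t c, μ, m => by
    obtain ⟨h1, h2, h3, h4, h5⟩ := gl_edges dl t μ m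
    have hlen := nc_edges dl t μ m
    set x := std (if t.nc = 0 then m else false) (odd c.wt) (if t.nc = 0 then μ else 0)
        (if c.bl then 0 else 1) (ofFl (fe t.rz (2 * π * dl c.rz t.rz)))
        (ofFl (fe c.rz (2 * π * dl c.rz t.rz))) with hx
    have e1 : (flat dl μ m (.br t c)).edges = (flat dl μ m t).edges ++ [x] := rfl
    have a1 := (std_end (if t.nc = 0 then m else false) (odd c.wt) (if t.nc = 0 then μ else 0)
        (if c.bl then 0 else 1) (ofFl (fe t.rz (2 * π * dl c.rz t.rz)))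
        (ofFl (fe c.rz (2 * π * dl c.rz t.rz)))).1
    have a2 := (std_across (if t.nc = 0 then m else false) (odd c.wt) (if t.nc = 0 then μ else 0)
        (if c.bl then 0 else 1) (ofFl (fe t.rz (2 * π * dl c.rz t.rz)))
        (ofFl (fe c.rz (2 * π * dl c.rz t.rz)))).1
    have a3 := (std_order (if t.nc = 0 then m else false) (odd c.wt) (if t.nc = 0 then μ else 0)
        (if c.bl then 0 else 1) (ofFl (fe t.rz (2 * π * dl c.rz t.rz)))
        (ofFl (fe c.rz (2 * π * dl c.rz t.rz)))).1
    rw [← hx] at a1 a2 a3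
    have hn : (PB.br t c).nc ≠ 0 := by simp [PB.nc]
    rw [e1, if_neg hn]
    refine ⟨?_, ?_, ?_, ?_, ?_⟩
    · intro y hy
      rcases List.mem_append.1 hy with hy | hy
      · exact h1 y hy
      · rw [List.mem_singleton] at hy
        rw [hy]
        exact ⟨a1, a3.1⟩
    · rw [List.map_append, List.sum_append, h2]
      simp only [List.map_cons, List.map_nil, List.sum_cons, List.sum_nil, add_zero]
      rw [a2.1]
      split_ifs <;> ring
    · rw [List.map_append, List.sum_append, h3]
      simp only [List.map_cons, List.map_nil, List.sum_cons, List.sum_nil, add_zero]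
      rw [a2.2]
      split_ifs <;> ring
    · by_cases ht : t.nc = 0
      · rw [ht] at hlen
        rw [List.length_eq_zero_iff] at hlen
        rw [hlen]
        simp
      · intro y hy
        have hne : (flat dl μ m t).edges ≠ [] := by
          intro h
          rw [h] at hlen
          exact ht hlen.symm
        rw [List.tail_append_of_ne_nil hne] at hy
        rcases List.mem_append.1 hy with hy | hy
        · exact h4 y hy
        · rw [List.mem_singleton] at hy
          rw [hy]
          exact a3.2.2 (if_neg ht)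
    · by_cases ht : t.nc = 0
      · rw [ht] at hlen
        rw [List.length_eq_zero_iff] at hlen
        rw [hlen]
        intro y hy
        have hy' : x = y := by simpa using hy
        rw [← hy', a3.2, if_pos ht]
      · have hne : (flat dl μ m t).edges ≠ [] := by
          intro h
          rw [h] at hlen
          exact ht hlen.symm
        intro y hy
        rw [List.head?_append_of_ne_nil _ hne] at hy
        exact h5 y hy

lemma circle_of (y : AB) : (ofAB y).circle = y.bl := by
  rw [← circle_to, toAB_of]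

lemma weight_of (y : AB) : (ofAB y).weight = y.wt := by
  rw [← weight_to, toAB_of]

lemma flat_circle (dl : ℂ → ℂ → ℂ) (p : PB) (μ : ℤ) (m : Bool) :
    (flat dl μ m p).angles.circle = p.bl ∧ (flat dl μ m p).angles.weight = p.wt := by
  rw [flat_angles, circle_of, weight_of, ang_bl, ang_wt]
  exact ⟨rfl, rfl⟩

lemma flat_below (dl : ℂ → ℂ → ℂ) : ∀ (p : PB) (μ : ℤ) (m : Bool), (flat dl μ m p).Below
  | .vx b a z, μ, m => trivial
  | .br t c, μ, m => by
    refine ⟨flat_below dl t μ m, flat_below dl c 0 false, std_inner _ _ _ _ _ _, ?_⟩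
    rw [(flat_circle dl c 0 false).1, (flat_circle dl c 0 false).2]
    apply vertex_flat
    obtain ⟨h1, h2, h3, h4, h5⟩ := gl_edges dl c 0 false
    set x := std (if t.nc = 0 then m else false) (odd c.wt) (if t.nc = 0 then μ else 0)
        (if c.bl then 0 else 1) (ofFl (fe t.rz (2 * π * dl c.rz t.rz)))
        (ofFl (fe c.rz (2 * π * dl c.rz t.rz))) with hx
    have a1 := (std_end (if t.nc = 0 then m else false) (odd c.wt) (if t.nc = 0 then μ else 0)
        (if c.bl then 0 else 1) (ofFl (fe t.rz (2 * π * dl c.rz t.rz)))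
        (ofFl (fe c.rz (2 * π * dl c.rz t.rz)))).2
    have a2 := (std_across (if t.nc = 0 then m else false) (odd c.wt) (if t.nc = 0 then μ else 0)
        (if c.bl then 0 else 1) (ofFl (fe t.rz (2 * π * dl c.rz t.rz)))
        (ofFl (fe c.rz (2 * π * dl c.rz t.rz)))).2
    have a3 := (std_order (if t.nc = 0 then m else false) (odd c.wt) (if t.nc = 0 then μ else 0)
        (if c.bl then 0 else 1) (ofFl (fe t.rz (2 * π * dl c.rz t.rz)))
        (ofFl (fe c.rz (2 * π * dl c.rz t.rz)))).2
    rw [← hx] at a1 a2 a3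
    have e0 : (if c.nc = 0 then 0 else (0 : ℤ)) = 0 := by split_ifs <;> rfl
    rw [e0, mul_zero] at h2 h3
    refine ⟨?_, ?_, ?_, ?_, ?_⟩
    · intro y hy
      rcases List.mem_cons.1 hy with rfl | hy
      · exact ⟨a1, a3.1⟩
      · exact h1 y hy
    · rw [List.map_cons, List.sum_cons, h2, a2.1, add_zero]
    · rw [List.map_cons, List.sum_cons, h3, a2.2, add_zero]
    · intro y hy
      rw [List.tail_cons] at hy
      cases hE : (flat dl 0 false c).edges with
      | nil => rw [hE] at hy; simp at hy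
      | cons z l =>
        rw [hE] at hy h4 h5
        rcases List.mem_cons.1 hy with rfl | hy
        · exact (h5 y (by simp)).2 rfl
        · exact h4 y (by simpa using hy)
    · intro y hy
      have hy' : x.swap = y := by simpa using hy
      rw [← hy']
      exact a3.2

theorem flat_isFlat (dl : ℂ → ℂ → ℂ) (p : PB) (hp : 1 ≤ p.nc) :
    (flat dl (if p.bl then 0 else 1) (odd p.wt) p).IsFlat := by
  refine ⟨flat_below dl p _ _, ?_⟩
  rw [(flat_circle dl p _ _).1, (flat_circle dl p _ _).2]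
  apply vertex_flat
  have := gl_edges dl p (if p.bl then 0 else 1) (odd p.wt)
  have hn : ¬ p.nc = 0 := by omega
  rw [if_neg hn] at this
  exact this

lemma vertex_val {b : Bool} {a : ℤ} {z l : ℂ} (h : VL b a z l) : ∃ k : ℤ,
    Complex.I / 2 * z * l - π * ((if b then 0 else 1 : ℤ) : ℂ) * (z + π) =
      Complex.I * 2 * π * vt b a z + k * (π : ℂ) ^ 2 := by
  have hpi : (π : ℂ) ≠ 0 := by exact_mod_cast Real.pi_ne_zero
  cases b with
  | true =>
    refine ⟨2, ?_⟩
    rw [h.1 rfl]
    simp only [vt, if_true]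
    push_cast
    linear_combination (-2 * (π : ℂ) ^ 2) * Complex.I_sq
  | false =>
    refine ⟨-1, ?_⟩
    rw [← h.2 rfl]
    simp only [vt]
    have e : Complex.I * 2 * π * (Complex.I * a * z ^ 2 / (4 * π) + Complex.I * z) =
        Complex.I ^ 2 * (a * z ^ 2 / 2 + 2 * π * z) := by
      field_simp
      ring
    simp only [Bool.false_eq_true, if_false]
    rw [e]
    push_cast
    linear_combination (z * (a * z + 2 * π) / 2 - (a * z ^ 2 / 2 + 2 * π * z)) * Complex.I_sq

section
variable {ρ τ κ c : ℝ} {s dl : ℂ → ℂ → ℂ} (hK : KD ρ τ κ c s dl)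
include hK

theorem cv_val (hD : S_DER) (hB : S_BASE) (hS : S_SIG) (hI : S_INV) :
    ∀ p : PB, p.Crt s ρ τ → p.rz ∈ Rc ρ τ → ‖p.rz‖ ≤ 1 / 10 → ∀ (μ : ℤ) (m : Bool), ∃ k : ℤ,
      (flat dl μ m p).complexVolume = Complex.I * 2 * π * p.vl s + Complex.I / 2 * p.rz * lg dl p -
        π * ((if p.nc = 0 then 0 else μ : ℤ) : ℂ) * (p.rz + π) +
        (π : ℂ) ^ 2 / 2 * ((p.shape.ws - p.wt + (if p.nc = 0 then 0 else (m.toNat : ℤ)) : ℤ) : ℂ) +
        k * (π : ℂ) ^ 2
  | .vx b a z, _, _, _, μ, m => by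
    refine ⟨0, ?_⟩
    simp [flat, FlatTree.complexVolume, PB.vl, lg, PB.nc, PB.shape, Tb.ws, PB.wt]
  | .br t d, hCr, t1, t3, μ, m => by
    obtain ⟨-, -, ⟨-, -, hVL⟩, -⟩ := Pool.Agent.TH609.UV.ind W583.HTP.poth hK (.br t d) hCr t1 t3
    obtain ⟨hC1, hC2, hC3⟩ := hCr
    obtain ⟨d1, d3⟩ := vc_facts hK.hρ.1 hK.hτ.1 hC3
    have t1' : t.rz ∈ Rc ρ τ := t1
    have t3' : ‖t.rz‖ ≤ 1 / 10 := t3
    obtain ⟨k1, e1⟩ := cv_val hD hB hS hI t hC1 t1' t3' μ m
    obtain ⟨k2, e2⟩ := cv_val hD hB hS hI d hC2 d1 d3 0 false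
    have hh := hq hK d1 t1' d3 t3'
    have hG := edge hK hD hB d1 t1' d3 t3'
    have hh' := hq_symm hh
    unfold GG at hG
    rw [(lr hh).2.1, (lr hh').2.1] at hG
    obtain ⟨k3, e3⟩ := std_term hS hI (S := s d.rz t.rz) hh' (by linear_combination hG)
      (if t.nc = 0 then m else false) (odd d.wt) (if t.nc = 0 then μ else 0) (if d.bl then 0 else 1)
    obtain ⟨k4, e4⟩ := odd_mod d.wt
    have e4' : (((odd d.wt).toNat : ℕ) : ℂ) = d.wt + 2 * k4 := by exact_mod_cast e4
    obtain ⟨k5, e5⟩ := vertex_val hVL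
    refine ⟨k1 + k2 + k3 + k4 + k5, ?_⟩
    have e6 : (flat dl μ m (.br t d)).complexVolume = (flat dl μ m t).complexVolume +
      (flat dl 0 false d).complexVolume +
      (std (if t.nc = 0 then m else false) (odd d.wt) (if t.nc = 0 then μ else 0)
        (if d.bl then 0 else 1) (ofFl (fe t.rz (2 * π * dl d.rz t.rz)))
        (ofFl (fe d.rz (2 * π * dl d.rz t.rz)))).term := rfl
    rw [e6, e1, e2, e3]
    have hn : (PB.br t d).nc ≠ 0 := by simp [PB.nc]
    rw [if_neg hn, if_neg hn]
    simp only [PB.vl, lg, PB.rz, PB.shape, Tb.ws, PB.wt, Bool.toNat_false]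
    have e7 : (if d.nc = 0 then 0 else (0 : ℤ)) = 0 := by split_ifs <;> rfl
    have e8 : (if d.nc = 0 then 0 else (((0 : ℕ) : ℤ))) = 0 := by split_ifs <;> rfl
    rw [e7, e8]
    by_cases ht : t.nc = 0
    · simp only [ht, if_true]
      push_cast at e5 ⊢
      rw [e4']
      linear_combination e5
    · simp only [ht, if_false, Bool.toNat_false]
      push_cast at e5 ⊢
      rw [e4']
      linear_combination e5

end

end Pool.Agent.TH563.CV
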