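import Pool.Agent.TH563.CV.Hub
import Pool.Agent.TH563.CV.Sum

/-!
# The flattening of a tree with hubs
-/

set_option autoImplicit false

namespace Pool.Agent.TH563.CV

open Pool.Agent.TH563.UV
open Pool.Agent.TH563.UV.Arb
open Pool.Agent.TH563.V
open Pool.Agent.TH563.Z (SDZ Adm et)
open Pool.Agent.TH858.J1745
open Pool.Agent.TH609.UV (fe VL vt_re vl_im)
open Pool.Agent.TH609.Z (HG hg_symm hg_of_hq HB exists_g vok shp)
open Pool.Agent.W711.HT hiding XX gd
open Pool.Agent.W719.AR (Fl)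
open scoped Real

lemma two_eqG (hS : S_SIG) (hI : S_INV) {ψ ψ' u : ℂ} (h : HG ψ ψ' u) (F : Labels)
    (h1 : F.a + F.b + F.c = 1) (h2 : F.a' + F.b' + F.c' = 1) (n1 n2 n3 n4 : ℤ) :
    two (ofFl (fe ψ u)) F n1 n2 n3 n4 = pos (z1 ψ u) F.a F.b + pos (z2 ψ u) F.a' F.b' +
      (π : ℂ) ^ 2 / 6 * ((off F.a F.b F.c n1 n2 n3 + off F.a' F.b' F.c' n1 n3 n4 : ℤ) : ℂ) := by
  have e1 := tet_eq hS hI (z_imG h).1 h1 n1 n2 n3
  have e2 := tet_eq hS hI (z_imG h).2 h2 n1 n3 n4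
  have e3 : two (ofFl (fe ψ u)) F n1 n2 n3 n4 =
    tet (z1 ψ u).arg (1 / (1 - z1 ψ u)).arg (1 - 1 / z1 ψ u).arg F.a F.b F.c n1 n2 n3 +
    tet (z2 ψ u).arg (1 / (1 - z2 ψ u)).arg (1 - 1 / z2 ψ u).arg F.a' F.b' F.c' n1 n3 n4 := rfl
  rw [e3, e1, e2]
  push_cast
  ring

theorem std_termG (hS : S_SIG) (hI : S_INV) {ψ ψ' u S : ℂ} (h : HG ψ ψ' u)
    (hG : 2 * (rog (z1 ψ u) + rog (z2 ψ u) + rog (z1 ψ' u) + rog (z2 ψ' u)) -
      π * Complex.I / 2 * (Lg u ψ + Lg u ψ') - Complex.I * 2 * π * S -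
      Complex.I / 2 * (ψ * Lg u ψ + ψ' * Lg u ψ') = -(π : ℂ) ^ 2 / 2) (m m' : Bool) (μ μ' : ℤ) :
    ∃ k : ℤ, (std m m' μ μ' (ofFl (fe ψ u)) (ofFl (fe ψ' u))).term =
      Complex.I * 2 * π * S + Complex.I / 2 * (ψ * Lg u ψ + ψ' * Lg u ψ') -
      π * μ * (ψ + π) - π * μ' * (ψ' + π) +
      (π : ℂ) ^ 2 / 2 * ((m.toNat + m'.toNat : ℕ) : ℂ) + k * (π : ℂ) ^ 2 := by
  have h' := hg_symm h
  set x := std m m' μ μ' (ofFl (fe ψ u)) (ofFl (fe ψ' u)) with hx
  obtain ⟨⟨a1, a2⟩, ⟨b1, b2⟩, ⟨c1, c2⟩, ⟨d1, d2⟩, -⟩ := std_inner m m' μ μ' (ofFl (fe ψ u))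
    (ofFl (fe ψ' u))
  rw [← hx] at a1 a2 b1 b2 c1 c2 d1 d2
  obtain ⟨k, hk⟩ := off_sum m m' μ μ' (ofFl (fe ψ u)) (ofFl (fe ψ' u)) x hx
  have ef : x.f = ofFl (fe ψ u) := rfl
  have eg : x.g = ofFl (fe ψ' u) := rfl
  obtain ⟨l1, l2, l3⟩ := lrG h
  obtain ⟨r1, r2⟩ := lr3G h
  obtain ⟨r3, r4⟩ := lr3G h'
  have l2' := (lrG h').2.1
  refine ⟨k, ?_⟩
  have hk' : ((off x.F.a x.F.b x.F.c x.n1 x.n2 x.n3 + off x.F.a' x.F.b' x.F.c' x.n1 x.n3 x.n4 : ℤ) :
      ℂ) + ((off x.G.a x.G.b x.G.c x.n3 x.n2 x.n1 + off x.G.a' x.G.b' x.G.c' x.n3 x.n1 x.n4 : ℤ) : ℂ)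
      + (((off x.B.a x.B.b x.B.c x.n2 x.n1 x.n4 + off x.B.a' x.B.b' x.B.c' x.n2 x.n4 x.n3 : ℤ) : ℂ)
      + ((off x.H.a x.H.b x.H.c x.n2 x.n3 x.n4 + off x.H.a' x.H.b' x.H.c' x.n2 x.n4 x.n1 : ℤ) : ℂ))
      = 3 * (1 + ((m.toNat + m'.toNat : ℕ) : ℂ)) + 6 * k := by
    have := congrArg (Int.cast : ℤ → ℂ) hk
    push_cast at this ⊢
    linear_combination this
  have ht : x.term = pos (z1 ψ u) x.F.a x.F.b + pos (z2 ψ u) x.F.a' x.F.b' +
      (pos (z1 ψ' u) x.G.a x.G.b + pos (z2 ψ' u) x.G.a' x.G.b') +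
      (pos (z1 ψ u) x.B.a x.B.b + pos (z2 ψ u) x.B.a' x.B.b' +
      (pos (z1 ψ' u) x.H.a x.H.b + pos (z2 ψ' u) x.H.a' x.H.b')) +
      (π : ℂ) ^ 2 / 6 * (3 * (1 + ((m.toNat + m'.toNat : ℕ) : ℂ)) + 6 * k) := by
    unfold Piece.term
    rw [ef, eg, two_eqG hS hI h _ a1 a2, two_eqG hS hI h' _ b1 b2, two_eqG hS hI h _ c1 c2,
      two_eqG hS hI h' _ d1 d2, ← hk']
    ring
  rw [ht]
  simp only [hx, std, pos, extRogers]
  push_cast
  rw [r1, r2, r3, r4]
  rw [← l2, ← l2'] at hG ⊢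
  linear_combination hG + (π * μ * (ψ + π) + π * μ' * (ψ' + π)) * Complex.I_sq

/-- the tree with the standard flattening; `A`: the angles at the edges -/
noncomputable def flatA (A : ℕ → PB → PB → Angles × Angles) (D : ℕ) :
    ℤ → Bool → ℕ → PB → FlatTree
  | _, _, _, .vx b a _ => .single b a
  | μ, m, k, .br t c => .join (flatA A D μ m k t) (flatA A D 0 false (kc D c) c)
      (std (if t.nc = 0 then m else false) (odd c.wt) (if t.nc = 0 then μ else 0)
        (if c.bl then 0 else 1) (A k t c).1 (A k t c).2)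

section
variable (A : ℕ → PB → PB → Angles × Angles) (D : ℕ)

lemma nc_edgesA (k : ℕ) : ∀ (p : PB) (μ : ℤ) (m : Bool),
    ((flatA A D μ m k p).edges).length = p.nc
  | .vx b a z, μ, m => rfl
  | .br t c, μ, m => by
    simp only [flatA, FlatTree.edges, PB.nc, List.length_append, List.length_singleton]
    rw [nc_edgesA k t]

lemma gl_edgesA (k : ℕ) : ∀ (p : PB) (μ : ℤ) (m : Bool),
    Mrk (flatA A D μ m k p).edges (if p.nc = 0 then 0 else μ) m
  | .vx b a z, μ, m => by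
    simp [flatA, FlatTree.edges, Mrk, PB.nc]
  | .br t c, μ, m => by
    obtain ⟨h1, h2, h3, h4, h5⟩ := gl_edgesA k t μ m
    have hlen := nc_edgesA A D k t μ m
    set x := std (if t.nc = 0 then m else false) (odd c.wt) (if t.nc = 0 then μ else 0)
        (if c.bl then 0 else 1) (A k t c).1 (A k t c).2 with hx
    have e1 : (flatA A D μ m k (.br t c)).edges = (flatA A D μ m k t).edges ++ [x] := rfl
    have a1 := (std_end (if t.nc = 0 then m else false) (odd c.wt) (if t.nc = 0 then μ else 0)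
        (if c.bl then 0 else 1) (A k t c).1 (A k t c).2).1
    have a2 := (std_across (if t.nc = 0 then m else false) (odd c.wt) (if t.nc = 0 then μ else 0)
        (if c.bl then 0 else 1) (A k t c).1 (A k t c).2).1
    have a3 := (std_order (if t.nc = 0 then m else false) (odd c.wt) (if t.nc = 0 then μ else 0)
        (if c.bl then 0 else 1) (A k t c).1 (A k t c).2).1
    rw [← hx] at a1 a2 a3
    have hn : (PB.br t c).nc ≠ 0 := by simp [PB.nc]
    rw [e1, if_neg hn]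
    refine ⟨?_, ?_, ?_, ?_, ?_⟩
    · intro y hy
      rcases List.mem_append.1 hy with hy | hy
      · exact h1 y hy
      · rw [List.mem_singleton] at hy
        rw [hy]
        exact ⟨a1, a3.1⟩
    · rw [List.map_append, List.sum_append, h2]
      simp only [List.map_cons, List.map_nil, List.sum_cons, List.sum_nil, add_zero]
      rw [a2.1]
      split_ifs <;> ring
    · rw [List.map_append, List.sum_append, h3]
      simp only [List.map_cons, List.map_nil, List.sum_cons, List.sum_nil, add_zero]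
      rw [a2.2]
      split_ifs <;> ring
    · by_cases ht : t.nc = 0
      · rw [ht] at hlen
        rw [List.length_eq_zero_iff] at hlen
        rw [hlen]
        simp
      · intro y hy
        have hne : (flatA A D μ m k t).edges ≠ [] := by
          intro h
          rw [h] at hlen
          exact ht hlen.symm
        rw [List.tail_append_of_ne_nil hne] at hy
        rcases List.mem_append.1 hy with hy | hy
        · exact h4 y hy
        · rw [List.mem_singleton] at hy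
          rw [hy]
          exact a3.2.2 (if_neg ht)
    · by_cases ht : t.nc = 0
      · rw [ht] at hlen
        rw [List.length_eq_zero_iff] at hlen
        rw [hlen]
        intro y hy
        have hy' : x = y := by simpa using hy
        rw [← hy', a3.2, if_pos ht]
      · have hne : (flatA A D μ m k t).edges ≠ [] := by
          intro h
          rw [h] at hlen
          exact ht hlen.symm
        intro y hy
        rw [List.head?_append_of_ne_nil _ hne] at hy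
        exact h5 y hy

lemma flatA_circle : ∀ (p : PB) (μ : ℤ) (m : Bool) (k : ℕ),
    (flatA A D μ m k p).angles.circle = p.bl ∧ (flatA A D μ m k p).angles.weight = p.wt
  | .vx b a z, μ, m, k => ⟨rfl, rfl⟩
  | .br t c, μ, m, k => by
    simp only [flatA, FlatTree.angles, AngleTree.circle, AngleTree.weight, PB.bl, PB.wt]
    exact flatA_circle t μ m k

lemma flatA_below : ∀ (p : PB) (μ : ℤ) (m : Bool) (k : ℕ), (flatA A D μ m k p).Below
  | .vx b a z, μ, m, k => trivial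
  | .br t c, μ, m, k => by
    refine ⟨flatA_below t μ m k, flatA_below c 0 false (kc D c), std_inner _ _ _ _ _ _, ?_⟩
    rw [(flatA_circle A D c 0 false (kc D c)).1, (flatA_circle A D c 0 false (kc D c)).2]
    apply vertex_flat
    obtain ⟨h1, h2, h3, h4, h5⟩ := gl_edgesA A D (kc D c) c 0 false
    set x := std (if t.nc = 0 then m else false) (odd c.wt) (if t.nc = 0 then μ else 0)
        (if c.bl then 0 else 1) (A k t c).1 (A k t c).2 with hx
    have a1 := (std_end (if t.nc = 0 then m else false) (odd c.wt) (if t.nc = 0 then μ else 0)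
        (if c.bl then 0 else 1) (A k t c).1 (A k t c).2).2
    have a2 := (std_across (if t.nc = 0 then m else false) (odd c.wt) (if t.nc = 0 then μ else 0)
        (if c.bl then 0 else 1) (A k t c).1 (A k t c).2).2
    have a3 := (std_order (if t.nc = 0 then m else false) (odd c.wt) (if t.nc = 0 then μ else 0)
        (if c.bl then 0 else 1) (A k t c).1 (A k t c).2).2
    rw [← hx] at a1 a2 a3
    have e0 : (if c.nc = 0 then 0 else (0 : ℤ)) = 0 := by split_ifs <;> rfl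
    rw [e0, mul_zero] at h2 h3
    refine ⟨?_, ?_, ?_, ?_, ?_⟩
    · intro y hy
      rcases List.mem_cons.1 hy with rfl | hy
      · exact ⟨a1, a3.1⟩
      · exact h1 y hy
    · rw [List.map_cons, List.sum_cons, h2, a2.1, add_zero]
    · rw [List.map_cons, List.sum_cons, h3, a2.2, add_zero]
    · intro y hy
      rw [List.tail_cons] at hy
      cases hE : (flatA A D 0 false (kc D c) c).edges with
      | nil => rw [hE] at hy; simp at hy
      | cons z l =>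
        rw [hE] at hy h4 h5
        rcases List.mem_cons.1 hy with rfl | hy
        · exact (h5 y (by simp)).2 rfl
        · exact h4 y (by simpa using hy)
    · intro y hy
      have hy' : x.swap = y := by simpa using hy
      rw [← hy']
      exact a3.2

theorem flatA_isFlat (p : PB) (hp : 1 ≤ p.nc) (k : ℕ) :
    (flatA A D (if p.bl then 0 else 1) (odd p.wt) k p).IsFlat := by
  refine ⟨flatA_below A D p _ _ k, ?_⟩
  rw [(flatA_circle A D p _ _ k).1, (flatA_circle A D p _ _ k).2]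
  apply vertex_flat
  have := gl_edgesA A D k p (if p.bl then 0 else 1) (odd p.wt)
  have hn : ¬ p.nc = 0 := by omega
  rw [if_neg hn] at this
  exact this

end

/-- the angles at the edges -/
noncomputable def agA (D : ℕ) (e : ℕ → ℕ → ℂ → ℂ → ℂ) (k : ℕ) (t c : PB) : Angles × Angles :=
  (ofFl (fe t.rz (uu D e k t c)), ofFl (fe c.rz (uu D e k t c)))

lemma flatv_angles (D : ℕ) (e : ℕ → ℕ → ℂ → ℂ → ℂ) : ∀ (p : PB) (μ : ℤ) (m : Bool) (k : ℕ),
    (flatA (agA D e) D μ m k p).angles = ofAB (agv D e k p)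
  | .vx b a z, μ, m, k => rfl
  | .br t c, μ, m, k => by
    simp only [flatA, FlatTree.angles, agv, ofAB]
    rw [flatv_angles D e t, flatv_angles D e c]
    rfl

theorem gpe (hD : S_DER) (hB : S_BASE) {ρ τ κ c : ℝ} {s dl : ℂ → ℂ → ℂ}
    (hK : KD ρ τ κ c s dl) {D : ℕ} {S Dl : ℕ → ℂ → ℂ → ℂ} {r : ℕ → ℝ}
    (hS : ∀ k, 3 ≤ k → k < D → Adm (et k) ∧ ∃ c' C, SDZ (et k) (r k) c' C (S k) (Dl k)) {g : ℝ}
    (hg0 : 0 < g)
    (hg : ∀ k, 3 ≤ k → k < D → ∀ ψ φ : ℂ, ‖ψ‖ ≤ g → ‖φ - et k * Complex.I‖ ≤ g →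
      HB (et k) (r k) (Dl k) ψ φ) {k k' : ℕ} {z' z : ℂ} (hk : k ≠ 0 → 3 ≤ k ∧ k < D)
    (hk' : k' ≠ 0 → 3 ≤ k' ∧ k' < D) (h1 : Ps ρ τ g k z) (h2 : Ps ρ τ g k' z')
    (h3 : k ≠ 0 → k' = 0 ∧ ‖z'‖ ≤ g) (h4 : k' ≠ 0 → k = 0 ∧ ‖z‖ ≤ g) :
    GP z' z (2 * π * ee dl Dl k k' z' z) (pt S s k k' z' z) = -(π : ℂ) ^ 2 / 2 := by
  by_cases hk0 : k = 0
  · by_cases hk1 : k' = 0
    · subst hk0 hk1
      obtain ⟨t1, t3⟩ := h1.1 rfl
      obtain ⟨d1, d3⟩ := h2.1 rfl
      have e1 : ee dl Dl 0 0 z' z = dl z' z := by simp [ee]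
      have e2 : pt S s 0 0 z' z = s z' z := by simp [pt]
      rw [e1, e2]
      exact edge hK hD hB d1 t1 d3 t3
    · subst hk0
      obtain ⟨k1, k2⟩ := hk' hk1
      obtain ⟨hA, c', C, hS'⟩ := hS k' k1 k2
      have e1 : ee dl Dl 0 k' z' z = Dl k' z z' := by simp [ee, hk1]
      have e2 : pt S s 0 k' z' z = S k' z z' := by simp [pt, hk1]
      rw [e1, e2, GP_symm]
      exact gp_hub hD hB hA hS' hg0 (hg k' k1 k2) (h4 hk1).2 (h2.2 hk1)
  · obtain ⟨k1, k2⟩ := hk hk0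
    obtain ⟨hA, c', C, hS'⟩ := hS k k1 k2
    have e1 : ee dl Dl k k' z' z = Dl k z' z := by simp [ee, hk0]
    have e2 : pt S s k k' z' z = S k z' z := by simp [pt, hk0]
    rw [e1, e2]
    exact gp_hub hD hB hA hS' hg0 (hg k k1 k2) (h3 hk0).2 (h1.2 hk0)

theorem cv_valV (hD : S_DER) (hB : S_BASE) (hS1 : S_SIG) (hI : S_INV) {ρ τ κ c : ℝ}
    {s dl : ℂ → ℂ → ℂ} (hK : KD ρ τ κ c s dl) {D : ℕ} {S Dl : ℕ → ℂ → ℂ → ℂ} {r : ℕ → ℝ}
    (hS : ∀ k, 3 ≤ k → k < D → Adm (et k) ∧ ∃ c' C, SDZ (et k) (r k) c' C (S k) (Dl k)) {g : ℝ}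
    (hg0 : 0 < g)
    (hg : ∀ k, 3 ≤ k → k < D → ∀ ψ φ : ℂ, ‖ψ‖ ≤ g → ‖φ - et k * Complex.I‖ ≤ g →
      HB (et k) (r k) (Dl k) ψ φ) :
    ∀ (p : PB) (k : ℕ), (k ≠ 0 → 3 ≤ k ∧ k < D) → CV D S s ρ τ g k p → Ps ρ τ g k p.rz →
      ∀ (μ : ℤ) (m : Bool), ∃ n : ℤ,
      (flatA (agA D (ee dl Dl)) D μ m k p).complexVolume = Complex.I * 2 * π * vv D S s k p +
        Complex.I / 2 * p.rz * lgv D (ee dl Dl) k p -
        π * ((if p.nc = 0 then 0 else μ : ℤ) : ℂ) * (p.rz + π) +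
        (π : ℂ) ^ 2 / 2 * ((p.shape.ws - p.wt + (if p.nc = 0 then 0 else (m.toNat : ℤ)) : ℤ) : ℂ) +
        n * (π : ℂ) ^ 2
  | .vx b a z, k, _, _, _, μ, m => by
    refine ⟨0, ?_⟩
    simp [flatA, FlatTree.complexVolume, vv, lgv, PB.nc, PB.shape, Tb.ws, PB.wt]
  | .br t d, k, hk, hCr, hP, μ, m => by
    have hS' : ∀ k, 3 ≤ k → k < D → ∃ c' C, SDZ (et k) (r k) c' C (S k) (Dl k) :=
      fun k h1 h2 => (hS k h1 h2).2
    obtain ⟨-, ⟨-, -, hHG⟩, ⟨-, -, hVL⟩, -⟩ := indv hK hS' hg (.br t d) k hk hCr hP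
    obtain ⟨hC1, hC2, hC3, hC4, hC5⟩ := hCr
    have hkd : kc D d ≠ 0 → 3 ≤ kc D d ∧ kc D d < D := fun h => (kc_ne h).2.2
    have hPt : Ps ρ τ g k t.rz := hP
    have hPd : Ps ρ τ g (kc D d) d.rz := ps_of hK.hρ.1 hK.hτ.1 hC3
    obtain ⟨k1, e1⟩ := cv_valV hD hB hS1 hI hK hS hg0 hg t k hk hC1 hPt μ m
    obtain ⟨k2, e2⟩ := cv_valV hD hB hS1 hI hK hS hg0 hg d (kc D d) hkd hC2 hPd 0 false
    have hG := gpe hD hB hK hS hg0 hg hk hkd hPt hPd hC4 hC5
    have hHG' := hg_symm hHG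
    change GP d.rz t.rz (uu D (ee dl Dl) k t d) (pt S s k (kc D d) d.rz t.rz) = _ at hG
    unfold GP at hG
    rw [(lrG hHG).2.1, (lrG hHG').2.1] at hG
    obtain ⟨k3, e3⟩ := std_termG hS1 hI (S := pt S s k (kc D d) d.rz t.rz) hHG'
      (by linear_combination hG)
      (if t.nc = 0 then m else false) (odd d.wt) (if t.nc = 0 then μ else 0) (if d.bl then 0 else 1)
    obtain ⟨k4, e4⟩ := odd_mod d.wt
    have e4' : (((odd d.wt).toNat : ℕ) : ℂ) = d.wt + 2 * k4 := by exact_mod_cast e4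
    obtain ⟨k5, e5⟩ := vertex_val hVL
    refine ⟨k1 + k2 + k3 + k4 + k5, ?_⟩
    have e6 : (flatA (agA D (ee dl Dl)) D μ m k (.br t d)).complexVolume =
      (flatA (agA D (ee dl Dl)) D μ m k t).complexVolume +
      (flatA (agA D (ee dl Dl)) D 0 false (kc D d) d).complexVolume +
      (std (if t.nc = 0 then m else false) (odd d.wt) (if t.nc = 0 then μ else 0)
        (if d.bl then 0 else 1) (ofFl (fe t.rz (uu D (ee dl Dl) k t d)))
        (ofFl (fe d.rz (uu D (ee dl Dl) k t d)))).term := rfl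
    rw [e6, e1, e2, e3]
    have hn : (PB.br t d).nc ≠ 0 := by simp [PB.nc]
    rw [if_neg hn, if_neg hn]
    have e9 : vv D S s k (.br t d) = vv D S s k t + (vt d.bl d.wt d.rz + vv D S s (kc D d) d +
      pt S s k (kc D d) d.rz t.rz) := rfl
    rw [e9]
    simp only [lgv, PB.rz, PB.shape, Tb.ws, PB.wt, Bool.toNat_false]
    have e7 : (if d.nc = 0 then 0 else (0 : ℤ)) = 0 := by split_ifs <;> rfl
    have e8 : (if d.nc = 0 then 0 else (((0 : ℕ) : ℤ))) = 0 := by split_ifs <;> rfl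
    rw [e7, e8]
    by_cases ht : t.nc = 0
    · simp only [ht, if_true]
      push_cast at e5 ⊢
      rw [e4']
      linear_combination e5
    · simp only [ht, if_false, Bool.toNat_false]
      push_cast at e5 ⊢
      rw [e4']
      linear_combination e5

end Pool.Agent.TH563.CV
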