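import Pool.Agent.TH563.CV.MainVC

/-!
# The Chern-Simons invariant of the complement of an arborescent link

`HasCS t V C`: `V + i C` is the complex volume `vol + i CS` of the complement of the link of `t`,
modulo `i π²`, by Neumann's formula (see `Pool.Agent.TH563.CV.Flat`).
-/

set_option autoImplicit false

namespace Pool.Agent.TH563.CV

open Finset Filter Topology
open Pool.Agent.TH563.UV
open Pool.Agent.TH563.UV.Arb
open Pool.Agent.TH563.V
open Pool.Agent.TH563.V.Arb
open Pool.Agent.TH563.Z.Arb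
open Pool.Agent.W719.AX (EXY)
open scoped Real

/-- `V + i C` is the complex volume `vol + i CS` of the complement of the link of `t`, modulo
`i π²`: there are an angle structure of volume `V` (the maximal volume, so that the shapes are
those of the complete hyperbolic structure) and a flattening such that `i (V + i C)` is the sum of the
extended Rogers dilogarithms over the ideal tetrahedra (with the orders of their vertices), modulo
`π²`.  By Neumann's theorem this sum is `i (vol + i CS)` for every flattening. -/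
def HasCS (t : Tree) (V C : ℝ) : Prop :=
  ∃ x : FlatTree, x.angles.tree = t ∧ IsAngle x.angles ∧ vol x.angles = V ∧ x.IsFlat ∧
    ∃ k : ℤ, Complex.I * (V + Complex.I * C) = x.complexVolume + k * (Real.pi : ℂ) ^ 2

lemma IsComplexVolume.hasCS {t : Tree} {V : ℝ} {v : ℂ} (h : IsComplexVolume t V v)
    (hv : 2 * Real.pi * v.re = V) : HasCS t V (2 * Real.pi * v.im) := by
  obtain ⟨x, h1, h2, h3, h4, k, h5⟩ := h
  refine ⟨x, h1, h2, h3, h4, k, ?_⟩
  rw [← h5, ← hv]
  push_cast
  have e := Complex.re_add_im v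
  linear_combination (2 * Real.pi * Complex.I) * e

lemma exp_form_v {V : ℝ} {v : ℂ} (hv : 2 * Real.pi * v.re = V) :
    v = (V + Complex.I * (2 * Real.pi * v.im : ℝ)) / (2 * Real.pi) := by
  have hpi : (Real.pi : ℂ) ≠ 0 := by exact_mod_cast Real.pi_ne_zero
  rw [← hv]
  push_cast
  have e := Complex.re_add_im v
  field_simp
  linear_combination (-1) * e

/-- the exponent of an expansion is unique modulo `2 π i` -/
lemma exy_unique {a : ℕ → ℂ} {v w : ℂ} {y z : ℕ → ℂ} (hy : y 0 ≠ 0) (hz : z 0 ≠ 0)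
    (h1 : EXY a v y) (h2 : EXY a w z) : ∃ n : ℤ, w = v + 2 * Real.pi * Complex.I * n := by
  have r1 := (Pool.Agent.W460.AX.rat _ v y hy h1).2.1
  have r2 := (Pool.Agent.W460.AX.rat _ w z hz h2).2.1
  have e := tendsto_nhds_unique r2 r1
  obtain ⟨n, hn⟩ := Complex.exp_eq_exp_iff_exists_int.1 e
  exact ⟨n, by rw [hn]; ring⟩

/-- The expansion to all orders of the Kashaev invariants of the links of all trees of the class
`Fine K`; the exponent is the complex volume. -/
theorem mainCS : ∃ K : ℕ, ∀ t : Tree, Fine K t → 1 ≤ t.children →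
    (∀ N : ℕ, ContinuousAt (jones t N) (root N)) ∧
    ∃ V : ℝ, IsGreatest {W : ℝ | ∃ y : AngleTree, y.tree = t ∧ IsAngle y ∧ vol y = W} V ∧
      (∀ e f : ℤ, ∃ (C : ℝ) (y : ℕ → ℂ), HasCS t V C ∧
        y 0 ≠ 0 ∧ EXY (kashaev e f t) ((V + Complex.I * C) / (2 * Real.pi)) y) ∧
      (∀ s : Tree, t = s.double → HasCS t V 0 ∧ ∃ x : ℕ → ℝ, 0 < x 0 ∧
        EXY (kashaev (4 * s.circles) 1 t) ((V / (2 * Real.pi) : ℝ) : ℂ)
          (fun k => (x k : ℂ))) ∧
      (t.weight = 0 → (t.kids.map Tree.mirror).Perm t.kids → HasCS t V 0 ∧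
        ∃ (f : ℤ) (x : ℕ → ℝ), x 0 ≠ 0 ∧
        (∀ N : ℕ, 2 ≤ N → ∃ r : ℝ, kashaev (2 * t.circles) f t N = r) ∧
        EXY (kashaev (2 * t.circles) f t) ((V / (2 * Real.pi) : ℝ) : ℂ)
          (fun k => (x k : ℂ))) := by
  obtain ⟨K, hK⟩ := mainVC
  refine ⟨K, fun t ht hc => ?_⟩
  obtain ⟨h1, V, h2, h3, h4, h5⟩ := hK t ht hc
  have key : ∀ (e f : ℤ) (x : ℕ → ℝ), x 0 ≠ 0 →
      EXY (kashaev e f t) ((V / (2 * Real.pi) : ℝ) : ℂ) (fun k => (x k : ℂ)) → HasCS t V 0 := by
    intro e f x hx h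
    obtain ⟨v, y, hv, hcv, hy, h'⟩ := h3 e f
    obtain ⟨n, hn⟩ := exy_unique hy (by exact_mod_cast hx) h' h
    have h6 := hcv.add (2 * n)
    have e1 : v + Real.pi * Complex.I * ((2 * n : ℤ) : ℂ) = ((V / (2 * Real.pi) : ℝ) : ℂ) := by
      rw [hn]
      push_cast
      ring
    rw [e1] at h6
    have h7 := h6.hasCS (by
      rw [Complex.ofReal_re]
      field_simp)
    rwa [Complex.ofReal_im, mul_zero] at h7
  refine ⟨h1, V, h2, fun e f => ?_, fun s hs => ?_, fun hw hp => ?_⟩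
  · obtain ⟨v, y, hv, hcv, hy, h⟩ := h3 e f
    refine ⟨2 * Real.pi * v.im, y, hcv.hasCS hv, hy, ?_⟩
    rw [← exp_form_v hv]
    exact h
  · obtain ⟨x, hx, h⟩ := h4 s hs
    exact ⟨key _ _ x hx.ne' h, x, hx, h⟩
  · obtain ⟨f, x, hx, hr, h⟩ := h5 hw hp
    exact ⟨key _ _ x hx h, f, x, hx, hr, h⟩

end Pool.Agent.TH563.CV
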