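import Pool.Agent.TH563.CV.Dil

/-!
# The value `4 rog (1 + i) + 4 rog ((1 + i) / 2) = 4 π bet i - π² / 2`
-/

set_option autoImplicit false

namespace Pool.Agent.TH563.CV

open Filter Topology MeasureTheory
open scoped Real

namespace BaseAux

/-- the real logarithm of `2 cos` -/
noncomputable def lc (t : ℝ) : ℝ := Real.log (2 * Real.cos t)

/-- the path on the line `Re = 1 / 2` -/
noncomputable def zz (t : ℝ) : ℂ := 1 / 2 + Complex.I / 2 * (Real.tan t : ℂ)

theorem zz_eq (t : ℝ) (h : 0 < Real.cos t) :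
    zz t = Complex.exp (t * Complex.I - lc t) := by
  have hc : (Real.cos t : ℂ) ≠ 0 := by exact_mod_cast h.ne'
  rw [Complex.exp_sub, Complex.exp_mul_I, ← Complex.ofReal_exp, lc, Real.exp_log (by positivity),
    ← Complex.ofReal_cos, ← Complex.ofReal_sin, zz, Real.tan_eq_sin_div_cos]
  push_cast
  rw [← Complex.ofReal_cos]
  field_simp

theorem one_sub_zz_eq (t : ℝ) (h : 0 < Real.cos t) :
    1 - zz t = Complex.exp (-(t * Complex.I) - lc t) := by
  have e := zz_eq (-t) (by rwa [Real.cos_neg])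
  have e1 : lc (-t) = lc t := by rw [lc, lc, Real.cos_neg]
  rw [e1] at e
  have e2 : ((-t : ℝ) : ℂ) * Complex.I - lc t = -(t * Complex.I) - lc t := by
    push_cast; ring
  rw [e2] at e
  rw [← e, zz, zz, Real.tan_neg]
  push_cast
  ring

theorem log_zz (t : ℝ) (h : 0 < Real.cos t) (h1 : -π < t) (h2 : t < π) :
    Complex.log (zz t) = t * Complex.I - lc t := by
  rw [zz_eq t h, Complex.log_exp]
  · simpa using h1
  · simpa using h2.le

theorem log_one_sub_zz (t : ℝ) (h : 0 < Real.cos t) (h1 : -π < t) (h2 : t < π) :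
    Complex.log (1 - zz t) = -(t * Complex.I) - lc t := by
  rw [one_sub_zz_eq t h, Complex.log_exp]
  · simpa using h2
  · simp; linarith

theorem zz_mem (t : ℝ) : zz t ∈ Complex.slitPlane := by
  rw [Complex.mem_slitPlane_iff]
  left
  simp [zz]

theorem one_sub_zz_mem (t : ℝ) : 1 - zz t ∈ Complex.slitPlane := by
  rw [Complex.mem_slitPlane_iff]
  left
  have : (1 - zz t).re = 1 / 2 := by
    simp [zz]
    norm_num
  rw [this]
  norm_num

theorem hasDerivAt_zz (t : ℝ) (h : Real.cos t ≠ 0) :
    HasDerivAt zz (Complex.I / 2 * ((1 / Real.cos t ^ 2 : ℝ) : ℂ)) t := by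
  have := (((Real.hasDerivAt_tan h).ofReal_comp).const_mul (Complex.I / 2)).const_add (1 / 2 : ℂ)
  exact this

theorem hasDerivAt_lc (t : ℝ) (h : 0 < Real.cos t) :
    HasDerivAt lc (-Real.tan t) t := by
  have h1 := ((Real.hasDerivAt_cos t).const_mul 2).log (by positivity)
  have e : 2 * -Real.sin t / (2 * Real.cos t) = -Real.tan t := by
    rw [Real.tan_eq_sin_div_cos]
    have := h.ne'
    field_simp
  rw [e] at h1
  exact h1

/-- the primitive -/
noncomputable def HH (t : ℝ) : ℂ := rog (zz t) + Complex.I * (t * lc t : ℂ)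

theorem hasDerivAt_HH (h : S_DER) (t : ℝ) (hc : 0 < Real.cos t) (h1 : -π < t) (h2 : t < π) :
    HasDerivAt HH (2 * Complex.I * (lc t : ℂ)) t := by
  have d1 := (h (zz t) (zz_mem t) (one_sub_zz_mem t)).scomp t (hasDerivAt_zz t hc.ne')
  have d2 : HasDerivAt (fun t : ℝ => Complex.I * ((t : ℂ) * (lc t : ℂ)))
      (Complex.I * (1 * (lc t : ℂ) + (t : ℂ) * ((-Real.tan t : ℝ) : ℂ))) t := by
    have a1 : HasDerivAt (fun t : ℝ => (t : ℂ)) 1 t := by
      simpa using (hasDerivAt_id t).ofReal_comp
    have a2 := (hasDerivAt_lc t hc).ofReal_comp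
    exact (a1.mul a2).const_mul Complex.I
  have d3 := d1.add d2
  rw [log_zz t hc h1 h2, log_one_sub_zz t hc h1 h2] at d3
  have e : (Complex.I / 2 * ((1 / Real.cos t ^ 2 : ℝ) : ℂ)) •
      (-((-(t * Complex.I) - lc t) / zz t + (t * Complex.I - lc t) / (1 - zz t)) / 2) +
      Complex.I * (1 * (lc t : ℂ) + (t : ℂ) * ((-Real.tan t : ℝ) : ℂ)) =
      2 * Complex.I * (lc t : ℂ) := by
    have z0 : zz t ≠ 0 := Complex.slitPlane_ne_zero (zz_mem t)
    have z1 : 1 - zz t ≠ 0 := Complex.slitPlane_ne_zero (one_sub_zz_mem t)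
    have e1 : ((1 / Real.cos t ^ 2 : ℝ) : ℂ) = 4 * zz t * (1 - zz t) := by
      have : 1 / Real.cos t ^ 2 = 1 + Real.tan t ^ 2 := by
        rw [Real.tan_eq_sin_div_cos]
        have h3 := Real.sin_sq_add_cos_sq t
        have := hc.ne'
        field_simp
        linarith
      rw [this, zz]
      push_cast
      linear_combination ((Complex.tan t) ^ 2) * Complex.I_sq
    have e2 : ((-Real.tan t : ℝ) : ℂ) = Complex.I * (2 * zz t - 1) := by
      rw [zz]
      push_cast
      linear_combination (-(Complex.tan t)) * Complex.I_sq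
    rw [e1, e2, smul_eq_mul]
    field_simp
    linear_combination (0 : ℂ) * Complex.I_sq
  rw [e] at d3
  exact d3

/-- the integral of `log (2 sin)` and `log (2 cos)` over `[0, π / 4]` -/
theorem sin_add_cos : (∫ t in (0 : ℝ)..(π / 4), Real.log (2 * Real.sin t)) +
    (∫ t in (0 : ℝ)..(π / 4), lc t) = 0 := by
  have hpi := Real.pi_pos
  have e1 : (∫ t in (0 : ℝ)..(π / 4), Real.log (2 * Real.sin t)) =
      ∫ t in (0 : ℝ)..(π / 4), (Real.log 2 + Real.log (Real.sin t)) := by
    refine intervalIntegral.integral_congr_Ioo_of_le (by positivity) fun t ht => ?_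
    have : 0 < Real.sin t := Real.sin_pos_of_pos_of_lt_pi ht.1 (by linarith [ht.2])
    exact Real.log_mul two_ne_zero this.ne'
  have e2 : (∫ t in (0 : ℝ)..(π / 4), lc t) =
      ∫ t in (0 : ℝ)..(π / 4), (Real.log 2 + Real.log (Real.sin (π / 2 - t))) := by
    refine intervalIntegral.integral_congr_Ioo_of_le (by positivity) fun t ht => ?_
    have : 0 < Real.cos t := Real.cos_pos_of_mem_Ioo ⟨by linarith [ht.1], by linarith [ht.2]⟩
    show lc t = _
    rw [Real.sin_pi_div_two_sub, lc, Real.log_mul two_ne_zero this.ne']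
  have i1 : ∀ a b : ℝ, IntervalIntegrable (fun t => Real.log (Real.sin t)) volume a b :=
    fun a b => intervalIntegrable_log_sin
  have i2 : IntervalIntegrable (fun t => Real.log (Real.sin (π / 2 - t))) volume 0 (π / 4) := by
    have : IntervalIntegrable (fun t => Real.log (Real.cos t)) volume 0 (π / 4) :=
      intervalIntegrable_log_cos
    simpa only [Real.sin_pi_div_two_sub] using this
  rw [e1, e2, intervalIntegral.integral_add intervalIntegrable_const (i1 _ _),
    intervalIntegral.integral_add intervalIntegrable_const i2,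
    intervalIntegral.integral_comp_sub_left (fun x => Real.log (Real.sin x)),
    intervalIntegral.integral_const]
  have e3 : π / 2 - π / 4 = π / 4 := by ring
  have e4 : π / 2 - 0 = π / 2 := by ring
  have h := intervalIntegral.integral_add_adjacent_intervals (i1 0 (π / 4)) (i1 (π / 4) (π / 2))
  rw [integral_log_sin_zero_pi_div_two] at h
  rw [e3, e4, smul_eq_mul]
  linarith

theorem cos_pos_quarter (t : ℝ) (ht : t ∈ Set.uIcc (0 : ℝ) (π / 4)) : 0 < Real.cos t := by
  have hpi := Real.pi_pos
  rw [Set.uIcc_of_le (by positivity)] at ht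
  exact Real.cos_pos_of_mem_Ioo ⟨by linarith [ht.1], by linarith [ht.2]⟩

theorem continuousOn_lc : ContinuousOn lc (Set.uIcc (0 : ℝ) (π / 4)) := fun t ht =>
  (hasDerivAt_lc t (cos_pos_quarter t ht)).continuousAt.continuousWithinAt

theorem lc_quarter : lc (π / 4) = Real.log 2 / 2 := by
  rw [lc, Real.cos_pi_div_four]
  have : 2 * (√2 / 2) = √2 := by ring
  rw [this, Real.log_sqrt (by norm_num)]

theorem zz_quarter : zz (π / 4) = (1 + Complex.I) / 2 := by
  rw [zz, Real.tan_pi_div_four]
  push_cast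
  ring

theorem zz_zero : zz 0 = 1 / 2 := by
  simp [zz]

/-- the value at `(1 + i) / 2` -/
theorem rog_val (h : S_DER) (h1 : S_REF) : rog ((1 + Complex.I) / 2) =
    -(π : ℂ) ^ 2 / 12 + 2 * Complex.I * ((∫ t in (0 : ℝ)..(π / 4), lc t : ℝ) : ℂ) -
      Complex.I * π / 8 * Real.log 2 := by
  have hpi := Real.pi_pos
  have hI := intervalIntegral.integral_eq_sub_of_hasDerivAt
    (a := 0) (b := π / 4) (f := HH) (f' := fun t => 2 * Complex.I * (lc t : ℂ))
    (fun t ht => by
      have hc := cos_pos_quarter t ht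
      rw [Set.uIcc_of_le (by positivity)] at ht
      exact hasDerivAt_HH h t hc (by linarith [ht.1]) (by linarith [ht.2]))
    (ContinuousOn.intervalIntegrable (by
      have := continuousOn_lc
      exact continuousOn_const.mul (Complex.continuous_ofReal.comp_continuousOn this)))
  rw [intervalIntegral.integral_const_mul, intervalIntegral.integral_ofReal] at hI
  have hr : rog (1 / 2) = -(π : ℂ) ^ 2 / 12 := by
    have m1 : (1 / 2 : ℂ) ∈ Complex.slitPlane := by
      rw [Complex.mem_slitPlane_iff]; left; norm_num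
    have e : (1 : ℂ) - 1 / 2 = 1 / 2 := by norm_num
    have := h1 (1 / 2) m1 (by rw [e]; exact m1)
    rw [e] at this
    linear_combination this / 2
  simp only [HH, zz_quarter, zz_zero, lc_quarter] at hI
  rw [hr] at hI
  push_cast at hI ⊢
  linear_combination -hI

end BaseAux

open BaseAux in
/-- **A special value.** -/
theorem base (h : S_DER) (h1 : S_REF) (h2 : S_SIG) : S_BASE := by
  have hpi := Real.pi_pos
  have hv := rog_val h h1
  have hs := h2 ((1 + Complex.I) / 2) (by simp)
  have e1 : 1 / (1 - (1 + Complex.I) / 2) = 1 + Complex.I := by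
    have : 1 - (1 + Complex.I) / 2 ≠ 0 := by
      intro hh
      have := congrArg Complex.im hh
      norm_num at this
    rw [div_eq_iff this]
    linear_combination (1 / 2 : ℂ) * Complex.I_sq
  have e2 : Complex.log (1 - (1 + Complex.I) / 2) = -(((π / 4 : ℝ) : ℂ) * Complex.I) -
      ((Real.log 2 / 2 : ℝ) : ℂ) := by
    rw [← zz_quarter, log_one_sub_zz (π / 4) (cos_pos_quarter _ (by simp)) (by linarith)
      (by linarith), lc_quarter]
  rw [e1, e2] at hs
  have hb : ((Pool.Agent.W711.HT.bet : ℝ) : ℂ) * π = 4 * ((∫ t in (0 : ℝ)..(π / 4), lc t : ℝ) : ℂ) := by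
    have h3 := sin_add_cos
    have : Pool.Agent.W711.HT.bet * π = 4 * ∫ t in (0 : ℝ)..(π / 4), lc t := by
      rw [Pool.Agent.W711.HT.bet]
      field_simp
      linarith
    exact_mod_cast this
  rw [S_BASE]
  push_cast at hs hv hb ⊢
  linear_combination (-4 : ℂ) * hs + 8 * hv - 4 * Complex.I * hb + (π : ℂ) ^ 2 / 2 * Complex.I_sq

end Pool.Agent.TH563.CV
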