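import Pool.Agent.W711.HT.Defs

/-!
# The dilogarithm and Rogers' dilogarithm: statements
-/

set_option autoImplicit false

namespace Pool.Agent.TH563.CV

open Filter Topology
open scoped Real

/-- Euler's dilogarithm `Li₂(z) = -∫_0^1 log (1 - t z) dt / t`, principal branch -/
noncomputable def li2 (z : ℂ) : ℂ := -∫ t in (0 : ℝ)..1, Complex.log (1 - t * z) / t

/-- Rogers' dilogarithm, normalized as by Neumann -/
noncomputable def rog (z : ℂ) : ℂ :=
  li2 z + Complex.log z * Complex.log (1 - z) / 2 - (π : ℂ) ^ 2 / 6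

/-- the derivative -/
def S_DER : Prop := ∀ z : ℂ, z ∈ Complex.slitPlane → 1 - z ∈ Complex.slitPlane →
  HasDerivAt rog (-(Complex.log (1 - z) / z + Complex.log z / (1 - z)) / 2) z

/-- reflection -/
def S_REF : Prop := ∀ z : ℂ, z ∈ Complex.slitPlane → 1 - z ∈ Complex.slitPlane →
  rog z + rog (1 - z) = -(π : ℂ) ^ 2 / 6

/-- rotation -/
def S_SIG : Prop := ∀ z : ℂ, 0 < z.im →
  rog z - rog (1 / (1 - z)) = -(π : ℂ) ^ 2 / 6 + π * Complex.I / 2 * Complex.log (1 - z)

/-- inversion -/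
def S_INV : Prop := ∀ z : ℂ, 0 < z.im →
  rog (1 / z) = -rog z + π * Complex.I / 2 * Complex.log z

/-- a special value -/
def S_BASE : Prop := 4 * rog (1 + Complex.I) + 4 * rog ((1 + Complex.I) / 2) =
  4 * π * Pool.Agent.W711.HT.bet * Complex.I - (π : ℂ) ^ 2 / 2

end Pool.Agent.TH563.CV
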