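import Mathlib
import Pool.Agent.TH563.CV.Dil

/-!
# The derivative of Rogers' dilogarithm
-/

set_option autoImplicit false

namespace Pool.Agent.TH563.CV

open Filter Topology MeasureTheory Set
open scoped Real Interval

namespace DerAux

/-- the plane cut along `[1, ∞)` is star shaped -/
lemma star {z : ℂ} (hz : 1 - z ∈ Complex.slitPlane) {t : ℝ} (h0 : 0 ≤ t) (h1 : t ≤ 1) :
    1 - (t : ℂ) * z ∈ Complex.slitPlane := by
  have h := StarConvex.add_smul_mem Complex.starConvex_one_slitPlane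
    (y := -z) (by rwa [← sub_eq_add_neg]) h0 h1
  rw [Complex.real_smul] at h
  have e : (1 : ℂ) + (t : ℂ) * -z = 1 - (t : ℂ) * z := by ring
  rwa [e] at h

/-- the derivative of the integrand with respect to `z` -/
lemma hd {z : ℂ} (hz : 1 - z ∈ Complex.slitPlane) {t : ℝ} (h0 : 0 < t) (h1 : t ≤ 1) :
    HasDerivAt (fun w : ℂ => Complex.log (1 - (t : ℂ) * w) / t) (-(1 - (t : ℂ) * z)⁻¹) z := by
  have hs := star hz h0.le h1
  have h2 : HasDerivAt (fun w : ℂ => 1 - (t : ℂ) * w) (-(t : ℂ)) z := by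
    have := ((hasDerivAt_id z).const_mul (t : ℂ)).const_sub 1
    simpa using this
  have h3 := (h2.clog hs).div_const (t : ℂ)
  have ht : (t : ℂ) ≠ 0 := by exact_mod_cast h0.ne'
  have hn := Complex.slitPlane_ne_zero hs
  have e : -(t : ℂ) / (1 - (t : ℂ) * z) / t = -(1 - (t : ℂ) * z)⁻¹ := by
    field_simp
  rwa [e] at h3

/-- the derivative of the logarithm along the segment -/
lemma hdt {z : ℂ} (hz : 1 - z ∈ Complex.slitPlane) {t : ℝ} (h0 : 0 ≤ t) (h1 : t ≤ 1) :
    HasDerivAt (fun s : ℝ => Complex.log (1 - (s : ℂ) * z)) (-z * (1 - (t : ℂ) * z)⁻¹) t := by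
  have hs := star hz h0 h1
  have h2 : HasDerivAt (fun w : ℂ => 1 - w * z) (-z) (t : ℂ) := by
    have := ((hasDerivAt_id (t : ℂ)).mul_const z).const_sub 1
    simpa using this
  have h3 := (h2.clog hs).comp_ofReal
  rwa [div_eq_mul_inv] at h3

/-- a uniform bound -/
lemma bound {z : ℂ} (hz : 1 - z ∈ Complex.slitPlane) : ∃ ε : ℝ, 0 < ε ∧ ∃ M : ℝ, 0 ≤ M ∧
    ∀ w : ℂ, w ∈ Metric.closedBall z ε → 1 - w ∈ Complex.slitPlane ∧
      ∀ t : ℝ, 0 ≤ t → t ≤ 1 → ‖-(1 - (t : ℂ) * w)⁻¹‖ ≤ M := by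
  have hop : IsOpen {w : ℂ | 1 - w ∈ Complex.slitPlane} :=
    Complex.isOpen_slitPlane.preimage (continuous_const.sub continuous_id)
  obtain ⟨ε, hε, hball⟩ := Metric.nhds_basis_closedBall.mem_iff.1 (hop.mem_nhds hz)
  have hK : IsCompact (Icc (0 : ℝ) 1 ×ˢ Metric.closedBall z ε) :=
    isCompact_Icc.prod (isCompact_closedBall z ε)
  have hc : ContinuousOn (fun p : ℝ × ℂ => -(1 - (p.1 : ℂ) * p.2)⁻¹)
      (Icc (0 : ℝ) 1 ×ˢ Metric.closedBall z ε) := by
    refine ContinuousOn.neg (ContinuousOn.inv₀ (by fun_prop) ?_)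
    rintro ⟨t, w⟩ ⟨ht, hw⟩
    exact Complex.slitPlane_ne_zero (star (hball hw) ht.1 ht.2)
  obtain ⟨M, hM⟩ := hK.exists_bound_of_continuousOn hc
  refine ⟨ε, hε, |M|, abs_nonneg _, fun w hw => ⟨hball hw, fun t h0 h1 => ?_⟩⟩
  exact (hM (t, w) ⟨⟨h0, h1⟩, hw⟩).trans (le_abs_self _)

lemma cont {z : ℂ} (hz : 1 - z ∈ Complex.slitPlane) :
    ContinuousOn (fun t : ℝ => Complex.log (1 - (t : ℂ) * z) / t) (Ι (0 : ℝ) 1) := by
  intro t ht
  rw [uIoc_of_le zero_le_one] at ht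
  have h1 := (hdt hz ht.1.le ht.2).continuousAt
  have h2 : ContinuousAt (fun t : ℝ => (t : ℂ)) t := Complex.continuous_ofReal.continuousAt
  exact (h1.div h2 (by exact_mod_cast ht.1.ne')).continuousWithinAt

lemma cont' {z : ℂ} (hz : 1 - z ∈ Complex.slitPlane) :
    ContinuousOn (fun t : ℝ => -(1 - (t : ℂ) * z)⁻¹) (uIcc (0 : ℝ) 1) := by
  rw [uIcc_of_le zero_le_one]
  refine ContinuousOn.neg (ContinuousOn.inv₀ (by fun_prop) ?_)
  intro t ht
  exact Complex.slitPlane_ne_zero (star hz ht.1 ht.2)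

lemma integrable {z : ℂ} (hz : 1 - z ∈ Complex.slitPlane) :
    IntervalIntegrable (fun t : ℝ => Complex.log (1 - (t : ℂ) * z) / t) volume 0 1 := by
  obtain ⟨ε, hε, M, hM, hb⟩ := bound hz
  have hb1 := (hb z (Metric.mem_closedBall_self hε.le)).2
  have hle : ∀ t ∈ Ι (0 : ℝ) 1, ‖Complex.log (1 - (t : ℂ) * z) / t‖ ≤ ‖z‖ * M := by
    intro t ht
    rw [uIoc_of_le zero_le_one] at ht
    have h1 := Convex.norm_image_sub_le_of_norm_hasDerivWithin_le
      (f := fun s : ℝ => Complex.log (1 - (s : ℂ) * z))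
      (f' := fun s : ℝ => -z * (1 - (s : ℂ) * z)⁻¹) (s := Icc (0 : ℝ) 1) (C := ‖z‖ * M)
      (x := 0) (y := t) (fun s hs => (hdt hz hs.1 hs.2).hasDerivWithinAt)
      (fun s hs => by
        have h2 := hb1 s hs.1 hs.2
        rw [norm_neg] at h2
        rw [norm_mul, norm_neg]
        exact mul_le_mul_of_nonneg_left h2 (norm_nonneg _)) (convex_Icc 0 1)
      ⟨le_rfl, zero_le_one⟩ ⟨ht.1.le, ht.2⟩
    have e : Complex.log (1 - ((0 : ℝ) : ℂ) * z) = 0 := by simp
    simp only [e, sub_zero] at h1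
    rw [norm_div, Complex.norm_real, div_le_iff₀ (norm_pos_iff.2 ht.1.ne')]
    exact h1
  rw [intervalIntegrable_iff]
  refine IntegrableOn.of_bound ?_ ((cont hz).aestronglyMeasurable measurableSet_uIoc) (‖z‖ * M)
    ((ae_restrict_iff' measurableSet_uIoc).2 (Eventually.of_forall hle))
  rw [uIoc_of_le zero_le_one]
  simp

/-- the derivative of the dilogarithm -/
lemma li2_der {z : ℂ} (h0 : z ≠ 0) (hz : 1 - z ∈ Complex.slitPlane) :
    HasDerivAt li2 (-(Complex.log (1 - z) / z)) z := by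
  obtain ⟨ε, hε, M, hM, hb⟩ := bound hz
  have h1 := intervalIntegral.hasDerivAt_integral_of_dominated_loc_of_deriv_le
    (μ := volume) (a := 0) (b := 1)
    (F := fun (w : ℂ) (t : ℝ) => Complex.log (1 - (t : ℂ) * w) / t)
    (F' := fun (w : ℂ) (t : ℝ) => -(1 - (t : ℂ) * w)⁻¹) (x₀ := z)
    (s := Metric.closedBall z ε) (bound := fun _ => M) (Metric.closedBall_mem_nhds z hε)
    (by
      filter_upwards [Metric.closedBall_mem_nhds z hε] with w hw
      exact (cont (hb w hw).1).aestronglyMeasurable measurableSet_uIoc)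
    (integrable hz)
    ((cont' hz).mono uIoc_subset_uIcc |>.aestronglyMeasurable measurableSet_uIoc)
    (Eventually.of_forall fun t ht w hw => by
      rw [uIoc_of_le zero_le_one] at ht
      exact (hb w hw).2 t ht.1.le ht.2)
    intervalIntegrable_const
    (Eventually.of_forall fun t ht w hw => by
      rw [uIoc_of_le zero_le_one] at ht
      exact hd (hb w hw).1 ht.1 ht.2)
  have h2 : ∫ t in (0 : ℝ)..1, -(1 - (t : ℂ) * z)⁻¹ = Complex.log (1 - z) / z := by
    have h3 : ∀ t ∈ uIcc (0 : ℝ) 1,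
        HasDerivAt (fun s : ℝ => Complex.log (1 - (s : ℂ) * z) / z) (-(1 - (t : ℂ) * z)⁻¹) t := by
      intro t ht
      rw [uIcc_of_le zero_le_one] at ht
      have h4 := (hdt hz ht.1 ht.2).div_const z
      have e : -z * (1 - (t : ℂ) * z)⁻¹ / z = -(1 - (t : ℂ) * z)⁻¹ := by
        field_simp
      rwa [e] at h4
    rw [intervalIntegral.integral_eq_sub_of_hasDerivAt h3 (cont' hz).intervalIntegrable]
    simp
  have h5 := h1.2.neg
  rw [h2] at h5
  exact h5

end DerAux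

/-- the derivative of Rogers' dilogarithm -/
theorem der : S_DER := by
  intro z hz hz1
  have h0 := Complex.slitPlane_ne_zero hz
  have h1 := DerAux.li2_der h0 hz1
  have h2 : HasDerivAt (fun w : ℂ => 1 - w) (-1) z := by
    simpa using (hasDerivAt_id z).const_sub 1
  have h3 := ((Complex.hasDerivAt_log hz).mul (h2.clog hz1)).div_const 2
  have h4 := (h1.add h3).sub_const ((π : ℂ) ^ 2 / 6)
  have h5 := Complex.slitPlane_ne_zero hz1
  refine h4.congr_deriv ?_
  field_simp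
  ring

end Pool.Agent.TH563.CV
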