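import Pool.Agent.TH609.UV.Hinge
import Pool.Agent.TH563.CV.Dil

/-!
# The logarithms of the shapes at a hinge
-/

set_option autoImplicit false

namespace Pool.Agent.TH563.CV

open Pool.Agent.W711.HT hiding XX
open Pool.Agent.W719.AR (Fl flS)
open Pool.Agent.W864.AR
open Pool.Agent.TH609.UV
open Pool.Agent.W554.HT (tri)
open scoped Real

lemma log_eq {x y : ℂ} (h : Complex.exp x = Complex.exp y) (hi : x.im = y.im) : x = y := by
  obtain ⟨n, hn⟩ := Complex.exp_eq_exp_iff_exists_int.1 h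
  have h1 := congrArg Complex.im hn
  have e : ((n : ℂ) * (2 * π * Complex.I)).im = n * (2 * π) := by
    have : (n : ℂ) * (2 * π * Complex.I) = ((n * (2 * π) : ℝ) : ℂ) * Complex.I := by
      push_cast; ring
    rw [this]
    simp
  rw [Complex.add_im, e, hi] at h1
  have hpi := Real.pi_pos
  have h2 : (n : ℝ) = 0 := by
    have : (n : ℝ) * (2 * π) = 0 := by linarith
    rcases mul_eq_zero.1 this with h | h
    · exact h
    · linarith
  have h3 : n = 0 := by exact_mod_cast h2
  rw [hn, h3]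
  simp

lemma arg_one_div {z : ℂ} (h : 0 < z.im) : Complex.arg (1 / (1 - z)) = -Complex.arg (1 - z) := by
  rw [one_div, Complex.arg_inv, if_neg]
  intro h1
  rw [Complex.arg_eq_pi_iff] at h1
  have := h1.2
  simp at this
  linarith

/-- the shapes at a hinge -/
noncomputable def z1 (ψ u : ℂ) : ℂ :=
  t1 (Complex.exp (Complex.I * u)) (Complex.exp (Complex.I * ψ))

/-- the shapes at a hinge -/
noncomputable def z2 (ψ u : ℂ) : ℂ :=
  t2 (Complex.exp (Complex.I * u)) (Complex.exp (Complex.I * ψ))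

lemma z_im {ψ ψ' u : ℂ} (h : HQ ψ ψ' u) : 0 < (z1 ψ u).im ∧ 0 < (z2 ψ u).im :=
  ⟨(re1 (nr h)).2, (re2 (nr h)).2⟩

theorem lr {ψ ψ' u : ℂ} (h : HQ ψ ψ' u) :
    Complex.log (z1 ψ u) + Complex.log (z2 ψ u) - Complex.log (1 - z1 ψ u) =
      π * Complex.I + Complex.I * ψ ∧
    Complex.log (z1 ψ u) + Complex.log (1 - z2 ψ u) = Lg u ψ ∧
    2 * Complex.log (z2 ψ u) + Complex.log (z1 ψ' u) - Complex.log (1 - z2 ψ' u) =
      π * Complex.I + Complex.I * ψ := by
  have h' := hq_symm h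
  have hW := exp_form ψ ψ' u h
  have hn := nr h
  have hn' := nr h'
  have hg1 := hinge h
  have hX := ne_X hn
  have hX1 := ne_X1 hn
  have hG := ne_G hn
  have hG1 := ne_G1 hn
  have hXG := ne_XG hn
  have hXaG := ne_XaG hn
  have hK := ne_G hn'
  have hK1 := ne_G1 hn'
  have hXK := ne_XG hn'
  have hXaK := ne_XaG hn'
  have i1 := (z_im h).1
  have i2 := (z_im h).2
  have j1 := (z_im h').1
  have j2 := (z_im h').2
  have q1 := one_sub_t1 hn
  have q2 := one_sub_inv_t1 hn
  have q3 := one_sub_t2 hn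
  have q4 := one_sub_inv_t2 hn
  have p1 := one_sub_t1 hn'
  have p3 := one_sub_t2 hn'
  obtain ⟨t10, t11, t12, t13, t14, t15, -, -, -⟩ := tri i1
  obtain ⟨t20, t21, t22, t23, t24, t25, -, -, -⟩ := tri i2
  obtain ⟨u10, u11, u12, u13, u14, u15, -, -, -⟩ := tri j1
  obtain ⟨u20, u21, u22, u23, u24, u25, -, -, -⟩ := tri j2
  obtain ⟨-, -, -, s4, s5, s6⟩ := shp h
  have a1 := arg_one_div i1
  have a2 := arg_one_div i2
  have b2 := arg_one_div j2
  simp only [fe, flS, Fl.tw, Fl.cr] at s4 s5 s6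
  have hI (ψ : ℂ) : (π * Complex.I + Complex.I * ψ).im = π + ψ.re := by simp
  have hE (ψ : ℂ) : Complex.exp (π * Complex.I + Complex.I * ψ) =
      -Complex.exp (Complex.I * ψ) := by
    rw [Complex.exp_add, Complex.exp_pi_mul_I]; ring
  refine ⟨log_eq ?_ ?_, log_eq ?_ ?_, log_eq ?_ ?_⟩
  · rw [hE, Complex.exp_sub, Complex.exp_add, Complex.exp_log t10, Complex.exp_log t20,
      Complex.exp_log t11]
    unfold z1 z2
    rw [q1, t1, t2]
    have hX1' : 1 - Complex.exp (Complex.I * u) ≠ 0 := by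
      intro h0
      apply hX1
      linear_combination -h0
    field_simp
    ring
  · rw [hI, Complex.sub_im, Complex.add_im, Complex.log_im, Complex.log_im, Complex.log_im]
    change (z1 ψ u).arg + (z2 ψ u).arg + (1 / (1 - z1 ψ u)).arg - π = ψ.re at s5
    linarith
  · rw [hW, Complex.exp_add, Complex.exp_log t10, Complex.exp_log t21]
    unfold z1 z2
    rw [q3, t1]
    field_simp
    ring
  · rw [Complex.add_im, Complex.log_im, Complex.log_im]
    change (z1 ψ u).arg + (z2 ψ u).arg + (1 - 1 / z2 ψ u).arg - π = (Lg u ψ).im at s6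
    linarith
  · rw [hE, Complex.exp_sub, Complex.exp_add, two_mul, Complex.exp_add, Complex.exp_log t20,
      Complex.exp_log u10, Complex.exp_log u21]
    unfold z1 z2
    rw [p3, t1, t2]
    field_simp
    linear_combination (-1) * hg1
  · rw [hI, Complex.sub_im, Complex.add_im, Complex.log_im, Complex.log_im]
    have e : (2 * Complex.log (z2 ψ u)).im = 2 * (z2 ψ u).arg := by
      rw [two_mul, Complex.add_im, Complex.log_im, two_mul]
    rw [e]
    change 2 * (z2 ψ u).arg + ((z1 ψ' u).arg + (1 / (1 - z2 ψ' u)).arg) = π + ψ.re at s4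
    linarith

/-- the logarithms in terms of two of them -/
theorem lr2 {ψ ψ' u : ℂ} (h : HQ ψ ψ' u) :
    Complex.log (z2 ψ u) = (π * Complex.I + Complex.I * ψ + Lg u ψ') / 2 -
      Complex.log (z1 ψ' u) ∧
    Complex.log (1 - z2 ψ u) = Lg u ψ - Complex.log (z1 ψ u) ∧
    Complex.log (1 - z1 ψ u) = -(π * Complex.I + Complex.I * ψ - Lg u ψ') / 2 +
      Complex.log (z1 ψ u) - Complex.log (z1 ψ' u) := by
  obtain ⟨a1, a2, a3⟩ := lr h
  obtain ⟨b1, b2, b3⟩ := lr (hq_symm h)
  refine ⟨?_, ?_, ?_⟩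
  · linear_combination (1 / 2) * a3 + (1 / 2) * b2
  · linear_combination a2
  · linear_combination -a1 + (1 / 2) * a3 + (1 / 2) * b2

end Pool.Agent.TH563.CV
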