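import Pool.Agent.TH609.J30
import Pool.Agent.TH563.CV.Rel

/-!
# The sum of the dilogarithms at a hinge
-/

set_option autoImplicit false

namespace Pool.Agent.TH563.CV

open Pool.Agent.W711.HT hiding XX
open Pool.Agent.W864.AR
open Pool.Agent.TH609.UV
open Filter Topology
open scoped Real

lemma slit {z : ℂ} (h : 0 < z.im) : z ∈ Complex.slitPlane ∧ 1 - z ∈ Complex.slitPlane := by
  constructor
  · rw [Complex.mem_slitPlane_iff]
    exact Or.inr h.ne'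
  · rw [Complex.mem_slitPlane_iff]
    right
    simp only [Complex.sub_im, Complex.one_im, zero_sub, neg_ne_zero]
    exact h.ne'

/-- derivatives of the functions of one shape -/
lemma dd (hD : S_DER) {f : ℂ → ℂ} {x f' : ℂ} (hf : HasDerivAt f f' x) (h : 0 < (f x).im) :
    HasDerivAt (fun z => Complex.log (f z)) (f' / f x) x ∧
    HasDerivAt (fun z => Complex.log (1 - f z)) (-(f' / (1 - f x))) x ∧
    HasDerivAt (fun z => rog (f z)) (-(Complex.log (1 - f x) * (f' / f x) +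
      Complex.log (f x) * (f' / (1 - f x))) / 2) x := by
  obtain ⟨h1, h2⟩ := slit h
  refine ⟨hf.clog h1, ?_, ?_⟩
  · have := (hf.const_sub 1).clog h2
    rw [neg_div] at this
    exact this
  · have h3 := (hD (f x) h1 h2).comp x hf
    refine h3.congr_deriv ?_
    ring

/-- the differences of the two sides -/
noncomputable def GG (s dl : ℂ → ℂ → ℂ) (ψ ψ' : ℂ) : ℂ :=
  2 * (rog (z1 ψ (2 * π * dl ψ ψ')) + rog (z2 ψ (2 * π * dl ψ ψ')) +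
    rog (z1 ψ' (2 * π * dl ψ ψ')) + rog (z2 ψ' (2 * π * dl ψ ψ'))) -
  π * Complex.I / 2 *
    ((Complex.log (z1 ψ (2 * π * dl ψ ψ')) + Complex.log (1 - z2 ψ (2 * π * dl ψ ψ'))) +
    (Complex.log (z1 ψ' (2 * π * dl ψ ψ')) + Complex.log (1 - z2 ψ' (2 * π * dl ψ ψ')))) -
  Complex.I * 2 * π * s ψ ψ' -
  Complex.I / 2 *
    (ψ * (Complex.log (z1 ψ (2 * π * dl ψ ψ')) + Complex.log (1 - z2 ψ (2 * π * dl ψ ψ'))) +
    ψ' * (Complex.log (z1 ψ' (2 * π * dl ψ ψ')) + Complex.log (1 - z2 ψ' (2 * π * dl ψ ψ'))))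

theorem lr3 {ψ ψ' u : ℂ} (h : HQ ψ ψ' u) :
    Complex.log (z2 ψ u) = (π * Complex.I + Complex.I * ψ + (Complex.log (z1 ψ' u) +
      Complex.log (1 - z2 ψ' u))) / 2 - Complex.log (z1 ψ' u) ∧
    Complex.log (1 - z1 ψ u) = -(π * Complex.I + Complex.I * ψ - (Complex.log (z1 ψ' u) +
      Complex.log (1 - z2 ψ' u))) / 2 + Complex.log (z1 ψ u) - Complex.log (z1 ψ' u) := by
  obtain ⟨a1, a2, a3⟩ := lr2 h
  rw [(lr (hq_symm h)).2.1]
  exact ⟨a1, a3⟩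

lemma alg (L1 M2 L3 M4 A1 B2 A3 B4 L2 M1 L4 M3 A2 B1 A4 B3 g ψ ψ' : ℂ)
    (e1 : L2 = (π * Complex.I + Complex.I * ψ + (L3 + M4)) / 2 - L3)
    (e2 : M1 = -(π * Complex.I + Complex.I * ψ - (L3 + M4)) / 2 + L1 - L3)
    (e3 : L4 = (π * Complex.I + Complex.I * ψ' + (L1 + M2)) / 2 - L1)
    (e4 : M3 = -(π * Complex.I + Complex.I * ψ' - (L1 + M2)) / 2 + L3 - L1)
    (e5 : g = L1 + M2)
    (e6 : A2 = (Complex.I + (A3 + -B4)) / 2 - A3)
    (e7 : -B1 = -(Complex.I - (A3 + -B4)) / 2 + A1 - A3)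
    (e8 : A4 = (A1 + -B2) / 2 - A1)
    (e9 : -B3 = (A1 + -B2) / 2 + A3 - A1) :
    2 * (-(M1 * A1 + L1 * B1) / 2 + -(M2 * A2 + L2 * B2) / 2 + -(M3 * A3 + L3 * B3) / 2 +
      -(M4 * A4 + L4 * B4) / 2) - π * Complex.I / 2 * (A1 + -B2 + (A3 + -B4)) -
      Complex.I * 2 * π * (-(1 / (2 * π)) * g) -
      Complex.I / 2 * (1 * (L1 + M2) + ψ * (A1 + -B2) + ψ' * (A3 + -B4)) = 0 := by
  have hpi : (π : ℂ) ≠ 0 := by exact_mod_cast Real.pi_ne_zero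
  have e7' : B1 = (Complex.I - (A3 + -B4)) / 2 - A1 + A3 := by linear_combination -e7
  have e9' : B3 = -(A1 + -B2) / 2 - A3 + A1 := by linear_combination -e9
  have e10 : Complex.I * 2 * π * (-(1 / (2 * π)) * g) = -Complex.I * g := by
    field_simp
  rw [e10, e1, e2, e3, e4, e5, e6, e7', e8, e9']
  ring

section
variable {ρ τ κ c : ℝ} {s dl : ℂ → ℂ → ℂ} (hK : KD ρ τ κ c s dl)
include hK

lemma dU {ψ ψ' : ℂ} (hψ : ψ ∈ Rc (3 * ρ) (3 * τ)) (hψ' : ψ' ∈ Rc (3 * ρ) (3 * τ)) :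
    DifferentiableAt ℂ (fun z => Complex.exp (Complex.I * (2 * π * dl z ψ'))) ψ := by
  have hopen : IsOpen (Rc (3 * ρ) (3 * τ) ×ˢ Rc (3 * ρ) (3 * τ)) :=
    (Pool.Agent.W374.HT.Cch.Rc_open _ _).prod (Pool.Agent.W374.HT.Cch.Rc_open _ _)
  have h1 : DifferentiableAt ℂ (fun p : ℂ × ℂ => dl p.1 p.2) (ψ, ψ') :=
    hK.dan.differentiableAt (hopen.mem_nhds ⟨hψ, hψ'⟩)
  have h2 : DifferentiableAt ℂ (fun z : ℂ => (z, ψ')) ψ :=
    differentiableAt_id.prodMk (differentiableAt_const _)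
  have h3 : DifferentiableAt ℂ (fun z => dl z ψ') ψ :=
    DifferentiableAt.comp (g := fun p : ℂ × ℂ => dl p.1 p.2) ψ h1 h2
  exact (((h3.const_mul (2 * (π : ℂ))).const_mul Complex.I)).cexp

lemma dz {ψ ψ' : ℂ} (hψ : ψ ∈ Rc ρ τ) (hψ' : ψ' ∈ Rc ρ τ) (h1 : ‖ψ‖ ≤ 1 / 10)
    (h1' : ‖ψ'‖ ≤ 1 / 10) :
    (∃ a, HasDerivAt (fun z => z1 z (2 * π * dl z ψ')) a ψ) ∧
    (∃ a, HasDerivAt (fun z => z2 z (2 * π * dl z ψ')) a ψ) ∧
    (∃ a, HasDerivAt (fun z => z1 ψ' (2 * π * dl z ψ')) a ψ) ∧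
    (∃ a, HasDerivAt (fun z => z2 ψ' (2 * π * dl z ψ')) a ψ) := by
  have hq := hq hK hψ hψ' h1 h1'
  have hn := nr hq
  have hn' := nr (hq_symm hq)
  have hX := dU hK (Pool.Agent.W374.HT.Cch.Rc_mono hK.hρ.1 hK.hτ.1 hψ)
    (Pool.Agent.W374.HT.Cch.Rc_mono hK.hρ.1 hK.hτ.1 hψ')
  have hG : DifferentiableAt ℂ (fun z : ℂ => Complex.exp (Complex.I * z)) ψ :=
    (differentiableAt_id.const_mul Complex.I).cexp
  have hC : DifferentiableAt ℂ (fun _ : ℂ => Complex.exp (Complex.I * ψ')) ψ :=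
    differentiableAt_const _
  have hXn := ne_X hn
  have key (G : ℂ → ℂ) (hG : DifferentiableAt ℂ G ψ)
      (h1 : 1 + Complex.exp (Complex.I * (2 * π * dl ψ ψ')) * G ψ ≠ 0) (h2 : 1 + G ψ ≠ 0) :
      (∃ a, HasDerivAt (fun z => t1 (Complex.exp (Complex.I * (2 * π * dl z ψ'))) (G z)) a ψ) ∧
      (∃ a, HasDerivAt (fun z => t2 (Complex.exp (Complex.I * (2 * π * dl z ψ'))) (G z)) a ψ) := by
    refine ⟨⟨_, DifferentiableAt.hasDerivAt ?_⟩, ⟨_, DifferentiableAt.hasDerivAt ?_⟩⟩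
    · unfold t1
      exact (hX.mul (hG.add_const 1)).fun_div ((hX.mul hG).const_add 1) h1
    · unfold t2
      exact ((hX.sub_const 1).mul hG).fun_div (hX.mul (hG.const_add 1)) (mul_ne_zero hXn h2)
  have k1 := key _ hG (ne_XG hn) (ne_G1 hn)
  have k2 := key _ hC (ne_XG hn') (ne_G1 hn')
  exact ⟨k1.1, k1.2, k2.1, k2.2⟩

/-- the derivative, at the interior points -/
lemma dG (hD : S_DER) {ψ ψ' : ℂ} (hψ : ψ ∈ Rc ρ τ) (hψ' : ψ' ∈ Rc ρ τ) (h1 : ‖ψ‖ ≤ 1 / 10)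
    (h1' : ‖ψ'‖ ≤ 1 / 10) :
    DifferentiableAt ℂ (fun z => GG s dl z ψ') ψ ∧
      (‖ψ‖ < 1 / 10 → HasDerivAt (fun z => GG s dl z ψ') 0 ψ) := by
  obtain ⟨⟨a1, d1⟩, ⟨a2, d2⟩, ⟨a3, d3⟩, ⟨a4, d4⟩⟩ := dz hK hψ hψ' h1 h1'
  have hh := hq hK hψ hψ' h1 h1'
  have i1 := z_im hh
  have i2 := z_im (hq_symm hh)
  obtain ⟨l1, m1, r1⟩ := dd hD d1 i1.1
  obtain ⟨l2, m2, r2⟩ := dd hD d2 i1.2
  obtain ⟨l3, m3, r3⟩ := dd hD d3 i2.1
  obtain ⟨l4, m4, r4⟩ := dd hD d4 i2.2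
  have hs := hK.sder ψ (Pool.Agent.W374.HT.Cch.Rc_mono hK.hρ.1 hK.hτ.1 hψ) ψ'
    (Pool.Agent.W374.HT.Cch.Rc_mono hK.hρ.1 hK.hτ.1 hψ')
  have hid := hasDerivAt_id ψ
  have main := ((((((r1.add r2).add r3).add r4).const_mul 2).sub
    (((l1.add m2).add (l3.add m4)).const_mul (π * Complex.I / 2))).sub
    (hs.const_mul (Complex.I * 2 * π))).sub
    (((hid.mul (l1.add m2)).add ((l3.add m4).const_mul ψ')).const_mul (Complex.I / 2))
  refine ⟨?_, fun hlt => ?_⟩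
  · exact main.differentiableAt
  · have hev : ∀ᶠ z in 𝓝 ψ, HQ z ψ' (2 * π * dl z ψ') := by
      have o1 : ∀ᶠ z in 𝓝 ψ, z ∈ Rc ρ τ := (Pool.Agent.W374.HT.Cch.Rc_open _ _).mem_nhds hψ
      have o2 : ∀ᶠ z in 𝓝 ψ, ‖z‖ < 1 / 10 :=
        (continuous_norm.tendsto ψ).eventually (gt_mem_nhds hlt)
      filter_upwards [o1, o2] with z hz1 hz2
      exact hq hK hz1 hψ' hz2.le h1'
    have hI : HasDerivAt (fun z : ℂ => π * Complex.I + Complex.I * z) Complex.I ψ := by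
      simpa using (hid.const_mul Complex.I).const_add (π * Complex.I)
    have g1 := l2.unique ((((hI.add (l3.add m4)).div_const 2).sub l3).congr_of_eventuallyEq
      (hev.mono fun z hz => (lr3 hz).1))
    have g2 := m1.unique (((((hI.sub (l3.add m4)).neg.div_const 2).add l1).sub l3
      ).congr_of_eventuallyEq (hev.mono fun z hz => (lr3 hz).2))
    have g3 := l4.unique ((((l1.add m2).const_add (π * Complex.I + Complex.I * ψ')).div_const 2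
      |>.sub l1).congr_of_eventuallyEq (hev.mono fun z hz => (lr3 (hq_symm hz)).1))
    have g4 := m3.unique (((((l1.add m2).const_sub (π * Complex.I + Complex.I * ψ')).neg.div_const 2
      |>.add l3).sub l1).congr_of_eventuallyEq (hev.mono fun z hz => (lr3 (hq_symm hz)).2))
    refine main.congr_deriv ?_
    refine alg _ _ _ _ _ _ _ _ _ _ _ _ _ _ _ _ _ _ _ (lr3 hh).1 (lr3 hh).2
      (lr3 (hq_symm hh)).1 (lr3 (hq_symm hh)).2 (lr hh).2.1.symm ?_ ?_ ?_ ?_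
    · rw [g1]
    · rw [g2]
    · rw [g3]
    · rw [g4]; ring

omit hK in
lemma Rc_smul {ψ : ℂ} (hψ : ψ ∈ Rc ρ τ) {t : ℝ} (h0 : 0 ≤ t) (h1 : t ≤ 1) :
    (t : ℂ) * ψ ∈ Rc ρ τ := by
  obtain ⟨a, b⟩ := hψ
  constructor
  · rw [Complex.re_ofReal_mul, abs_mul, abs_of_nonneg h0]
    have := abs_nonneg ψ.re
    nlinarith
  · rw [Complex.im_ofReal_mul, abs_mul, abs_of_nonneg h0]
    have := abs_nonneg ψ.im
    nlinarith

lemma seg (hD : S_DER) {ψ ψ' : ℂ} (hψ : ψ ∈ Rc ρ τ) (hψ' : ψ' ∈ Rc ρ τ) (h1 : ‖ψ‖ ≤ 1 / 10)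
    (h1' : ‖ψ'‖ ≤ 1 / 10) : GG s dl ψ ψ' = GG s dl 0 ψ' := by
  have hn (t : ℝ) (h0 : 0 ≤ t) : ‖(t : ℂ) * ψ‖ = t * ‖ψ‖ := by
    rw [norm_mul, Complex.norm_real, Real.norm_of_nonneg h0]
  have hm (t : ℝ) : HasDerivAt (fun t : ℝ => (t : ℂ) * ψ) ψ t := by
    simpa using (Complex.ofRealCLM.hasDerivAt (x := t)).mul_const ψ
  have key := constant_of_has_deriv_right_zero (f := fun t : ℝ => GG s dl ((t : ℂ) * ψ) ψ')
    (a := 0) (b := 1) ?_ ?_ 1 (by simp)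
  · simpa using key
  · intro t ht
    have := (dG hK hD (Rc_smul hψ ht.1 ht.2) hψ' (by
      rw [hn t ht.1]
      have := norm_nonneg ψ
      nlinarith [ht.1, ht.2]) h1').1
    exact (ContinuousAt.comp (g := fun z => GG s dl z ψ') (f := fun t : ℝ => (t : ℂ) * ψ)
      this.continuousAt (hm t).continuousAt).continuousWithinAt
  · intro t ht
    have h3 : ‖(t : ℂ) * ψ‖ < 1 / 10 := by
      rw [hn t ht.1]
      have := norm_nonneg ψ
      nlinarith [ht.1, ht.2]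
    have := (dG hK hD (Rc_smul hψ ht.1 ht.2.le) hψ' h3.le h1').2 h3
    have h4 := HasDerivAt.scomp t this (hm t)
    rw [smul_zero] at h4
    exact h4.hasDerivWithinAt

lemma GG_symm {ψ ψ' : ℂ} (hψ : ψ ∈ Rc ρ τ) (hψ' : ψ' ∈ Rc ρ τ) :
    GG s dl ψ ψ' = GG s dl ψ' ψ := by
  have h1 := Pool.Agent.W374.HT.Cch.Rc_mono hK.hρ.1 hK.hτ.1 hψ
  have h2 := Pool.Agent.W374.HT.Cch.Rc_mono hK.hρ.1 hK.hτ.1 hψ'
  unfold GG
  rw [hK.dsym ψ' h2 ψ h1, hK.sym ψ' h2 ψ h1]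
  ring

lemma GG_zero (hB : S_BASE) : GG s dl 0 0 = -(π : ℂ) ^ 2 / 2 := by
  have h0 : (0 : ℂ) ∈ Rc ρ τ := by
    constructor
    · simpa using hK.hρ.1
    · simpa using hK.hτ.1
  have hh := hq hK h0 h0 (by simp) (by simp)
  have hL : Complex.log (z1 0 (2 * π * dl 0 0)) + Complex.log (1 - z2 0 (2 * π * dl 0 0)) = 0 := by
    rw [(lr hh).2.1]
    unfold Lg
    have := (Pool.Agent.W612.HT.cos_ne (2 * π * dl 0 0) 0 (basic _ _ _ hh).1 (by simp)).2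
    rw [sub_zero, add_zero] at *
    rw [div_self this, Complex.log_one]
  have hu : Complex.exp (Complex.I * (2 * π * dl 0 0)) = Complex.I := by
    rw [hK.dl0]
    have : Complex.I * (2 * (π : ℂ) * (1 / 4)) = π / 2 * Complex.I := by ring
    rw [this, Complex.exp_pi_div_two_mul_I]
  have e1 : z1 0 (2 * π * dl 0 0) = 1 + Complex.I := by
    unfold z1 t1
    rw [hu, mul_zero, Complex.exp_zero]
    have hI : (1 : ℂ) + Complex.I * 1 ≠ 0 := by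
      intro h
      have := congrArg Complex.re h
      simp at this
    rw [div_eq_iff hI]
    linear_combination (-1) * Complex.I_sq
  have e2 : z2 0 (2 * π * dl 0 0) = (1 + Complex.I) / 2 := by
    unfold z2 t2
    rw [hu, mul_zero, Complex.exp_zero]
    have hI : Complex.I * (1 + 1) ≠ 0 := mul_ne_zero Complex.I_ne_zero (by norm_num)
    rw [div_eq_iff hI]
    linear_combination (-1) * Complex.I_sq
  unfold GG
  rw [hL, e1, e2, hK.zero]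
  have hB' : 4 * rog (1 + Complex.I) + 4 * rog ((1 + Complex.I) / 2) =
    4 * π * Pool.Agent.W711.HT.bet * Complex.I - (π : ℂ) ^ 2 / 2 := hB
  push_cast
  linear_combination hB'

/-- the sum of the dilogarithms at a hinge -/
theorem edge (hD : S_DER) (hB : S_BASE) {ψ ψ' : ℂ} (hψ : ψ ∈ Rc ρ τ) (hψ' : ψ' ∈ Rc ρ τ)
    (h1 : ‖ψ‖ ≤ 1 / 10) (h1' : ‖ψ'‖ ≤ 1 / 10) : GG s dl ψ ψ' = -(π : ℂ) ^ 2 / 2 := by
  have h0 : (0 : ℂ) ∈ Rc ρ τ := by
    constructor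
    · simpa using hK.hρ.1
    · simpa using hK.hτ.1
  rw [seg hK hD hψ hψ' h1 h1', GG_symm hK h0 hψ', seg hK hD hψ' h0 h1' (by simp), GG_zero hK hB]

end

end Pool.Agent.TH563.CV
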