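import Pool.Agent.TH563.CV.Dil

/-!
# The reflection formula of Rogers' dilogarithm
-/

set_option autoImplicit false

namespace Pool.Agent.TH563.CV

open Filter Topology MeasureTheory
open scoped Real

namespace RefAux

/-- the power series on the real interval `[0, 1)` -/
theorem li2_real (x : ℝ) (h0 : 0 ≤ x) (h1 : x < 1) :
    li2 (x : ℂ) = ((∑' n : ℕ, x ^ (n + 1) / ((n : ℝ) + 1) ^ 2 : ℝ) : ℂ) := by
  have hpos : ∀ t : ℝ, t ∈ Set.uIcc (0 : ℝ) 1 → 0 < 1 - t * x := by
    intro t ht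
    rw [Set.uIcc_of_le zero_le_one] at ht
    nlinarith [ht.1, ht.2]
  have e1 : (∫ t in (0 : ℝ)..1, Complex.log (1 - t * (x : ℂ)) / t) =
      ((∫ t in (0 : ℝ)..1, Real.log (1 - t * x) / t : ℝ) : ℂ) := by
    rw [← intervalIntegral.integral_ofReal]
    refine intervalIntegral.integral_congr fun t ht => ?_
    have h := hpos t ht
    show Complex.log (1 - (t : ℂ) * (x : ℂ)) / (t : ℂ) = ((Real.log (1 - t * x) / t : ℝ) : ℂ)
    rw [Complex.ofReal_div, Complex.ofReal_log h.le]
    push_cast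
    ring_nf
  have hs : HasSum (fun n : ℕ => ∫ t in (0 : ℝ)..1, t ^ n * (x ^ (n + 1) / ((n : ℝ) + 1)))
      (∫ t in (0 : ℝ)..1, -(Real.log (1 - t * x) / t)) := by
    refine intervalIntegral.hasSum_integral_of_dominated_convergence
      (fun n _ => x ^ (n + 1)) ?_ ?_ ?_ ?_ ?_
    · intro n
      exact (Continuous.aestronglyMeasurable (by fun_prop))
    · intro n
      refine Eventually.of_forall fun t ht => ?_
      rw [Set.uIoc_of_le zero_le_one] at ht
      rw [Real.norm_eq_abs, abs_of_nonneg (by have := ht.1.le; positivity)]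
      have a1 : t ^ n ≤ 1 := pow_le_one₀ ht.1.le ht.2
      have a2 : x ^ (n + 1) / ((n : ℝ) + 1) ≤ x ^ (n + 1) := by
        apply div_le_self (by positivity)
        have : (0 : ℝ) ≤ n := n.cast_nonneg
        linarith
      have a3 : 0 ≤ x ^ (n + 1) / ((n : ℝ) + 1) := by positivity
      calc t ^ n * (x ^ (n + 1) / ((n : ℝ) + 1)) ≤ 1 * (x ^ (n + 1) / ((n : ℝ) + 1)) := by
            gcongr
        _ ≤ x ^ (n + 1) := by rw [one_mul]; exact a2
    · refine Eventually.of_forall fun t _ => ?_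
      have := (summable_geometric_of_lt_one h0 h1).mul_left x
      refine this.congr fun n => ?_
      rw [pow_succ]
      ring
    · exact intervalIntegrable_const
    · refine Eventually.of_forall fun t ht => ?_
      rw [Set.uIoc_of_le zero_le_one] at ht
      have ht0 : t ≠ 0 := ht.1.ne'
      have hlt : |t * x| < 1 := by
        rw [abs_of_nonneg (by have := ht.1.le; positivity)]
        nlinarith [ht.1, ht.2]
      have h := (Real.hasSum_pow_div_log_of_abs_lt_one hlt).div_const t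
      have e : (fun n : ℕ => t ^ n * (x ^ (n + 1) / ((n : ℝ) + 1))) =
          fun n : ℕ => (t * x) ^ (n + 1) / ((n : ℝ) + 1) / t := by
        funext n
        have hn : ((n : ℝ) + 1) ≠ 0 := by positivity
        field_simp
        ring
      rw [e]
      have e2 : -(Real.log (1 - t * x) / t) = -Real.log (1 - t * x) / t := by ring
      rw [e2]
      exact h
  have e2 : ∀ n : ℕ, (∫ t in (0 : ℝ)..1, t ^ n * (x ^ (n + 1) / ((n : ℝ) + 1))) =
      x ^ (n + 1) / ((n : ℝ) + 1) ^ 2 := by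
    intro n
    rw [intervalIntegral.integral_mul_const, integral_pow]
    have hn : ((n : ℝ) + 1) ≠ 0 := by positivity
    simp
    field_simp
  have e3 : (∫ t in (0 : ℝ)..1, -(Real.log (1 - t * x) / t)) =
      ∑' n : ℕ, x ^ (n + 1) / ((n : ℝ) + 1) ^ 2 := by
    rw [← hs.tsum_eq]
    exact tsum_congr e2
  rw [li2, e1, ← e3, intervalIntegral.integral_neg]
  push_cast
  ring

/-- the sum -/
noncomputable def Sx (x : ℝ) : ℝ := ∑' n : ℕ, x ^ (n + 1) / ((n : ℝ) + 1) ^ 2

theorem hbound : HasSum (fun n : ℕ => 1 / ((n : ℝ) + 1) ^ 2) (π ^ 2 / 6) := by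
  have h := hasSum_zeta_two
  have h2 := (hasSum_nat_add_iff' (f := fun n : ℕ => (1 : ℝ) / (n : ℝ) ^ 2) 1).mpr h
  simpa using h2

theorem lim_one : Tendsto Sx (𝓝[<] 1) (𝓝 (π ^ 2 / 6)) := by
  rw [← hbound.tsum_eq]
  refine tendsto_tsum_of_dominated_convergence hbound.summable ?_ ?_
  · intro k
    have : ContinuousAt (fun x : ℝ => x ^ (k + 1) / ((k : ℝ) + 1) ^ 2) 1 := by fun_prop
    have h := this.tendsto.mono_left (nhdsWithin_le_nhds (s := Set.Iio (1 : ℝ)))
    simpa using h
  · have : ∀ᶠ x : ℝ in 𝓝[<] 1, x ∈ Set.Ioo (0 : ℝ) 1 := Ioo_mem_nhdsLT zero_lt_one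
    filter_upwards [this] with x hx k
    rw [Real.norm_eq_abs, abs_of_nonneg (by have := hx.1.le; positivity)]
    gcongr
    exact pow_le_one₀ hx.1.le hx.2.le

theorem lim_zero : Tendsto Sx (𝓝[>] 0) (𝓝 0) := by
  have e : (0 : ℝ) = ∑' _ : ℕ, (0 : ℝ) := by simp
  have h : Tendsto Sx (𝓝[>] 0) (𝓝 (∑' _ : ℕ, (0 : ℝ))) := by
    refine tendsto_tsum_of_dominated_convergence hbound.summable ?_ ?_
    · intro k
      have : ContinuousAt (fun x : ℝ => x ^ (k + 1) / ((k : ℝ) + 1) ^ 2) 0 := by fun_prop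
      have h := this.tendsto.mono_left (nhdsWithin_le_nhds (s := Set.Ioi (0 : ℝ)))
      simpa using h
    · have : ∀ᶠ x : ℝ in 𝓝[>] 0, x ∈ Set.Ioo (0 : ℝ) 1 := Ioo_mem_nhdsGT zero_lt_one
      filter_upwards [this] with x hx k
      rw [Real.norm_eq_abs, abs_of_nonneg (by have := hx.1.le; positivity)]
      gcongr
      exact pow_le_one₀ hx.1.le hx.2.le
  simpa using h

/-- `log x log (1 - x) → 0` -/
theorem lim_log : Tendsto (fun x : ℝ => Real.log x * Real.log (1 - x)) (𝓝[>] 0) (𝓝 0) := by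
  have h1 : Tendsto (fun x : ℝ => Real.log x * x) (𝓝[>] 0) (𝓝 0) := by
    have h := tendsto_log_mul_rpow_nhdsGT_zero zero_lt_one
    simpa using h
  have h2 : HasDerivAt (fun x : ℝ => Real.log (1 - x)) (-1) 0 := by
    have := ((hasDerivAt_id (0 : ℝ)).const_sub 1).log (by norm_num)
    simpa using this
  have h3 : Tendsto (fun x : ℝ => x⁻¹ * Real.log (1 - x)) (𝓝[>] 0) (𝓝 (-1)) := by
    have hsub : Set.Ioi (0 : ℝ) ⊆ {0}ᶜ := fun y hy => (Set.mem_Ioi.mp hy).ne'
    have h := (hasDerivAt_iff_tendsto_slope_zero.mp h2).mono_left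
      (nhdsWithin_mono (0 : ℝ) hsub)
    simpa using h
  have h4 := h1.mul h3
  rw [zero_mul] at h4
  refine h4.congr' ?_
  filter_upwards [self_mem_nhdsWithin] with x hx
  have : x ≠ 0 := (Set.mem_Ioi.mp hx).ne'
  field_simp

/-- the domain -/
def Om : Set ℂ := {z | z ∈ Complex.slitPlane ∧ 1 - z ∈ Complex.slitPlane}

theorem half_mem : (1 / 2 : ℂ) ∈ Om := by
  constructor
  · rw [Complex.mem_slitPlane_iff]; left; norm_num
  · rw [Complex.mem_slitPlane_iff]; left; norm_num

theorem isOpen_Om : IsOpen Om :=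
  Complex.isOpen_slitPlane.inter
    (Complex.isOpen_slitPlane.preimage (by fun_prop : Continuous fun z : ℂ => 1 - z))

theorem star_Om : StarConvex ℝ (1 / 2 : ℂ) Om := by
  have h : StarConvex ℝ (1 / 2 : ℂ) Complex.slitPlane := by
    have := Complex.starConvex_ofReal_slitPlane (x := 1 / 2) (by norm_num)
    simpa using this
  intro z hz a b ha hb hab
  refine ⟨h hz.1 ha hb hab, ?_⟩
  have h2 := h hz.2 ha hb hab
  have e : 1 - (a • (1 / 2 : ℂ) + b • z) = a • (1 / 2 : ℂ) + b • (1 - z) := by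
    have : (a : ℂ) + b = 1 := by exact_mod_cast hab
    simp only [Complex.real_smul]
    linear_combination (-1 : ℂ) * this
  rw [e]
  exact h2

end RefAux

open RefAux in
/-- **Reflection.** -/
theorem ref (h : S_DER) : S_REF := by
  have hd : ∀ z ∈ Om, HasDerivAt (fun z => rog z + rog (1 - z)) 0 z := by
    intro z hz
    have h1 := h z hz.1 hz.2
    have h2 := h (1 - z) hz.2 (by simpa using hz.1)
    have h3 : HasDerivAt (fun z : ℂ => 1 - z) (-1) z := by
      simpa using (hasDerivAt_id z).const_sub 1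
    have h4 := h1.add (h2.comp z h3)
    have e : -(Complex.log (1 - z) / z + Complex.log z / (1 - z)) / 2 +
        -(Complex.log (1 - (1 - z)) / (1 - z) + Complex.log (1 - z) / (1 - (1 - z))) / 2 * -1 = 0 := by
      rw [sub_sub_cancel]
      ring
    rw [e] at h4
    exact h4
  have hc : ∀ z ∈ Om, ∀ w ∈ Om, rog z + rog (1 - z) = rog w + rog (1 - w) := by
    intro z hz w hw
    exact isOpen_Om.is_const_of_deriv_eq_zero
      (star_Om.isPathConnected half_mem).isConnected.isPreconnected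
      (fun u hu => (hd u hu).differentiableAt.differentiableWithinAt)
      (fun u hu => (hd u hu).deriv) hz hw
  -- the values on the real interval
  have hreal : ∀ x : ℝ, x ∈ Set.Ioo (0 : ℝ) 1 → rog (x : ℂ) + rog (1 - (x : ℂ)) =
      ((Sx x + Sx (1 - x) + Real.log x * Real.log (1 - x) - π ^ 2 / 3 : ℝ) : ℂ) := by
    intro x hx
    have e0 : (1 : ℂ) - (x : ℂ) = ((1 - x : ℝ) : ℂ) := by push_cast; ring
    have e1 : (1 : ℂ) - ((1 - x : ℝ) : ℂ) = (x : ℂ) := by push_cast; ring
    rw [rog, rog, e0, e1, li2_real x hx.1.le hx.2,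
      li2_real (1 - x) (by linarith [hx.2]) (by linarith [hx.1]),
      ← Complex.ofReal_log hx.1.le, ← Complex.ofReal_log (by linarith [hx.2])]
    simp only [Sx]
    push_cast
    ring
  have hmem : ∀ x : ℝ, x ∈ Set.Ioo (0 : ℝ) 1 → (x : ℂ) ∈ Om := by
    intro x hx
    constructor
    · rw [Complex.mem_slitPlane_iff]; left; simpa using hx.1
    · rw [Complex.mem_slitPlane_iff]; left; simpa using hx.2
  have hlim : Tendsto (fun x : ℝ => Sx x + Sx (1 - x) + Real.log x * Real.log (1 - x) - π ^ 2 / 3)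
      (𝓝[>] 0) (𝓝 (0 + π ^ 2 / 6 + 0 - π ^ 2 / 3)) := by
    refine ((lim_zero.add (lim_one.comp ?_)).add lim_log).sub_const _
    rw [tendsto_nhdsWithin_iff]
    constructor
    · have : ContinuousAt (fun x : ℝ => 1 - x) 0 := by fun_prop
      have h := this.tendsto.mono_left (nhdsWithin_le_nhds (s := Set.Ioi (0 : ℝ)))
      simpa using h
    · filter_upwards [self_mem_nhdsWithin] with x hx
      have : (0 : ℝ) < x := hx
      simp only [Set.mem_Iio]
      linarith
  intro z hz1 hz2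
  have hz : z ∈ Om := ⟨hz1, hz2⟩
  have hconst : Tendsto (fun _ : ℝ => rog z + rog (1 - z)) (𝓝[>] (0 : ℝ))
      (𝓝 (((0 + π ^ 2 / 6 + 0 - π ^ 2 / 3 : ℝ)) : ℂ)) := by
    have hl := (Complex.continuous_ofReal.tendsto _).comp hlim
    refine hl.congr' ?_
    have : ∀ᶠ x : ℝ in 𝓝[>] 0, x ∈ Set.Ioo (0 : ℝ) 1 := Ioo_mem_nhdsGT zero_lt_one
    filter_upwards [this] with x hx
    rw [Function.comp_apply, ← hreal x hx]
    exact hc _ (hmem x hx) _ hz
  have := tendsto_nhds_unique tendsto_const_nhds hconst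
  rw [this]
  push_cast
  ring

end Pool.Agent.TH563.CV
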