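import Pool.Agent.TH563.CV.Dil

/-!
# Rotation and inversion for Rogers' dilogarithm (job 4092, helper858)
-/

set_option autoImplicit false

namespace Pool.Agent.TH563.CV

open Filter Topology
open scoped Real

namespace SigAux

lemma slit_of_im {z : ℂ} (h : z.im ≠ 0) : z ∈ Complex.slitPlane := by
  rw [Complex.mem_slitPlane_iff]
  exact Or.inr h

lemma arg_ne_pi_of_im {z : ℂ} (h : z.im ≠ 0) : z.arg ≠ π :=
  Complex.slitPlane_arg_ne_pi (slit_of_im h)

lemma ne_zero_of_im {z : ℂ} (h : z.im ≠ 0) : z ≠ 0 := fun h0 => h (by rw [h0]; rfl)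

lemma im_one_sub (z : ℂ) : (1 - z).im = -z.im := by simp

/-- `log (1 / (1 - z)) = -log (1 - z)` -/
lemma log_w {z : ℂ} (h : 0 < z.im) : Complex.log (1 / (1 - z)) = -Complex.log (1 - z) := by
  rw [one_div, Complex.log_inv]
  apply arg_ne_pi_of_im
  rw [im_one_sub]
  linarith

/-- `log (1 - 1 / (1 - z)) = log z - log (1 - z) - π i` -/
lemma log_one_sub_w {z : ℂ} (h : 0 < z.im) :
    Complex.log (1 - 1 / (1 - z)) = Complex.log z - Complex.log (1 - z) - π * Complex.I := by
  have him : (1 - z).im < 0 := by rw [im_one_sub]; linarith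
  have h1z : (1 - z) ≠ 0 := ne_zero_of_im him.ne
  have hz : z ≠ 0 := ne_zero_of_im h.ne'
  -- the right-hand side is in the strip of the principal branch
  have e1 : Complex.exp (Complex.log z - Complex.log (1 - z) - π * Complex.I) = 1 - 1 / (1 - z) := by
    rw [Complex.exp_sub, Complex.exp_sub, Complex.exp_log hz, Complex.exp_log h1z, Complex.exp_pi_mul_I]
    field_simp
    ring
  have a1 : 0 ≤ z.arg := Complex.arg_nonneg_iff.mpr h.le
  have a2 : z.arg ≤ π := Complex.arg_le_pi z
  have a3 : (1 - z).arg < 0 := by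
    rw [Complex.arg_neg_iff]
    exact him
  have a4 : -π < (1 - z).arg := Complex.neg_pi_lt_arg _
  -- `arg z - arg (1 - z) - π ≤ 0`: the imaginary part of `1 - 1 / (1 - z)` is negative
  have e2 : (Complex.log z - Complex.log (1 - z) - π * Complex.I).im = z.arg - (1 - z).arg - π := by
    simp [Complex.log_im]
  have e3 := Complex.log_exp (x := Complex.log z - Complex.log (1 - z) - π * Complex.I)
    (by rw [e2]; linarith) (by rw [e2]; linarith)
  rw [← e3, e1]

lemma im_w {z : ℂ} (h : 0 < z.im) : 0 < (1 / (1 - z)).im := by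
  have him : (1 - z).im < 0 := by rw [im_one_sub]; linarith
  have h1z : (1 - z) ≠ 0 := ne_zero_of_im him.ne
  rw [one_div, Complex.inv_im]
  apply div_pos
  · linarith
  · exact Complex.normSq_pos.mpr h1z

/-- the derivative of the difference vanishes -/
lemma deriv_zero (hD : S_DER) {z : ℂ} (h : 0 < z.im) :
    HasDerivAt (fun z => rog z - rog (1 / (1 - z)) - π * Complex.I / 2 * Complex.log (1 - z)) 0 z := by
  have him : (1 - z).im < 0 := by rw [im_one_sub]; linarith
  have h1z : (1 - z) ≠ 0 := ne_zero_of_im him.ne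
  have hz : z ≠ 0 := ne_zero_of_im h.ne'
  have hw := im_w h
  have d1 := hD z (slit_of_im h.ne') (slit_of_im him.ne)
  have d2 := hD (1 / (1 - z)) (slit_of_im hw.ne') (slit_of_im (by rw [im_one_sub]; linarith))
  have d3 : HasDerivAt (fun z : ℂ => 1 - z) (-1) z := by
    simpa using (hasDerivAt_id z).const_sub 1
  have d4 : HasDerivAt (fun z : ℂ => 1 / (1 - z)) (1 / (1 - z) ^ 2) z := by
    have h0 := d3.inv h1z
    rw [neg_neg] at h0
    refine h0.congr_of_eventuallyEq (Eventually.of_forall fun x => ?_)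
    simp [one_div]
  have d5 := d2.comp z d4
  have d6 : HasDerivAt (fun z : ℂ => Complex.log (1 - z)) (-1 / (1 - z)) z :=
    d3.clog (slit_of_im him.ne)
  have d7 := (d1.sub d5).sub (d6.const_mul (π * Complex.I / 2))
  have h2 : (1 : ℂ) - 1 / (1 - z) = -z / (1 - z) := by
    field_simp
    ring
  have e0 : -(Complex.log (1 - z) / z + Complex.log z / (1 - z)) / 2 -
        -(Complex.log (1 - 1 / (1 - z)) / (1 / (1 - z)) + Complex.log (1 / (1 - z)) / (1 - 1 / (1 - z))) / 2 *
          (1 / (1 - z) ^ 2) - π * Complex.I / 2 * (-1 / (1 - z)) = 0 := by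
    rw [log_w h, log_one_sub_w h, h2]
    field_simp
    ring
  rw [e0] at d7
  exact d7

lemma base : 1 - Complex.exp (π * Complex.I / 3) = Complex.exp (-(π * Complex.I / 3)) := by
  have h1 : Complex.cos ((π / 3 : ℝ) : ℂ) = ((1 / 2 : ℝ) : ℂ) := by
    rw [← Complex.ofReal_cos, Real.cos_pi_div_three]
  rw [Complex.cos] at h1
  have h2 : ((π / 3 : ℝ) : ℂ) * Complex.I = π * Complex.I / 3 := by push_cast; ring
  have h3 : -((π / 3 : ℝ) : ℂ) * Complex.I = -(π * Complex.I / 3) := by push_cast; ring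
  rw [h2, h3] at h1
  push_cast at h1
  have h4 : Complex.exp (π * Complex.I / 3) + Complex.exp (-(π * Complex.I / 3)) = 1 := by
    linear_combination 2 * h1
  linear_combination -h4

end SigAux

open SigAux

theorem sig (h : S_DER) : S_SIG := by
  intro z hz
  obtain ⟨F, hF⟩ : ∃ F : ℂ → ℂ, F = fun z => rog z - rog (1 / (1 - z)) - π * Complex.I / 2 * Complex.log (1 - z) :=
    ⟨_, rfl⟩
  have hopen : IsOpen {z : ℂ | 0 < z.im} := isOpen_lt continuous_const Complex.continuous_im
  have hconv : Convex ℝ {z : ℂ | 0 < z.im} := convex_halfSpace_im_gt 0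
  have hd : ∀ z ∈ {z : ℂ | 0 < z.im}, HasDerivAt F 0 z := fun z hz => by
    rw [hF]
    exact deriv_zero h hz
  have hconst : ∀ x ∈ {z : ℂ | 0 < z.im}, ∀ y ∈ {z : ℂ | 0 < z.im}, F x = F y := fun x hx y hy =>
    hopen.is_const_of_deriv_eq_zero hconv.isPreconnected
      (fun u hu => (hd u hu).differentiableAt.differentiableWithinAt) (fun u hu => (hd u hu).deriv) hx hy
  have hπ := Real.pi_pos
  have him : 0 < (Complex.exp (π * Complex.I / 3)).im := by
    have h2 : (π * Complex.I / 3 : ℂ) = ((π / 3 : ℝ) : ℂ) * Complex.I := by push_cast; ring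
    rw [h2, Complex.exp_ofReal_mul_I_im]
    apply Real.sin_pos_of_pos_of_lt_pi
    · positivity
    · linarith
  have h1 := hconst z hz _ him
  have h2 : F (Complex.exp (π * Complex.I / 3)) = -(π : ℂ) ^ 2 / 6 := by
    rw [hF]
    simp only
    rw [base, one_div, ← Complex.exp_neg, neg_neg, sub_self, Complex.log_exp]
    · ring_nf
      rw [Complex.I_sq]
      ring
    · simp
      linarith
    · simp
      linarith
  rw [h2, hF] at h1
  simp only at h1
  linear_combination h1

namespace SigAux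

lemma li2_conj {u : ℂ} (hu : u.im ≠ 0) : li2 ((starRingEnd ℂ) u) = (starRingEnd ℂ) (li2 u) := by
  unfold li2
  rw [map_neg, intervalIntegral.integral_of_le zero_le_one, intervalIntegral.integral_of_le zero_le_one,
    ← integral_conj]
  congr 1
  refine MeasureTheory.setIntegral_congr_fun measurableSet_Ioc fun t ht => ?_
  have h1 : (1 - (t : ℂ) * u).im ≠ 0 := by
    have : (1 - (t : ℂ) * u).im = -(t * u.im) := by simp
    rw [this]
    exact neg_ne_zero.mpr (mul_ne_zero ht.1.ne' hu)
  have h2 : 1 - (t : ℂ) * (starRingEnd ℂ) u = (starRingEnd ℂ) (1 - (t : ℂ) * u) := by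
    simp
  rw [h2, Complex.log_conj _ (arg_ne_pi_of_im h1), map_div₀, Complex.conj_ofReal]

lemma rog_conj {u : ℂ} (hu : u.im ≠ 0) : rog ((starRingEnd ℂ) u) = (starRingEnd ℂ) (rog u) := by
  unfold rog
  have h1 : (1 - u).im ≠ 0 := by rw [im_one_sub]; exact neg_ne_zero.mpr hu
  have h2 : 1 - (starRingEnd ℂ) u = (starRingEnd ℂ) (1 - u) := by simp
  rw [li2_conj hu, h2, Complex.log_conj _ (arg_ne_pi_of_im hu), Complex.log_conj _ (arg_ne_pi_of_im h1)]
  simp only [map_sub, map_add, map_mul, map_div₀, map_pow, Complex.conj_ofReal, map_ofNat]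

end SigAux

theorem inv (h1 : S_REF) (h2 : S_SIG) : S_INV := by
  intro z hz
  have hz0 : z ≠ 0 := ne_zero_of_im hz.ne'
  have him : (1 - z).im < 0 := by rw [im_one_sub]; linarith
  have hinv : (1 / z).im ≠ 0 := by
    rw [one_div, Complex.inv_im]
    have : 0 < Complex.normSq z := Complex.normSq_pos.mpr hz0
    exact (div_neg_of_neg_of_pos (by linarith) this).ne
  have e1 := h2 ((starRingEnd ℂ) (1 - z)) (by rw [Complex.conj_im]; linarith)
  have e2 : 1 - (starRingEnd ℂ) (1 - z) = (starRingEnd ℂ) z := by simp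
  have e3 : (1 : ℂ) / (starRingEnd ℂ) z = (starRingEnd ℂ) (1 / z) := by simp
  rw [e2, e3, rog_conj him.ne, rog_conj hinv, Complex.log_conj _ (arg_ne_pi_of_im hz.ne')] at e1
  have e4 := congrArg (starRingEnd ℂ) e1
  simp only [map_sub, map_add, map_mul, map_div₀, map_neg, map_pow, Complex.conj_conj, Complex.conj_ofReal,
    Complex.conj_I, map_ofNat] at e4
  have e5 := h1 z (slit_of_im hz.ne') (slit_of_im him.ne)
  have e6 : (starRingEnd ℂ) (1 / z) = 1 / (starRingEnd ℂ) z := e3.symm
  linear_combination e5 - e4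

end Pool.Agent.TH563.CV
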