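import Pool.Agent.TH563.UV.Arb
import Pool.Agent.TH563.CV.Dil

/-!
# The complex volume of the complement of an arborescent link: definitions

Neumann's formula (W. Neumann, Extended Bloch group and the Cheeger-Chern-Simons class) for the
complex volume: let `M` be a hyperbolic manifold, decomposed into ideal tetrahedra (some of whose
ideal vertices may be filled, i.e. correspond to geodesics of `M`), whose ideal vertices are ordered
compatibly, with a flattening.  Then
`i (vol M + i CS M) = ∑ ± L(z; p, q)` modulo `π²`, where the sum runs over the tetrahedra and `L`
is the extended Rogers dilogarithm, `extRogers`.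

The decomposition is the one of `Pool.Agent.TH563.UV.Arb` (`The hyperbolic volume`): two ideal
octahedra for every edge of the tree, one in front (with the diagonal `k_1 k_3`), one at the back
(with the diagonal `k_2 k_4`), eight ideal tetrahedra.

*Shapes.*  The complete structure is the angle structure of maximal volume; a tetrahedron with the
dihedral angles `a, b, c` has the shape parameters `shape a b c`, `shape b c a`, `shape c a b` at
the edges with these angles.

*Labels.*  A flattening assigns to the edges of each tetrahedron the logarithmic parameters
`log z - π i A`, where `z` is the shape parameter and `A` an integer, the label (opposite edges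
have the same label); the sum of the three logarithmic parameters has to be `0`, that is the sum of
the three labels is `1`.  The sum of the logarithmic parameters around every edge of the
decomposition has to be `0`, that is the sum of the labels is `2` (that of the angles is `2 π`).
The logarithmic parameter of a curve on a cusp, or of the curve along which a cusp is filled, has to
be `0`.  `IsFlat` contains these conditions for the cusps of the circles.  At the cusps of the
components of the arborescent link itself they need not be imposed: the label of the path around a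
strand `k_i` is the sum of the labels at `p k_i` and at an edge in the disk, minus `2`, that is `0`
by the conditions `End`; the label of a longitude is even (the labels of the paths across are even
at every edge, as the tree has leaves, and every component has an even number of strands `k_1`,
`k_3`), and a flattening in the strict sense is obtained by adding multiples of the vectors which
Neumann and Zagier associate with the meridians, which changes the sum of the dilogarithms by
multiples of `π²` only.

*Order.*  The ideal vertices `p`, `p'` on the circles come first, followed by the vertices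
`k_1, …, k_4` of the octahedron, in the order of four numbers `n_1, …, n_4`.
-/

set_option autoImplicit false

namespace Pool.Agent.TH563.CV

open Pool.Agent.TH563.UV.Arb
open scoped Real

/-- The extended Rogers dilogarithm of Neumann:
`L(z; p, q) = Li₂(z) + log z log(1 - z) / 2 - π² / 6 + (π i / 2) (q log z + p log(1 - z))`,
principal branches (`rog` is the part without `p`, `q`, and `li2` the dilogarithm, both in
`Pool.Agent.TH563.CV.Dil`). -/
noncomputable def extRogers (z : ℂ) (p q : ℤ) : ℂ :=
  rog z + π * Complex.I / 2 * (q * Complex.log z + p * Complex.log (1 - z))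

/-- The shape parameter of an ideal tetrahedron with the dihedral angles `a, b, c`, at the edge with
the angle `a` (`|z| = sin b / sin c`, `arg z = a`; then `1 / (1 - z)` and `1 - 1 / z` are the
parameters at the edges with the angles `b` and `c`). -/
noncomputable def shape (a b c : ℝ) : ℂ :=
  ((Real.sin b / Real.sin c : ℝ) : ℂ) * Complex.exp (Complex.I * a)

/-- The term of a tetrahedron with the vertices `v_0 < v_1 < v_2 < v_3`, if this order is that of
its orientation: `z` is the shape parameter at the edge `v_0 v_1`, and `A`, `B` are the labels at
the edges `v_0 v_1`, `v_1 v_2` (logarithmic parameters `log z - π i A`, `- log (1 - z) - π i B`). -/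
noncomputable def pos (z : ℂ) (A B : ℤ) : ℂ := extRogers z (-A) (-B)

/-- The term of a tetrahedron with the vertices `v_0 < v_1 < v_2 < v_3`, if this order is opposite
to its orientation: `z` is the shape parameter at the edge `v_0 v_1` (so that the cross ratio of
`v_0, v_1, v_2, v_3` is `1 / z`), and `A`, `C` are the labels at `v_0 v_1`, `v_1 v_2` (logarithmic
parameters of the ordered tetrahedron: `log (1 / z) + π i A`, `- log (1 - 1 / z) + π i C`). -/
noncomputable def neg (z : ℂ) (A C : ℤ) : ℂ := -extRogers (1 / z) A C

/-- The term of a tetrahedron with the vertices `p, x, y, w` (in this orientation), of which `p` is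
the first one; `a, b, c` are the angles and `A, B, C` the labels at the edges `p x`, `p y`, `p w`
(and at the opposite edges `y w`, `w x`, `x y`), and `x, y, w` are numbers which give the order of
the vertices. -/
noncomputable def tet (a b c : ℝ) (A B C : ℤ) (x y w : ℤ) : ℂ :=
  if x < y ∧ y < w then neg (shape a b c) A C
  else if x < w ∧ w < y then pos (shape a b c) A B
  else if y < w ∧ w < x then neg (shape b c a) B A
  else if y < x ∧ x < w then pos (shape b c a) B C
  else if w < x ∧ x < y then neg (shape c a b) C B
  else pos (shape c a b) C A

/-- The labels of two tetrahedra, at the same edges as the angles `Angles`. -/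
structure Labels where
  a : ℤ
  b : ℤ
  c : ℤ
  a' : ℤ
  b' : ℤ
  c' : ℤ

/-- The two tetrahedra `p k_1 k_2 k_3`, `p k_1 k_3 k_4` of a quadrilateral `k_1 k_2 k_3 k_4` seen
from `p`, with the angles `f` and the labels `F`; the numbers `n_i` give the order of the `k_i`. -/
noncomputable def two (f : Angles) (F : Labels) (n1 n2 n3 n4 : ℤ) : ℂ :=
  tet f.a f.b f.c F.a F.b F.c n1 n2 n3 + tet f.a' f.b' f.c' F.a' F.b' F.c' n1 n3 n4

/-- The data of an edge `{x, y}` of the tree: the angles (`f` at `p`, `g` at `p'`), the labels (`F`
at `p` and `G` at `p'` of the octahedron in front, `B` at `p` and `H` at `p'` of the one at the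
back), and the order of the vertices `k_1, …, k_4`.  From `p` the octahedron in front is seen as
`k_1 k_2 k_3 k_4`, the one at the back as `k_2 k_1 k_4 k_3`; from `p'` they are seen as
`k_3 k_2 k_1 k_4` and `k_2 k_3 k_4 k_1`. -/
structure Piece where
  f : Angles
  g : Angles
  F : Labels
  G : Labels
  B : Labels
  H : Labels
  n1 : ℤ
  n2 : ℤ
  n3 : ℤ
  n4 : ℤ

namespace Piece

/-- The same data, seen from the other end of the edge (`p` and `p'` are exchanged, and `k_1`,
`k_3`). -/
def swap (x : Piece) : Piece := ⟨x.g, x.f, x.G, x.F, x.H, x.B, x.n3, x.n2, x.n1, x.n4⟩

/-- The contribution of the eight tetrahedra of an edge. -/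
noncomputable def term (x : Piece) : ℂ :=
  two x.f x.F x.n1 x.n2 x.n3 x.n4 + two x.g x.G x.n3 x.n2 x.n1 x.n4 +
    (two x.f x.B x.n2 x.n1 x.n4 x.n3 + two x.g x.H x.n2 x.n3 x.n4 x.n1)

/-- The labels of each tetrahedron have the sum `1`, those around the diagonals `k_1 k_3` (in front)
and `k_2 k_4` (at the back) have the sum `2`, and the vertices `k_1, …, k_4` are ordered. -/
def Inner (x : Piece) : Prop :=
  (x.F.a + x.F.b + x.F.c = 1 ∧ x.F.a' + x.F.b' + x.F.c' = 1) ∧
  (x.G.a + x.G.b + x.G.c = 1 ∧ x.G.a' + x.G.b' + x.G.c' = 1) ∧
  (x.B.a + x.B.b + x.B.c = 1 ∧ x.B.a' + x.B.b' + x.B.c' = 1) ∧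
  (x.H.a + x.H.b + x.H.c = 1 ∧ x.H.a' + x.H.b' + x.H.c' = 1) ∧
  x.F.b + x.F.c' + (x.G.b + x.G.c') = 2 ∧ x.B.b + x.B.c' + (x.H.b + x.H.c') = 2 ∧
  x.n1 ≠ x.n2 ∧ x.n1 ≠ x.n3 ∧ x.n1 ≠ x.n4 ∧ x.n2 ≠ x.n3 ∧ x.n2 ≠ x.n4 ∧ x.n3 ≠ x.n4

/-- The conditions at the end `p`.  The sum of the labels (of the octahedra in front and at the
back) is `1` at each of the edges `p k_1, …, p k_4`, and at each of the edges `k_1 k_2`, `k_3 k_4`
in the disks of the circle; every such edge belongs to the pieces of two neighbouring edges of the
tree, so that the sum around it is `2`.  And the logarithmic parameter of a half twist around the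
circle has the label `0` (in front and at the back). -/
def End (x : Piece) : Prop :=
  x.F.a + x.F.a' + x.B.b = 1 ∧ x.F.b + (x.B.a + x.B.a') = 1 ∧
  x.F.c + x.F.b' + x.B.c' = 1 ∧ x.F.c' + (x.B.c + x.B.b') = 1 ∧
  x.F.c + x.G.a + (x.B.c + x.H.b') = 1 ∧ x.F.a' + x.G.b' + (x.B.a' + x.H.a) = 1 ∧
  x.F.a + x.F.a' + x.F.b - 1 = 0 ∧ x.B.a + x.B.a' + x.B.b - 1 = 0

end Piece

/-- The conditions at a vertex of weight `w` with the edges `l` in cyclic order: those at the ends
of the edges; the label of the path across all edges is `2` if the circle is filled (like the
rotation angle `2 π + w · (half twist)` in `VertexCondition`), and `0` if the circle belongs to the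
link (`b = true`); and the orders of the vertices agree on the edges of the decomposition in the
disks (`k_1 k_2` and `k_4 k_3` for neighbouring edges of the tree; for the last and the first edge
they are glued with `w` half twists). -/
def VertexFlat (b : Bool) (w : ℤ) (l : List Piece) : Prop :=
  (∀ x ∈ l, x.End) ∧
    (l.map fun x => x.F.a + x.F.a' + x.F.c' - 1).sum = (if b then 0 else 2) ∧
    (l.map fun x => x.B.a + x.B.a' + x.B.c' - 1).sum = (if b then 0 else 2) ∧
    l.IsChain (fun x y => x.n1 < x.n2 ↔ y.n4 < y.n3) ∧
    ∀ x ∈ l.getLast?, ∀ y ∈ l.head?, ((x.n1 < x.n2 ↔ y.n4 < y.n3) ↔ Even w)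

/-- Trees with the data of a flattening at every edge. -/
inductive FlatTree
  | single (b : Bool) (a : ℤ)
  | join (t c : FlatTree) (x : Piece)

namespace FlatTree

/-- The underlying tree with angles. -/
def angles : FlatTree → AngleTree
  | single b a => .single b a
  | join t c x => .join t.angles c.angles x.f x.g

/-- The edges from the root to its children. -/
def edges : FlatTree → List Piece
  | single _ _ => []
  | join t _ x => t.edges ++ [x]

/-- The conditions inside the octahedra, and at the vertices other than the root. -/
def Below : FlatTree → Prop
  | single _ _ => True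
  | join t c x => t.Below ∧ c.Below ∧ x.Inner ∧
      VertexFlat c.angles.circle c.angles.weight (x.swap :: c.edges)

/-- The flattenings. -/
def IsFlat (t : FlatTree) : Prop :=
  t.Below ∧ VertexFlat t.angles.circle t.angles.weight t.edges

/-- The sum of the extended Rogers dilogarithms over the eight tetrahedra of every edge. -/
noncomputable def complexVolume : FlatTree → ℂ
  | single _ _ => 0
  | join t c x => t.complexVolume + c.complexVolume + x.term

end FlatTree

end Pool.Agent.TH563.CV
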