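import Pool.Agent.TH563.CV.Path
import Pool.Agent.TH822.J362

/-!
# The sum of the dilogarithms at a hinge between a hub and another vertex
-/

set_option autoImplicit false

namespace Pool.Agent.TH563.CV

open Pool.Agent.W711.HT hiding XX gd
open Pool.Agent.W864.AR (t1 t2)
open Pool.Agent.TH563.Z
open Pool.Agent.TH609.UV (HQ)
open Pool.Agent.TH609.Z (HG SG ex hg_symm hg_of_hq ne_X1 ne_G1 ne_XG near_base HB)
open Filter Topology Set
open scoped Real

lemma dz_zero : Z.dz 0 = 1 / 4 := by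
  unfold Z.dz
  rw [Real.cosh_zero]
  norm_num
  have := Real.pi_pos
  field_simp
  norm_num

lemma AA_zero : AA 0 = 2 * bet := by
  unfold AA
  simp

lemma hg_zero : HG 0 (((0 : ℝ) : ℂ) * Complex.I) (2 * π * ((Z.dz 0 : ℝ) : ℂ)) := by
  rw [dz_zero]
  apply hg_of_hq
  have e : 2 * (π : ℂ) * ((1 / 4 : ℝ) : ℂ) = π / 2 := by
    push_cast
    ring
  rw [e]
  refine ⟨by simp, by simp, ?_, ?_⟩
  · rw [sub_self, norm_zero]
    positivity
  · rw [Complex.cos_pi_div_two]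
    simp

lemma gp_zero (hB : S_BASE) : GP 0 (((0 : ℝ) : ℂ) * Complex.I) (2 * π * ((Z.dz 0 : ℝ) : ℂ))
    ((AA 0 : ℝ) : ℂ) = -(π : ℂ) ^ 2 / 2 := by
  have hL : Complex.log (z1 0 (2 * π * ((Z.dz 0 : ℝ) : ℂ))) +
      Complex.log (1 - z2 0 (2 * π * ((Z.dz 0 : ℝ) : ℂ))) = 0 := by
    rw [(lrG hg_zero).2.1]
    unfold Lg
    have e : 2 * (π : ℂ) * ((Z.dz 0 : ℝ) : ℂ) = ((π / 2 : ℝ) : ℂ) := by
      rw [dz_zero]
      push_cast
      ring
    rw [e, sub_zero, add_zero]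
    have h2 : Complex.cos (((π / 2 : ℝ) : ℂ) / 2) ≠ 0 := by
      have : ((π / 2 : ℝ) : ℂ) / 2 = ((π / 4 : ℝ) : ℂ) := by
        push_cast
        ring
      rw [this, ← Complex.ofReal_cos]
      have : Real.cos (π / 4) ≠ 0 := by
        rw [Real.cos_pi_div_four]
        positivity
      exact_mod_cast this
    rw [div_self h2, Complex.log_one]
  have hu : Complex.exp (Complex.I * (2 * π * ((Z.dz 0 : ℝ) : ℂ))) = Complex.I := by
    rw [dz_zero]
    have : Complex.I * (2 * (π : ℂ) * ((1 / 4 : ℝ) : ℂ)) = π / 2 * Complex.I := by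
      push_cast
      ring
    rw [this, Complex.exp_pi_div_two_mul_I]
  have e1 : z1 0 (2 * π * ((Z.dz 0 : ℝ) : ℂ)) = 1 + Complex.I := by
    unfold z1 t1
    rw [hu, mul_zero, Complex.exp_zero]
    have hI : (1 : ℂ) + Complex.I * 1 ≠ 0 := by
      intro h
      have := congrArg Complex.re h
      simp at this
    rw [div_eq_iff hI]
    linear_combination (-1) * Complex.I_sq
  have e2 : z2 0 (2 * π * ((Z.dz 0 : ℝ) : ℂ)) = (1 + Complex.I) / 2 := by
    unfold z2 t2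
    rw [hu, mul_zero, Complex.exp_zero]
    have hI : Complex.I * (1 + 1) ≠ 0 := mul_ne_zero Complex.I_ne_zero (by norm_num)
    rw [div_eq_iff hI]
    linear_combination (-1) * Complex.I_sq
  unfold GP
  rw [Complex.ofReal_zero, zero_mul, hL, e1, e2, AA_zero]
  have hB' : 4 * rog (1 + Complex.I) + 4 * rog ((1 + Complex.I) / 2) =
    4 * π * Pool.Agent.W711.HT.bet * Complex.I - (π : ℂ) ^ 2 / 2 := hB
  push_cast
  linear_combination hB'

lemma adm_mono {η y : ℝ} (h : Adm η) (hy : 0 < y) (hyη : y ≤ η) : Adm y := by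
  refine ⟨hy, le_trans ?_ h.2⟩
  rw [Real.cosh_le_cosh, abs_of_pos (by positivity), abs_of_pos (by linarith [h.1])]
  linarith

lemma base_hg {y : ℝ} (h : Adm y) : HG 0 ((y : ℂ) * Complex.I) (2 * π * ((Z.dz y : ℝ) : ℂ)) := by
  obtain ⟨g, hg, hb⟩ := near_base h
  obtain ⟨r, c, C, s, dl, hS⟩ := Pool.Agent.TH822.J362.sdz y h
  obtain ⟨-, -, -, h4⟩ := hb 0 (y * Complex.I) (Z.dz y) (by simpa using hg.le) (by simpa using hg.le)
    (by simpa using hg.le)
  apply h4
  have h0 : (0 : ℂ) ∈ Rc r r := ⟨by simpa using hS.hr.1, by simpa using hS.hr.1⟩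
  have h1 : (y : ℂ) * Complex.I ∈ Rz y r r := ⟨by simpa using hS.hr.1, by simpa using hS.hr.1⟩
  have := hS.dcos 0 h0 _ h1
  rwa [hS.dbase] at this

lemma base_lg {y : ℝ} (h : Adm y) :
    Lg (2 * π * ((Z.dz y : ℝ) : ℂ)) ((y : ℂ) * Complex.I) = 2 * (gd (y / 2) : ℂ) * Complex.I := by
  obtain ⟨r, c, C, s, dl, hS⟩ := Pool.Agent.TH822.J362.sdz y h
  exact hS.Lbase

lemma base_lg' : Lg (2 * π * ((Z.dz 0 : ℝ) : ℂ)) (((0 : ℝ) : ℂ) * Complex.I) =
    2 * (gd (0 / 2) : ℂ) * Complex.I := by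
  unfold gd Lg
  have e : 2 * (π : ℂ) * ((Z.dz 0 : ℝ) : ℂ) = ((π / 2 : ℝ) : ℂ) := by
    rw [dz_zero]
    push_cast
    ring
  rw [e, Complex.ofReal_zero, zero_mul, sub_zero, add_zero]
  have h2 : Complex.cos (((π / 2 : ℝ) : ℂ) / 2) ≠ 0 := by
    have : ((π / 2 : ℝ) : ℂ) / 2 = ((π / 4 : ℝ) : ℂ) := by
      push_cast
      ring
    rw [this, ← Complex.ofReal_cos]
    have : Real.cos (π / 4) ≠ 0 := by
      rw [Real.cos_pi_div_four]
      positivity
    exact_mod_cast this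
  rw [div_self h2, Complex.log_one]
  simp

lemma AA_deriv (y : ℝ) : HasDerivAt AA (gd (y / 2) / π) y := by
  have hc : Continuous gd := by
    unfold gd
    exact Real.continuous_arctan.comp Real.continuous_sinh
  have h1 : HasDerivAt (fun x => ∫ t in (0:ℝ)..x, gd t) (gd (y / 2)) (y / 2) :=
    intervalIntegral.integral_hasDerivAt_right (hc.intervalIntegrable _ _)
      (hc.stronglyMeasurableAtFilter _ _) hc.continuousAt
  have h2 : HasDerivAt (fun x : ℝ => x / 2) (1 / 2) y := (hasDerivAt_id y).div_const 2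
  have h3 := ((h1.comp y h2).const_mul (2 / π)).const_add (2 * bet)
  refine h3.congr_deriv ?_
  ring

lemma dz_diff (y : ℝ) : DifferentiableAt ℝ Z.dz y := by
  have hc := Real.one_le_cosh y
  have h1 : DifferentiableAt ℝ (fun y => (1 - Real.cosh y) / (3 + Real.cosh y)) y :=
    (Real.differentiable_cosh.differentiableAt.const_sub 1).fun_div
      (Real.differentiable_cosh.differentiableAt.const_add 3) (by positivity)
  have hne : (3 + Real.cosh y) ≠ 0 := by positivity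
  have h2 : (1 - Real.cosh y) / (3 + Real.cosh y) ≠ -1 := by
    intro h
    rw [div_eq_iff hne] at h
    linarith
  have h3 : (1 - Real.cosh y) / (3 + Real.cosh y) ≠ 1 := by
    intro h
    rw [div_eq_iff hne] at h
    linarith
  have h4 : DifferentiableAt ℝ Real.arccos ((1 - Real.cosh y) / (3 + Real.cosh y)) :=
    Real.differentiableAt_arccos.2 ⟨h2, h3⟩
  exact (DifferentiableAt.comp (g := Real.arccos) y h4 h1).div_const (2 * π)

theorem gp_base (hD : S_DER) (hB : S_BASE) {η : ℝ} (hA : Adm η) :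
    GP 0 ((η : ℂ) * Complex.I) (2 * π * ((Z.dz η : ℝ) : ℂ)) ((AA η : ℝ) : ℂ) =
      -(π : ℂ) ^ 2 / 2 := by
  rw [← gp_zero hB]
  refine path hD hA.1 (p := fun _ => 0) (q := fun y => (y : ℂ) * Complex.I)
    (U := fun y => 2 * π * ((Z.dz y : ℝ) : ℂ)) (S := fun y => ((AA y : ℝ) : ℂ))
    (p' := fun _ => 0) (q' := fun _ => Complex.I) ?_ ?_ ?_ ?_ ?_
  · intro y hy
    rcases hy.1.eq_or_lt with h | h
    · rw [← h]
      exact hg_zero
    · exact base_hg (adm_mono hA h hy.2)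
  · intro y _
    exact hasDerivWithinAt_const _ _ _
  · intro y _
    simpa using ((Complex.ofRealCLM.hasDerivAt (x := y)).mul_const Complex.I).hasDerivWithinAt
  · intro y _
    exact ((dz_diff y).hasDerivAt.ofReal_comp.const_mul
      (2 * (π : ℂ))).differentiableAt.differentiableWithinAt
  · intro y hy
    have h1 := (AA_deriv y).ofReal_comp.hasDerivWithinAt (s := Icc 0 η)
    refine h1.congr_deriv ?_
    have h2 : Lg (2 * π * ((Z.dz y : ℝ) : ℂ)) ((y : ℂ) * Complex.I) =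
        2 * (Z.gd (y / 2) : ℂ) * Complex.I := by
      rcases hy.1.eq_or_lt with h | h
      · rw [← h]
        exact base_lg'
      · exact base_lg (adm_mono hA h hy.2)
    have hpi : (π : ℂ) ≠ 0 := by exact_mod_cast Real.pi_ne_zero
    rw [h2]
    push_cast
    field_simp
    linear_combination (2 * (Z.gd (y / 2) : ℂ)) * Complex.I_sq

/-- near the base point -/
theorem gp_hub (hD : S_DER) (hB : S_BASE) {η r c C : ℝ} {s dl : ℂ → ℂ → ℂ} (hA : Adm η)
    (hS : SDZ η r c C s dl) {g : ℝ} (hg0 : 0 < g)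
    (hg : ∀ ψ φ : ℂ, ‖ψ‖ ≤ g → ‖φ - η * Complex.I‖ ≤ g → HB η r dl ψ φ) {ψ φ : ℂ}
    (h1 : ‖ψ‖ ≤ g) (h2 : ‖φ - η * Complex.I‖ ≤ g) :
    GP ψ φ (2 * π * dl ψ φ) (s ψ φ) = -(π : ℂ) ^ 2 / 2 := by
  rw [← gp_base hD hB hA]
  set d := φ - η * Complex.I with hd
  have hin (t : ℝ) (ht : t ∈ Icc (0 : ℝ) 1) : HB η r dl ((t : ℂ) * ψ)
      (η * Complex.I + (t : ℂ) * d) := by
    apply hg
    · rw [norm_mul, Complex.norm_real, Real.norm_of_nonneg ht.1]
      have := norm_nonneg ψ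
      nlinarith [ht.1, ht.2]
    · rw [add_sub_cancel_left, norm_mul, Complex.norm_real, Real.norm_of_nonneg ht.1]
      have := norm_nonneg d
      nlinarith [ht.1, ht.2]
  have hopen : IsOpen (Rc r r ×ˢ Rz η r r) :=
    (Pool.Agent.W374.HT.Cch.Rc_open _ _).prod (isOpen_Rz _ _ _)
  have hγ1 (t : ℝ) : HasDerivAt (fun t : ℝ => (t : ℂ) * ψ) ψ t := by
    simpa using (Complex.ofRealCLM.hasDerivAt (x := t)).mul_const ψ
  have hγ2 (t : ℝ) : HasDerivAt (fun t : ℝ => η * Complex.I + (t : ℂ) * d) d t := by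
    simpa using ((Complex.ofRealCLM.hasDerivAt (x := t)).mul_const d).const_add (η * Complex.I)
  have hγ (t : ℝ) : HasDerivAt (fun t : ℝ => ((t : ℂ) * ψ, η * Complex.I + (t : ℂ) * d)) (ψ, d) t :=
    (hγ1 t).prodMk (hγ2 t)
  have key := path hD zero_lt_one (p := fun t : ℝ => (t : ℂ) * ψ)
    (q := fun t : ℝ => η * Complex.I + (t : ℂ) * d)
    (U := fun t : ℝ => 2 * π * dl ((t : ℂ) * ψ) (η * Complex.I + (t : ℂ) * d))
    (S := fun t : ℝ => s ((t : ℂ) * ψ) (η * Complex.I + (t : ℂ) * d))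
    (p' := fun _ => ψ) (q' := fun _ => d) (fun t ht => (hin t ht).hg)
    (fun t _ => (hγ1 t).hasDerivWithinAt) (fun t _ => (hγ2 t).hasDerivWithinAt) ?_ ?_
  · simp only [Complex.ofReal_one, one_mul, Complex.ofReal_zero, zero_mul, add_zero] at key
    rw [hS.dbase, hS.base] at key
    have e : (η : ℂ) * Complex.I + d = φ := by
      rw [hd]
      ring
    rwa [e] at key
  · intro t ht
    have hm := hin t ht
    have h3 : DifferentiableAt ℂ (fun p : ℂ × ℂ => dl p.1 p.2)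
        ((t : ℂ) * ψ, η * Complex.I + (t : ℂ) * d) :=
      hS.dan.differentiableAt (hopen.mem_nhds ⟨hm.m1, hm.m2⟩)
    have h4 := (h3.restrictScalars ℝ).comp t (hγ t).differentiableAt
    exact (h4.const_mul (2 * (π : ℂ))).differentiableWithinAt
  · intro t ht
    have hm := hin t ht
    have h3 : HasFDerivAt (fun p : ℂ × ℂ => s p.1 p.2) _
        ((t : ℂ) * ψ, η * Complex.I + (t : ℂ) * d) :=
      (hS.san.differentiableAt (hopen.mem_nhds ⟨hm.m1, hm.m2⟩)).hasFDerivAt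
    set F := fderiv ℂ (fun p : ℂ × ℂ => s p.1 p.2) ((t : ℂ) * ψ, η * Complex.I + (t : ℂ) * d)
      with hF
    have f1 : F (1, 0) = -(1 / (2 * π)) * Lg (2 * π * dl ((t : ℂ) * ψ)
        (η * Complex.I + (t : ℂ) * d)) ((t : ℂ) * ψ) := by
      have a1 : HasDerivAt (fun z : ℂ => (z, η * Complex.I + (t : ℂ) * d)) ((1 : ℂ), (0 : ℂ))
          ((t : ℂ) * ψ) := (hasDerivAt_id _).prodMk (hasDerivAt_const _ _)
      have a2 := HasFDerivAt.comp_hasDerivAt (l := fun p : ℂ × ℂ => s p.1 p.2)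
        ((t : ℂ) * ψ) h3 a1
      exact a2.unique (hS.sder1 _ hm.m1 _ hm.m2)
    have f2 : F (0, 1) = -(1 / (2 * π)) * Lg (2 * π * dl ((t : ℂ) * ψ)
        (η * Complex.I + (t : ℂ) * d)) (η * Complex.I + (t : ℂ) * d) := by
      have a1 : HasDerivAt (fun z : ℂ => ((t : ℂ) * ψ, z)) ((0 : ℂ), (1 : ℂ))
          (η * Complex.I + (t : ℂ) * d) := (hasDerivAt_const _ _).prodMk (hasDerivAt_id _)
      have a2 := HasFDerivAt.comp_hasDerivAt (l := fun p : ℂ × ℂ => s p.1 p.2)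
        (η * Complex.I + (t : ℂ) * d) h3 a1
      exact a2.unique (hS.sder2 _ hm.m1 _ hm.m2)
    have a3 := HasFDerivAt.comp_hasDerivAt (l := fun p : ℂ × ℂ => s p.1 p.2) t
      (h3.restrictScalars ℝ) (hγ t)
    refine (a3.congr_deriv ?_).hasDerivWithinAt
    have e : ((ψ, d) : ℂ × ℂ) = ψ • ((1 : ℂ), (0 : ℂ)) + d • ((0 : ℂ), (1 : ℂ)) := by
      ext <;> simp
    rw [ContinuousLinearMap.coe_restrictScalars', e, map_add, map_smul, map_smul, f1, f2,
      smul_eq_mul, smul_eq_mul]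
    ring

end Pool.Agent.TH563.CV
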