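import Pool.Agent.TH563.CV.Val
import Pool.Agent.TH563.UV.ArbD

/-!
# The expansion, with the complex volume
-/

set_option autoImplicit false

namespace Pool.Agent.TH563.CV

open Finset Filter Topology
open Pool.Agent.TH563.UV
open Pool.Agent.TH563.UV.Arb
open Pool.Agent.W719.AX (EXY)

lemma IsComplexVolume.add {t : Tree} {V : ℝ} {v : ℂ} (h : IsComplexVolume t V v) (n : ℤ) :
    IsComplexVolume t V (v + Real.pi * Complex.I * n) := by
  obtain ⟨x, h1, h2, h3, h4, k, h5⟩ := h
  refine ⟨x, h1, h2, h3, h4, k - 2 * n, ?_⟩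
  push_cast
  linear_combination h5 + 2 * (Real.pi : ℂ) ^ 2 * n * Complex.I_sq

/-- The expansion to all orders of the Kashaev invariants of arborescent links with large vertices,
and crossing circles; the exponent is the complex volume. -/
theorem mainC : ∃ K : ℕ, ∀ t : Tree, 1 ≤ t.children → t.Large K →
    (∀ N : ℕ, ContinuousAt (jones t N) (root N)) ∧
    ∃ V : ℝ, IsGreatest {W : ℝ | ∃ y : AngleTree, y.tree = t ∧ IsAngle y ∧ vol y = W} V ∧
      ∀ e f : ℤ, ∃ (v : ℂ) (y : ℕ → ℂ), 2 * Real.pi * v.re = V ∧ IsComplexVolume t V v ∧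
        y 0 ≠ 0 ∧ EXY (kashaev e f t) v y := by
  obtain ⟨K, hK0, hM⟩ := f_FINC
  refine ⟨⌈K⌉₊, fun t hc ht => ?_⟩
  have hK1 : K ^ 2 ≤ ((⌈K⌉₊ : ℕ) : ℝ) ^ 2 := by
    have := Nat.le_ceil K
    nlinarith
  have hbv : ∀ (b : Bool) (n : ℕ) (a : ℤ), Tb.BigV (⌈K⌉₊ : ℝ) b n a → Tb.BigV K b n a :=
    fun b n a h hb => hK1.trans (h hb)
  have hmono : ∀ t : Tb, t.Below (⌈K⌉₊ : ℝ) → t.Below K := by
    intro t
    induction t with
    | vx b a => exact fun _ => trivial
    | br t c ht hc => exact fun h => ⟨ht h.1, hc h.2.1, hbv _ _ _ h.2.2⟩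
  have hl := large_to _ t ht
  obtain ⟨V, v, y, h2, hv, hy, hexp, ρ, τ, κ, c, s, dl, p, hKD, hp1, hp2, hp3, hpV, hpv⟩ :=
    hM (toTb t) ⟨hmono _ hl.1, hbv _ _ _ hl.2⟩ (by rw [nc_to]; exact hc)
  have hj : ∀ N, jones t N = jt (toTb t) N := fun N => jones_to t N
  have hroot : ∀ N : ℕ, root N = Pool.Agent.W711.HT.vN N := fun N => rfl
  have hE : EXY (fun N : ℕ => jones t N (root N)) v y := by
    intro K
    obtain ⟨C, hC⟩ := hexp K
    refine ⟨C, hC.mono fun N hN => ?_⟩
    beta_reduce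
    rw [hj, hroot]
    exact hN
  have hpn : ∀ p : PB, p.shape.nc = p.nc := by
    intro p
    induction p with
    | vx b a z => rfl
    | br t c iht _ => simpa [PB.shape, Tb.nc, PB.nc] using iht
  have hcv : IsComplexVolume t V v := by
    rw [hpV, hpv]
    exact cvol hKD t p hp1 (by rw [← hpn, hp1, nc_to]; exact hc) hp2 hp3
  refine ⟨fun N => ?_, V, ?_, ?_⟩
  · rw [hj]
    exact Pool.Agent.TH639.J28.cnt _ _
  · rw [volume_eq]
    exact h2
  · intro e f
    obtain ⟨y', hy', h⟩ := hE.frame hy e f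
    refine ⟨_, y', ?_, ?_, hy', h⟩
    · have e1 : (v + Real.pi * Complex.I * (e + f)).re = v.re := by
        have : (Real.pi : ℂ) * Complex.I * (e + f) = ((Real.pi * (e + f) : ℝ) : ℂ) * Complex.I := by
          push_cast
          ring
        rw [this, Complex.add_re, Complex.re_ofReal_mul, Complex.I_re, mul_zero, add_zero]
      rw [e1]
      exact hv
    · have := hcv.add (e + f)
      push_cast at this
      exact this

end Pool.Agent.TH563.CV
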