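import Pool.Agent.TH563.CV.ValV
import Pool.Agent.TH563.CV.MainC
import Pool.Agent.TH563.V.ArbW

/-!
# Arborescent links with large vertices, crossing circles and hubs: the expansion, with the complex
volume
-/

set_option autoImplicit false

namespace Pool.Agent.TH563.CV

open Finset Filter Topology
open Pool.Agent.TH563.UV
open Pool.Agent.TH563.UV.Arb
open Pool.Agent.TH563.V
open Pool.Agent.TH563.V.Arb
open Pool.Agent.TH563.Z.Arb
open Pool.Agent.TH563.Z (exy_of_ux re_shift)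
open Pool.Agent.W711.HT (KD vN)
open Pool.Agent.W719.AX (EXY)
open scoped Real

/-- the expansion of the invariants; the exponent is the complex volume -/
def S_FINVC : Prop := ∃ K : ℝ, 0 < K ∧ ∀ t : Tb, OkT K t → 1 ≤ t.nc →
  ∃ (V : ℝ) (v : ℂ) (y : ℕ → ℂ),
    IsGreatest {W : ℝ | ∃ y : AB, y.shape = t ∧ y.IsAng ∧ y.vol = W} V ∧
    2 * π * v.re = V ∧ y 0 ≠ 0 ∧ EXY (fun N : ℕ => jt t N (vN N)) v y ∧
    ∀ t' : Tree, t = toTb t' → IsComplexVolume t' V v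

theorem finvc (hM : S_MAINV) (hG : S_GEOC) : S_FINVC := by
  obtain ⟨ρ, τ, κ, c, s, dl, hKD, D, S, hS, hM⟩ := hM
  obtain ⟨g, hg, hG⟩ := hG ρ τ κ c s dl hKD D S hS
  obtain ⟨K, hK, hM⟩ := hM g hg
  refine ⟨K, hK, fun t ht hn => ?_⟩
  obtain ⟨p, y', hp1, hp2, hp3, hy', hux⟩ := hM t ht hn
  have hpn : 1 ≤ p.nc := by rw [← Pool.Agent.TH563.Z.shape_nc p, hp1]; exact hn
  obtain ⟨h1, h3⟩ := hG p hp2 hp3 hpn
  rw [hp1] at h1
  obtain ⟨y, hy, h2⟩ := exy_of_ux t hy' hux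
  refine ⟨_, _, y, h1, ?_, hy, h2, fun t' ht' => ?_⟩
  · rw [re_shift]
  · subst ht'
    exact h3 t' hp1

theorem f_finvc : S_FINVC :=
  finvc (mainv Pool.Agent.TH761.J1737.vf vt_mw Pool.Agent.TH921.J1739.vfx
    Pool.Agent.TH416.J1740.vtx vl_last Pool.Agent.TH886.vlt_last
    Pool.Agent.TH554.J1743.hc Pool.Agent.TH790.J1744.hx Pool.Agent.TH822.J362.sdz f_kerv
    Pool.Agent.TH563.Z.f_kxcz
    Pool.Agent.TH653.J366.rem Pool.Agent.TH653.J366.half Pool.Agent.TH596.J367.ineq)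
    geoc

/-- The expansion to all orders of the Kashaev invariants; the exponent is the complex volume. -/
theorem mainVC : ∃ K : ℕ, ∀ t : Tree, Fine K t → 1 ≤ t.children →
    (∀ N : ℕ, ContinuousAt (jones t N) (root N)) ∧
    ∃ V : ℝ, IsGreatest {W : ℝ | ∃ y : AngleTree, y.tree = t ∧ IsAngle y ∧ vol y = W} V ∧
      (∀ e f : ℤ, ∃ (v : ℂ) (y : ℕ → ℂ), 2 * Real.pi * v.re = V ∧ IsComplexVolume t V v ∧
        y 0 ≠ 0 ∧ EXY (kashaev e f t) v y) ∧
      (∀ s : Tree, t = s.double → ∃ x : ℕ → ℝ, 0 < x 0 ∧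
        EXY (kashaev (4 * s.circles) 1 t) ((V / (2 * Real.pi) : ℝ) : ℂ)
          (fun k => (x k : ℂ))) ∧
      (t.weight = 0 → (t.kids.map Tree.mirror).Perm t.kids → ∃ (f : ℤ) (x : ℕ → ℝ), x 0 ≠ 0 ∧
        (∀ N : ℕ, 2 ≤ N → ∃ r : ℝ, kashaev (2 * t.circles) f t N = r) ∧
        EXY (kashaev (2 * t.circles) f t) ((V / (2 * Real.pi) : ℝ) : ℂ)
          (fun k => (x k : ℂ))) := by
  obtain ⟨K, hK0, hM⟩ := f_finvc
  refine ⟨⌈K⌉₊, fun t ht hc => ?_⟩
  have hl := okT_mono hK0.le (Nat.le_ceil K) (fine_ok _ t ht)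
  obtain ⟨V, v, y, h2, hv, hy, hexp, hcv⟩ := hM (toTb t) hl (by rw [nc_to]; exact hc)
  have hj : ∀ N, jones t N = Pool.Agent.TH563.UV.jt (toTb t) N := fun N => jones_to t N
  have hroot : ∀ N : ℕ, root N = Pool.Agent.W711.HT.vN N := fun N => rfl
  have hE : EXY (fun N : ℕ => jones t N (root N)) v y := by
    intro K
    obtain ⟨C, hC⟩ := hexp K
    refine ⟨C, hC.mono fun N hN => ?_⟩
    beta_reduce
    rw [hj, hroot]
    exact hN
  have h3 : ∀ e f : ℤ, ∃ (v : ℂ) (y : ℕ → ℂ), 2 * Real.pi * v.re = V ∧ IsComplexVolume t V v ∧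
        y 0 ≠ 0 ∧ EXY (kashaev e f t) v y := by
    intro e f
    obtain ⟨y', hy', h⟩ := hE.frame hy e f
    refine ⟨_, y', ?_, ?_, hy', h⟩
    · have e1 : (v + Real.pi * Complex.I * (e + f)).re = v.re := by
        have : (Real.pi : ℂ) * Complex.I * (e + f) = ((Real.pi * (e + f) : ℝ) : ℂ) * Complex.I := by
          push_cast
          ring
        rw [this, Complex.add_re, Complex.re_ofReal_mul, Complex.I_re, mul_zero, add_zero]
      rw [e1]
      exact hv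
    · have := (hcv t rfl).add (e + f)
      push_cast at this
      exact this
  have h3' : ∀ e f : ℤ, ∃ (v : ℂ) (y : ℕ → ℂ), 2 * Real.pi * v.re = V ∧
        y 0 ≠ 0 ∧ EXY (kashaev e f t) v y := by
    intro e f
    obtain ⟨v, y, g1, -, g2, g3⟩ := h3 e f
    exact ⟨v, y, g1, g2, g3⟩
  refine ⟨fun N => ?_, V, ?_, h3, ?_, fun hw hp => perm_part hw hp h3'⟩
  · rw [hj]
    exact Pool.Agent.TH639.J28.cnt _ _
  · rw [volume_eq]
    exact h2
  · rintro s rfl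
    exact dbl_part h3'

end Pool.Agent.TH563.CV
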