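import Pool.Agent.TH563.CV.RelG

/-!
# The sum of the dilogarithms along a path of hinges
-/

set_option autoImplicit false

namespace Pool.Agent.TH563.CV

open Pool.Agent.W711.HT hiding XX
open Pool.Agent.W864.AR (t1 t2)
open Pool.Agent.TH609.Z (HG SG ex hg_symm hg_of_hq ne_X1 ne_G1 ne_XG)
open Filter Topology Set
open scoped Real

lemma ddR (hD : S_DER) {f : ℝ → ℂ} {s : Set ℝ} {x : ℝ} {f' : ℂ} (hf : HasDerivWithinAt f f' s x)
    (h : 0 < (f x).im) :
    HasDerivWithinAt (fun z => Complex.log (f z)) (f' / f x) s x ∧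
    HasDerivWithinAt (fun z => Complex.log (1 - f z)) (-(f' / (1 - f x))) s x ∧
    HasDerivWithinAt (fun z => rog (f z)) (-(Complex.log (1 - f x) * (f' / f x) +
      Complex.log (f x) * (f' / (1 - f x))) / 2) s x := by
  obtain ⟨h1, h2⟩ := slit h
  refine ⟨hf.clog_real h1, ?_, ?_⟩
  · have := (hf.const_sub 1).clog_real h2
    rw [neg_div] at this
    exact this
  · have h3 := (hD (f x) h1 h2).scomp_hasDerivWithinAt x hf
    refine h3.congr_deriv ?_
    rw [smul_eq_mul]
    ring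

/-- the shapes along a path -/
lemma dzR {p U : ℝ → ℂ} {s : Set ℝ} {t : ℝ} (hp : DifferentiableWithinAt ℝ p s t)
    (hU : DifferentiableWithinAt ℝ U s t) (h : SG (p t) (U t)) :
    (∃ a, HasDerivWithinAt (fun r => z1 (p r) (U r)) a s t) ∧
    (∃ a, HasDerivWithinAt (fun r => z2 (p r) (U r)) a s t) := by
  have hX : DifferentiableWithinAt ℝ (fun r => Complex.exp (Complex.I * U r)) s t :=
    (hU.const_mul Complex.I).cexp
  have hG : DifferentiableWithinAt ℝ (fun r => Complex.exp (Complex.I * p r)) s t :=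
    (hp.const_mul Complex.I).cexp
  refine ⟨⟨_, DifferentiableWithinAt.hasDerivWithinAt ?_⟩,
    ⟨_, DifferentiableWithinAt.hasDerivWithinAt ?_⟩⟩
  · unfold z1 t1
    exact (hX.mul (hG.add_const 1)).fun_div ((hX.mul hG).const_add 1) (ne_XG h)
  · unfold z2 t2
    exact ((hX.sub_const 1).mul hG).fun_div (hX.mul (hG.const_add 1))
      (mul_ne_zero (Complex.exp_ne_zero _) (ne_G1 h))

theorem path (hD : S_DER) {a b : ℝ} (hab : a < b) {p q U S p' q' : ℝ → ℂ}
    (hHG : ∀ t ∈ Icc a b, HG (p t) (q t) (U t))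
    (hp : ∀ t ∈ Icc a b, HasDerivWithinAt p (p' t) (Icc a b) t)
    (hq : ∀ t ∈ Icc a b, HasDerivWithinAt q (q' t) (Icc a b) t)
    (hU : ∀ t ∈ Icc a b, DifferentiableWithinAt ℝ U (Icc a b) t)
    (hS : ∀ t ∈ Icc a b, HasDerivWithinAt S
      (-(1 / (2 * π)) * (Lg (U t) (p t) * p' t + Lg (U t) (q t) * q' t)) (Icc a b) t) :
    GP (p b) (q b) (U b) (S b) = GP (p a) (q a) (U a) (S a) := by
  have key : ∀ t ∈ Icc a b, HasDerivWithinAt (fun t => GP (p t) (q t) (U t) (S t)) 0
      (Icc a b) t := by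
    intro t ht
    have hh := hHG t ht
    obtain ⟨⟨a1, d1⟩, ⟨a2, d2⟩⟩ := dzR (hp t ht).differentiableWithinAt (hU t ht) hh.sd
    obtain ⟨⟨a3, d3⟩, ⟨a4, d4⟩⟩ := dzR (hq t ht).differentiableWithinAt (hU t ht) hh.sd'
    have i1 := z_imG hh
    have i2 := z_imG (hg_symm hh)
    obtain ⟨l1, m1, r1⟩ := ddR hD d1 i1.1
    obtain ⟨l2, m2, r2⟩ := ddR hD d2 i1.2
    obtain ⟨l3, m3, r3⟩ := ddR hD d3 i2.1
    obtain ⟨l4, m4, r4⟩ := ddR hD d4 i2.2
    have main := ((((((r1.add r2).add r3).add r4).const_mul 2).sub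
      (((l1.add m2).add (l3.add m4)).const_mul (π * Complex.I / 2))).sub
      ((hS t ht).const_mul (Complex.I * 2 * π))).sub
      ((((hp t ht).mul (l1.add m2)).add ((hq t ht).mul (l3.add m4))).const_mul (Complex.I / 2))
    have hI : HasDerivWithinAt (fun r => π * Complex.I + Complex.I * p r) (Complex.I * p' t)
        (Icc a b) t := ((hp t ht).const_mul Complex.I).const_add (π * Complex.I)
    have hI' : HasDerivWithinAt (fun r => π * Complex.I + Complex.I * q r) (Complex.I * q' t)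
        (Icc a b) t := ((hq t ht).const_mul Complex.I).const_add (π * Complex.I)
    have hu := uniqueDiffOn_Icc hab t ht
    have g1 := hu.eq_deriv _ l2 ((((hI.add (l3.add m4)).div_const 2).sub l3).congr
      (fun r hr => (lr3G (hHG r hr)).1) (lr3G hh).1)
    have g2 := hu.eq_deriv _ m1 (((((hI.sub (l3.add m4)).neg.div_const 2).add l1).sub l3).congr
      (fun r hr => (lr3G (hHG r hr)).2) (lr3G hh).2)
    have g3 := hu.eq_deriv _ l4 ((((hI'.add (l1.add m2)).div_const 2).sub l1).congr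
      (fun r hr => (lr3G (hg_symm (hHG r hr))).1) (lr3G (hg_symm hh)).1)
    have g4 := hu.eq_deriv _ m3 (((((hI'.sub (l1.add m2)).neg.div_const 2).add l3).sub l1).congr
      (fun r hr => (lr3G (hg_symm (hHG r hr))).2) (lr3G (hg_symm hh)).2)
    refine main.congr_deriv ?_
    exact algG _ _ _ _ _ _ _ _ _ _ _ _ _ _ _ _ _ _ _ _ _ _ (lr3G hh).1 (lr3G hh).2
      (lr3G (hg_symm hh)).1 (lr3G (hg_symm hh)).2 (lrG hh).2.1.symm (lrG (hg_symm hh)).2.1.symm
      g1 g2 g3 g4
  refine constant_of_derivWithin_zero (fun t ht => (key t ht).differentiableWithinAt)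
    (fun t ht => (key t (Ico_subset_Icc_self ht)).derivWithin
      (uniqueDiffOn_Icc hab t (Ico_subset_Icc_self ht))) b (right_mem_Icc.2 hab.le)

end Pool.Agent.TH563.CV
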