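import Pool.Agent.TH858.J1745
import Pool.Agent.TH563.CV.Edge

/-!
# The logarithms of the shapes at a hinge, under open conditions
-/

set_option autoImplicit false

namespace Pool.Agent.TH563.CV

open Pool.Agent.W711.HT hiding XX
open Pool.Agent.W719.AR (Fl flS)
open Pool.Agent.W864.AR (t1 t2)
open Pool.Agent.TH609.UV (fe)
open Pool.Agent.TH609.Z (HG SG ex hg_symm hg_of_hq ne_X1 ne_G1 ne_XG ne_XaG one_sub_t1
  one_sub_inv_t1 one_sub_t2 one_sub_inv_t2 exp_form hinge shp)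
open Pool.Agent.W554.HT (tri)
open Filter Topology Set
open scoped Real

lemma z_imG {ψ ψ' u : ℂ} (h : HG ψ ψ' u) : 0 < (z1 ψ u).im ∧ 0 < (z2 ψ u).im :=
  ⟨h.sd.im1, h.sd.im2⟩

theorem lrG {ψ ψ' u : ℂ} (h : HG ψ ψ' u) :
    Complex.log (z1 ψ u) + Complex.log (z2 ψ u) - Complex.log (1 - z1 ψ u) =
      π * Complex.I + Complex.I * ψ ∧
    Complex.log (z1 ψ u) + Complex.log (1 - z2 ψ u) = Lg u ψ ∧
    2 * Complex.log (z2 ψ u) + Complex.log (z1 ψ' u) - Complex.log (1 - z2 ψ' u) =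
      π * Complex.I + Complex.I * ψ := by
  have h' := hg_symm h
  have hW := exp_form h.sd
  have hn := h.sd
  have hn' := h.sd'
  have hg1 := hinge h
  have hX : ex u ≠ 0 := Complex.exp_ne_zero _
  have hX1 := ne_X1 hn
  have hG : ex ψ ≠ 0 := Complex.exp_ne_zero _
  have hG1 := ne_G1 hn
  have hXG := ne_XG hn
  have hXaG := ne_XaG hn
  have hK : ex ψ' ≠ 0 := Complex.exp_ne_zero _
  have hK1 := ne_G1 hn'
  have hXK := ne_XG hn'
  have hXaK := ne_XaG hn'
  have i1 := (z_imG h).1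
  have i2 := (z_imG h).2
  have j1 := (z_imG h').1
  have j2 := (z_imG h').2
  have q1 := one_sub_t1 hn
  have q3 := one_sub_t2 hn
  have p3 := one_sub_t2 hn'
  obtain ⟨t10, t11, t12, t13, t14, t15, -, -, -⟩ := tri i1
  obtain ⟨t20, t21, t22, t23, t24, t25, -, -, -⟩ := tri i2
  obtain ⟨u10, u11, u12, u13, u14, u15, -, -, -⟩ := tri j1
  obtain ⟨u20, u21, u22, u23, u24, u25, -, -, -⟩ := tri j2
  obtain ⟨-, -, -, s4, s5, s6⟩ := shp h
  have a1 := arg_one_div i1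
  have a2 := arg_one_div i2
  have b2 := arg_one_div j2
  simp only [fe, flS, Fl.tw, Fl.cr] at s4 s5 s6
  have hI (ψ : ℂ) : (π * Complex.I + Complex.I * ψ).im = π + ψ.re := by simp
  have hE (ψ : ℂ) : Complex.exp (π * Complex.I + Complex.I * ψ) = -ex ψ := by
    rw [Complex.exp_add, Complex.exp_pi_mul_I]; ring
  have y1 : z1 ψ u = t1 (ex u) (ex ψ) := rfl
  have y2 : z2 ψ u = t2 (ex u) (ex ψ) := rfl
  have y3 : z1 ψ' u = t1 (ex u) (ex ψ') := rfl
  have y4 : z2 ψ' u = t2 (ex u) (ex ψ') := rfl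
  refine ⟨log_eq ?_ ?_, log_eq ?_ ?_, log_eq ?_ ?_⟩
  · rw [hE, Complex.exp_sub, Complex.exp_add, Complex.exp_log t10, Complex.exp_log t20,
      Complex.exp_log t11]
    rw [y1, y2, q1, t1, t2]
    have hX1' : 1 - ex u ≠ 0 := by
      intro h0
      apply hX1
      linear_combination -h0
    field_simp
    ring
  · rw [hI, Complex.sub_im, Complex.add_im, Complex.log_im, Complex.log_im, Complex.log_im]
    change (z1 ψ u).arg + (z2 ψ u).arg + (1 / (1 - z1 ψ u)).arg - π = ψ.re at s5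
    linarith
  · rw [hW, Complex.exp_add, Complex.exp_log t10, Complex.exp_log t21]
    rw [y1, y2, q3, t1]
    field_simp
    ring
  · rw [Complex.add_im, Complex.log_im, Complex.log_im]
    change (z1 ψ u).arg + (z2 ψ u).arg + (1 - 1 / z2 ψ u).arg - π = (Lg u ψ).im at s6
    linarith
  · rw [hE, Complex.exp_sub, Complex.exp_add, two_mul, Complex.exp_add, Complex.exp_log t20,
      Complex.exp_log u10, Complex.exp_log u21]
    rw [y2, y3, y4, p3, t1, t2]
    field_simp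
    linear_combination (-1) * hg1
  · rw [hI, Complex.sub_im, Complex.add_im, Complex.log_im, Complex.log_im]
    have e : (2 * Complex.log (z2 ψ u)).im = 2 * (z2 ψ u).arg := by
      rw [two_mul, Complex.add_im, Complex.log_im, two_mul]
    rw [e]
    change 2 * (z2 ψ u).arg + ((z1 ψ' u).arg + (1 / (1 - z2 ψ' u)).arg) = π + ψ.re at s4
    linarith

theorem lr3G {ψ ψ' u : ℂ} (h : HG ψ ψ' u) :
    Complex.log (z2 ψ u) = (π * Complex.I + Complex.I * ψ + (Complex.log (z1 ψ' u) +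
      Complex.log (1 - z2 ψ' u))) / 2 - Complex.log (z1 ψ' u) ∧
    Complex.log (1 - z1 ψ u) = -(π * Complex.I + Complex.I * ψ - (Complex.log (z1 ψ' u) +
      Complex.log (1 - z2 ψ' u))) / 2 + Complex.log (z1 ψ u) - Complex.log (z1 ψ' u) := by
  obtain ⟨a1, a2, a3⟩ := lrG h
  refine ⟨?_, ?_⟩
  · linear_combination (1 / 2) * a3
  · linear_combination -a1 + (1 / 2) * a3

/-- the difference of the two sides -/
noncomputable def GP (ψ ψ' u S : ℂ) : ℂ :=
  2 * (rog (z1 ψ u) + rog (z2 ψ u) + rog (z1 ψ' u) + rog (z2 ψ' u)) -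
  π * Complex.I / 2 * ((Complex.log (z1 ψ u) + Complex.log (1 - z2 ψ u)) +
    (Complex.log (z1 ψ' u) + Complex.log (1 - z2 ψ' u))) - Complex.I * 2 * π * S -
  Complex.I / 2 * (ψ * (Complex.log (z1 ψ u) + Complex.log (1 - z2 ψ u)) +
    ψ' * (Complex.log (z1 ψ' u) + Complex.log (1 - z2 ψ' u)))

lemma GP_symm (ψ ψ' u S : ℂ) : GP ψ ψ' u S = GP ψ' ψ u S := by
  unfold GP
  ring

lemma algG (L1 M2 L3 M4 A1 B2 A3 B4 L2 M1 L4 M3 A2 B1 A4 B3 g g' ψ ψ' p q : ℂ)
    (e1 : L2 = (π * Complex.I + Complex.I * ψ + (L3 + M4)) / 2 - L3)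
    (e2 : M1 = -(π * Complex.I + Complex.I * ψ - (L3 + M4)) / 2 + L1 - L3)
    (e3 : L4 = (π * Complex.I + Complex.I * ψ' + (L1 + M2)) / 2 - L1)
    (e4 : M3 = -(π * Complex.I + Complex.I * ψ' - (L1 + M2)) / 2 + L3 - L1)
    (e5 : g = L1 + M2) (e5' : g' = L3 + M4)
    (e6 : A2 = (Complex.I * p + (A3 + -B4)) / 2 - A3)
    (e7 : -B1 = -(Complex.I * p - (A3 + -B4)) / 2 + A1 - A3)
    (e8 : A4 = (Complex.I * q + (A1 + -B2)) / 2 - A1)
    (e9 : -B3 = -(Complex.I * q - (A1 + -B2)) / 2 + A3 - A1) :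
    2 * (-(M1 * A1 + L1 * B1) / 2 + -(M2 * A2 + L2 * B2) / 2 + -(M3 * A3 + L3 * B3) / 2 +
      -(M4 * A4 + L4 * B4) / 2) - π * Complex.I / 2 * (A1 + -B2 + (A3 + -B4)) -
      Complex.I * 2 * π * (-(1 / (2 * π)) * (g * p + g' * q)) -
      Complex.I / 2 * (p * (L1 + M2) + ψ * (A1 + -B2) + (q * (L3 + M4) + ψ' * (A3 + -B4))) = 0 := by
  have hpi : (π : ℂ) ≠ 0 := by exact_mod_cast Real.pi_ne_zero
  have e7' : B1 = (Complex.I * p - (A3 + -B4)) / 2 - A1 + A3 := by linear_combination -e7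
  have e9' : B3 = (Complex.I * q - (A1 + -B2)) / 2 - A3 + A1 := by linear_combination -e9
  have e10 : Complex.I * 2 * π * (-(1 / (2 * π)) * (g * p + g' * q)) =
      -Complex.I * (g * p + g' * q) := by
    field_simp
  rw [e10, e1, e2, e3, e4, e5, e5', e6, e7', e8, e9']
  ring

end Pool.Agent.TH563.CV
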