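import Pool.Agent.TH563.CV.Term
import Pool.Agent.TH563.CV.Edge

/-!
# The standard flattening of an edge
-/

set_option autoImplicit false

namespace Pool.Agent.TH563.CV

open Pool.Agent.TH563.UV.Arb
open Pool.Agent.TH609.UV (HQ fe hq_symm)
open Pool.Agent.W711.HT hiding XX
open scoped Real

/-- the standard labels and order; `m`, `m'`: a half twist at this edge, `μ`, `μ'`: half the label
of the path across the edge -/
def std (m m' : Bool) (μ μ' : ℤ) (f g : Angles) : Piece where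
  f := f
  g := g
  F := ⟨1 + μ, -μ, 0, 0, 1 - μ, μ⟩
  G := ⟨μ', 1 - μ', 0, 0, -μ', 1 + μ'⟩
  B := ⟨μ, -μ, 1, 1, -μ, μ⟩
  H := ⟨μ', 1 - μ', 0, 0, -μ', 1 + μ'⟩
  n1 := match m, m' with
    | false, false => 1
    | true, false => 2
    | false, true => 0
    | true, true => 1
  n2 := 3
  n3 := if m then 0 else 2
  n4 := match m, m' with
    | false, false => 0
    | true, false => 1
    | false, true => 1
    | true, true => 2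

lemma std_inner (m m' : Bool) (μ μ' : ℤ) (f g : Angles) : (std m m' μ μ' f g).Inner := by
  cases m <;> cases m' <;> simp [std, Piece.Inner]

lemma std_end (m m' : Bool) (μ μ' : ℤ) (f g : Angles) : (std m m' μ μ' f g).End ∧
    (std m m' μ μ' f g).swap.End := by
  cases m <;> cases m' <;> simp [std, Piece.End, Piece.swap]

lemma std_across (m m' : Bool) (μ μ' : ℤ) (f g : Angles) :
    ((std m m' μ μ' f g).F.a + (std m m' μ μ' f g).F.a' + (std m m' μ μ' f g).F.c' - 1 = 2 * μ ∧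
    (std m m' μ μ' f g).B.a + (std m m' μ μ' f g).B.a' + (std m m' μ μ' f g).B.c' - 1 = 2 * μ) ∧
    ((std m m' μ μ' f g).swap.F.a + (std m m' μ μ' f g).swap.F.a' +
      (std m m' μ μ' f g).swap.F.c' - 1 = 2 * μ' ∧
    (std m m' μ μ' f g).swap.B.a + (std m m' μ μ' f g).swap.B.a' +
      (std m m' μ μ' f g).swap.B.c' - 1 = 2 * μ') := by
  simp only [std, Piece.swap]
  refine ⟨⟨?_, ?_⟩, ?_, ?_⟩ <;> ring

lemma std_order (m m' : Bool) (μ μ' : ℤ) (f g : Angles) :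
    ((std m m' μ μ' f g).n1 < (std m m' μ μ' f g).n2 ∧
      ((std m m' μ μ' f g).n4 < (std m m' μ μ' f g).n3 ↔ m = false)) ∧
    ((std m m' μ μ' f g).swap.n1 < (std m m' μ μ' f g).swap.n2 ∧
      ((std m m' μ μ' f g).swap.n4 < (std m m' μ μ' f g).swap.n3 ↔ m' = false)) := by
  cases m <;> cases m' <;> simp [std, Piece.swap]

/-- the sum of the differences -/
lemma off_sum (m m' : Bool) (μ μ' : ℤ) (f g : Angles) : ∀ x, x = std m m' μ μ' f g →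
    ∃ k : ℤ, off x.F.a x.F.b x.F.c x.n1 x.n2 x.n3 + off x.F.a' x.F.b' x.F.c' x.n1 x.n3 x.n4 +
      (off x.G.a x.G.b x.G.c x.n3 x.n2 x.n1 + off x.G.a' x.G.b' x.G.c' x.n3 x.n1 x.n4) +
      (off x.B.a x.B.b x.B.c x.n2 x.n1 x.n4 + off x.B.a' x.B.b' x.B.c' x.n2 x.n4 x.n3 +
      (off x.H.a x.H.b x.H.c x.n2 x.n3 x.n4 + off x.H.a' x.H.b' x.H.c' x.n2 x.n4 x.n1)) =
      3 * (1 + m.toNat + m'.toNat) + 6 * k := by
  rintro x rfl
  have key : ∀ y : ℤ, (6 : ℤ) ∣ y - 3 * (1 + m.toNat + m'.toNat) → ∃ k : ℤ, y =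
      3 * (1 + m.toNat + m'.toNat) + 6 * k := by
    rintro y ⟨k, hk⟩
    exact ⟨k, by linarith⟩
  apply key
  cases m <;> cases m' <;> simp [std, off] <;> omega

lemma two_eq (hS : S_SIG) (hI : S_INV) {ψ ψ' u : ℂ} (h : HQ ψ ψ' u) (F : Labels)
    (h1 : F.a + F.b + F.c = 1) (h2 : F.a' + F.b' + F.c' = 1) (n1 n2 n3 n4 : ℤ) :
    two (ofFl (fe ψ u)) F n1 n2 n3 n4 = pos (z1 ψ u) F.a F.b + pos (z2 ψ u) F.a' F.b' +
      (π : ℂ) ^ 2 / 6 * ((off F.a F.b F.c n1 n2 n3 + off F.a' F.b' F.c' n1 n3 n4 : ℤ) : ℂ) := by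
  have e1 := tet_eq hS hI (z_im h).1 h1 n1 n2 n3
  have e2 := tet_eq hS hI (z_im h).2 h2 n1 n3 n4
  have e3 : two (ofFl (fe ψ u)) F n1 n2 n3 n4 =
    tet (z1 ψ u).arg (1 / (1 - z1 ψ u)).arg (1 - 1 / z1 ψ u).arg F.a F.b F.c n1 n2 n3 +
    tet (z2 ψ u).arg (1 / (1 - z2 ψ u)).arg (1 - 1 / z2 ψ u).arg F.a' F.b' F.c' n1 n3 n4 := rfl
  rw [e3, e1, e2]
  push_cast
  ring

theorem std_term (hS : S_SIG) (hI : S_INV) {ψ ψ' u S : ℂ} (h : HQ ψ ψ' u)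
    (hG : 2 * (rog (z1 ψ u) + rog (z2 ψ u) + rog (z1 ψ' u) + rog (z2 ψ' u)) -
      π * Complex.I / 2 * (Lg u ψ + Lg u ψ') - Complex.I * 2 * π * S -
      Complex.I / 2 * (ψ * Lg u ψ + ψ' * Lg u ψ') = -(π : ℂ) ^ 2 / 2) (m m' : Bool) (μ μ' : ℤ) :
    ∃ k : ℤ, (std m m' μ μ' (ofFl (fe ψ u)) (ofFl (fe ψ' u))).term =
      Complex.I * 2 * π * S + Complex.I / 2 * (ψ * Lg u ψ + ψ' * Lg u ψ') -
      π * μ * (ψ + π) - π * μ' * (ψ' + π) +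
      (π : ℂ) ^ 2 / 2 * ((m.toNat + m'.toNat : ℕ) : ℂ) + k * (π : ℂ) ^ 2 := by
  have h' := hq_symm h
  set x := std m m' μ μ' (ofFl (fe ψ u)) (ofFl (fe ψ' u)) with hx
  obtain ⟨⟨a1, a2⟩, ⟨b1, b2⟩, ⟨c1, c2⟩, ⟨d1, d2⟩, -⟩ := std_inner m m' μ μ' (ofFl (fe ψ u))
    (ofFl (fe ψ' u))
  rw [← hx] at a1 a2 b1 b2 c1 c2 d1 d2
  obtain ⟨k, hk⟩ := off_sum m m' μ μ' (ofFl (fe ψ u)) (ofFl (fe ψ' u)) x hx
  have ef : x.f = ofFl (fe ψ u) := rfl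
  have eg : x.g = ofFl (fe ψ' u) := rfl
  obtain ⟨l1, l2, l3⟩ := lr h
  obtain ⟨r1, r2⟩ := lr3 h
  obtain ⟨r3, r4⟩ := lr3 h'
  have l2' := (lr h').2.1
  refine ⟨k, ?_⟩
  have hk' : ((off x.F.a x.F.b x.F.c x.n1 x.n2 x.n3 + off x.F.a' x.F.b' x.F.c' x.n1 x.n3 x.n4 : ℤ) :
      ℂ) + ((off x.G.a x.G.b x.G.c x.n3 x.n2 x.n1 + off x.G.a' x.G.b' x.G.c' x.n3 x.n1 x.n4 : ℤ) : ℂ)
      + (((off x.B.a x.B.b x.B.c x.n2 x.n1 x.n4 + off x.B.a' x.B.b' x.B.c' x.n2 x.n4 x.n3 : ℤ) : ℂ)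
      + ((off x.H.a x.H.b x.H.c x.n2 x.n3 x.n4 + off x.H.a' x.H.b' x.H.c' x.n2 x.n4 x.n1 : ℤ) : ℂ))
      = 3 * (1 + ((m.toNat + m'.toNat : ℕ) : ℂ)) + 6 * k := by
    have := congrArg (Int.cast : ℤ → ℂ) hk
    push_cast at this ⊢
    linear_combination this
  have ht : x.term = pos (z1 ψ u) x.F.a x.F.b + pos (z2 ψ u) x.F.a' x.F.b' +
      (pos (z1 ψ' u) x.G.a x.G.b + pos (z2 ψ' u) x.G.a' x.G.b') +
      (pos (z1 ψ u) x.B.a x.B.b + pos (z2 ψ u) x.B.a' x.B.b' +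
      (pos (z1 ψ' u) x.H.a x.H.b + pos (z2 ψ' u) x.H.a' x.H.b')) +
      (π : ℂ) ^ 2 / 6 * (3 * (1 + ((m.toNat + m'.toNat : ℕ) : ℂ)) + 6 * k) := by
    unfold Piece.term
    rw [ef, eg, two_eq hS hI h _ a1 a2, two_eq hS hI h' _ b1 b2, two_eq hS hI h _ c1 c2,
      two_eq hS hI h' _ d1 d2, ← hk']
    ring
  rw [ht]
  simp only [hx, std, pos, extRogers]
  push_cast
  rw [r1, r2, r3, r4]
  rw [← l2, ← l2'] at hG ⊢
  linear_combination hG + (π * μ * (ψ + π) + π * μ' * (ψ' + π)) * Complex.I_sq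

end Pool.Agent.TH563.CV
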