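import Pool.Agent.TH563.CV.Flat
import Pool.Agent.TH563.CV.Rel

/-!
# The terms of the ordered tetrahedra
-/

set_option autoImplicit false

namespace Pool.Agent.TH563.CV

open Pool.Agent.TH563.UV.Arb
open Pool.Agent.W554.HT (tri)
open scoped Real

lemma shape_eq {z : ℂ} (hz : 0 < z.im) :
    shape z.arg (1 / (1 - z)).arg (1 - 1 / z).arg = z := by
  obtain ⟨t0, t1, t2, t3, t4, t5, -, -, -⟩ := tri hz
  have n0 : 0 < ‖z‖ := norm_pos_iff.2 t0
  have n1 : 0 < ‖1 - z‖ := norm_pos_iff.2 t1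
  have e1 : (1 / (1 - z)).im = z.im / ‖1 - z‖ ^ 2 := by
    rw [one_div, Complex.inv_im, Complex.normSq_eq_norm_sq]
    simp
  have e2 : (1 - 1 / z).im = z.im / ‖z‖ ^ 2 := by
    rw [Complex.sub_im, one_div, Complex.inv_im, Complex.normSq_eq_norm_sq]
    simp
    ring
  have e3 : ‖1 / (1 - z)‖ = 1 / ‖1 - z‖ := by
    rw [norm_div, norm_one]
  have e4 : ‖1 - 1 / z‖ = ‖1 - z‖ / ‖z‖ := by
    have : 1 - 1 / z = -(1 - z) / z := by field_simp; ring
    rw [this, norm_div, norm_neg]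
  unfold shape
  rw [Complex.sin_arg, Complex.sin_arg, e1, e2, e3, e4]
  have e5 : z.im / ‖1 - z‖ ^ 2 / (1 / ‖1 - z‖) / (z.im / ‖z‖ ^ 2 / (‖1 - z‖ / ‖z‖)) = ‖z‖ := by
    field_simp
  rw [e5, mul_comm Complex.I]
  exact Complex.norm_mul_exp_arg_mul_I z

lemma rot1 {z : ℂ} (hz : 0 < z.im) : 0 < (1 / (1 - z)).im ∧ 1 / (1 - 1 / (1 - z)) = 1 - 1 / z ∧
    1 - 1 / (1 / (1 - z)) = z := by
  obtain ⟨t0, t1, t2, t3, t4, t5, -, -, -⟩ := tri hz
  refine ⟨?_, ?_, ?_⟩
  · rw [one_div, Complex.inv_im]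
    have : 0 < Complex.normSq (1 - z) := Complex.normSq_pos.2 t1
    simp only [Complex.sub_im, Complex.one_im, zero_sub, neg_neg]
    positivity
  · have : 1 - 1 / (1 - z) = -z / (1 - z) := by field_simp; ring
    rw [this]
    field_simp
    ring
  · rw [one_div_one_div]; ring

lemma shape_eq' {z : ℂ} (hz : 0 < z.im) :
    shape (1 / (1 - z)).arg (1 - 1 / z).arg z.arg = 1 / (1 - z) := by
  obtain ⟨h1, h2, h3⟩ := rot1 hz
  have := shape_eq h1
  rwa [h2, h3] at this

lemma rot2 {z : ℂ} (hz : 0 < z.im) : 0 < (1 - 1 / z).im ∧ 1 / (1 - (1 - 1 / z)) = z ∧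
    1 - 1 / (1 - 1 / z) = 1 / (1 - z) := by
  obtain ⟨h1, h2, h3⟩ := rot1 hz
  obtain ⟨g1, g2, g3⟩ := rot1 h1
  rw [h2] at g1 g2 g3
  rw [h3] at g2
  exact ⟨g1, g2, g3⟩

lemma shape_eq'' {z : ℂ} (hz : 0 < z.im) :
    shape (1 - 1 / z).arg z.arg (1 / (1 - z)).arg = 1 - 1 / z := by
  obtain ⟨h1, h2, h3⟩ := rot2 hz
  have := shape_eq h1
  rwa [h2, h3] at this

lemma log_one_div {z : ℂ} (hz : 0 < z.im) : Complex.log (1 / z) = -Complex.log z ∧
    Complex.log (1 / (1 - z)) = -Complex.log (1 - z) := by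
  rw [one_div, one_div]
  constructor
  · rw [Complex.log_inv]
    intro h
    rw [Complex.arg_eq_pi_iff] at h
    linarith [h.2]
  · rw [Complex.log_inv]
    intro h
    rw [Complex.arg_eq_pi_iff] at h
    have := h.2
    simp at this
    linarith

lemma log_three {z : ℂ} (hz : 0 < z.im) :
    Complex.log z - Complex.log (1 - z) + Complex.log (1 - 1 / z) = π * Complex.I := by
  obtain ⟨t0, t1, t2, t3, t4, t5, -, -, -⟩ := tri hz
  have t6 : 1 - 1 / z ≠ 0 := by
    have := (rot2 hz).1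
    intro h
    rw [h] at this
    simp at this
  apply log_eq
  · rw [Complex.exp_add, Complex.exp_sub, Complex.exp_log t0, Complex.exp_log t1,
      Complex.exp_log t6, Complex.exp_pi_mul_I]
    field_simp
    ring
  · rw [Complex.add_im, Complex.sub_im, Complex.log_im, Complex.log_im, Complex.log_im]
    have := arg_one_div hz
    simp only [Complex.mul_im, Complex.ofReal_re, Complex.I_im, mul_one, Complex.ofReal_im,
      Complex.I_re, mul_zero, add_zero]
    linarith

section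
variable (hS : S_SIG) (hI : S_INV)

include hS in
lemma pos_rot {z : ℂ} (hz : 0 < z.im) {A B C : ℤ} (h : A + B + C = 1) :
    pos (1 / (1 - z)) B C = pos z A B + (π : ℂ) ^ 2 / 6 * (1 - 3 * B) := by
  have h1 := hS z hz
  have h2 := (log_one_div hz).2
  have h3 := (log_one_div (rot1 hz).1).2
  rw [(rot1 hz).2.1] at h3
  have h4 := log_three hz
  have h5 : (A : ℂ) + B + C = 1 := by exact_mod_cast h
  unfold pos extRogers
  have h6 : Complex.log (1 - 1 / (1 - z)) = Complex.log z - Complex.log (1 - z) - π * Complex.I := by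
    linear_combination h3 - h4
  rw [h6, h2]
  push_cast
  linear_combination -h1 + (π * Complex.I / 2 * Complex.log (1 - z)) * h5 +
    (π : ℂ) ^ 2 / 2 * B * Complex.I_sq

include hI in
lemma neg_eq {z : ℂ} (hz : 0 < z.im) {A B C : ℤ} (h : A + B + C = 1) :
    neg z A C = pos z A B + (π : ℂ) ^ 2 / 6 * (3 * A) := by
  have h1 := hI z hz
  have h2 := (log_one_div hz).1
  have h4 := log_three hz
  have h5 : (A : ℂ) + B + C = 1 := by exact_mod_cast h
  unfold neg pos extRogers
  have h6 : Complex.log (1 - 1 / z) = π * Complex.I - Complex.log z + Complex.log (1 - z) := by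
    linear_combination h4
  rw [h1, h6, h2]
  push_cast
  linear_combination (π * Complex.I / 2 * Complex.log z) * h5 -
    (π : ℂ) ^ 2 / 2 * A * Complex.I_sq

/-- the differences, in multiples of `π² / 6` -/
def off (A B C x y w : ℤ) : ℤ :=
  if x < y ∧ y < w then 3 * A
  else if x < w ∧ w < y then 0
  else if y < w ∧ w < x then 1
  else if y < x ∧ x < w then 1 - 3 * B
  else if w < x ∧ x < y then -1 + 3 * (A + C)
  else -1 + 3 * A

include hS hI in
theorem tet_eq {z : ℂ} (hz : 0 < z.im) {A B C : ℤ} (h : A + B + C = 1) (x y w : ℤ) :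
    tet z.arg (1 / (1 - z)).arg (1 - 1 / z).arg A B C x y w =
      pos z A B + (π : ℂ) ^ 2 / 6 * (off A B C x y w : ℤ) := by
  have p1 := pos_rot hS hz h
  have p2 := pos_rot hS (rot1 hz).1 (A := B) (B := C) (C := A) (by omega)
  rw [(rot1 hz).2.1] at p2
  have n1 := neg_eq hI hz h
  have n2 := neg_eq hI (rot1 hz).1 (A := B) (B := C) (C := A) (by omega)
  have n3 := neg_eq hI (rot2 hz).1 (A := C) (B := A) (C := B) (by omega)
  have h5 : (A : ℂ) + B + C = 1 := by exact_mod_cast h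
  unfold tet off
  rw [shape_eq hz, shape_eq' hz, shape_eq'' hz]
  split_ifs
  · rw [n1]; push_cast; ring
  · push_cast; ring
  · rw [n2, p1]; push_cast; ring
  · rw [p1]; push_cast; ring
  · rw [n3, p2, p1]; push_cast; linear_combination (-(π : ℂ) ^ 2 / 2) * h5
  · rw [p2, p1]; push_cast; linear_combination (-(π : ℂ) ^ 2 / 2) * h5

end

end Pool.Agent.TH563.CV
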