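import Pool.Agent.TH563.CV.Fin

/-!
# The exponent is the complex volume
-/

set_option autoImplicit false

namespace Pool.Agent.TH563.CV

open Finset Filter Topology Metric
open Pool.Agent.TH563.UV
open Pool.Agent.TH563.UV.Arb
open Pool.Agent.TH609.UV (HQ fe hq_symm hpt lg VL lcr ang hq vc_facts ang_isok ang_fl ang_vol
  ang_shape ang_wt ang_bl vl_im vok vt_re hs)
open Pool.Agent.W571.AR (eqn')
open Pool.Agent.W711.HT hiding XX
open Pool.Agent.W719.AX (UX EXY cv)
open scoped Real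

/-- `2 π i v` is the complex volume (times `i`) of the complement of the link of `t`, modulo `π²`:
there are an angle structure of maximal volume `V` and a flattening, with the sum `2 π i v` modulo
`π²` -/
def IsComplexVolume (t : Tree) (V : ℝ) (v : ℂ) : Prop :=
  ∃ x : FlatTree, x.angles.tree = t ∧ IsAngle x.angles ∧ vol x.angles = V ∧ x.IsFlat ∧
    ∃ k : ℤ, 2 * π * Complex.I * v = x.complexVolume + k * (π : ℂ) ^ 2

theorem cvol {ρ τ κ c : ℝ} {s dl : ℂ → ℂ → ℂ} (hK : KD ρ τ κ c s dl) (t : Tree) (p : PB)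
    (hp : p.shape = toTb t) (hnc : 1 ≤ p.nc) (hCr : p.Crt s ρ τ)
    (hV : VC ρ τ p.bl p.wt p.rz (p.gs s)) :
    IsComplexVolume t (2 * π * (vt p.bl p.wt p.rz + p.vl s).re)
      (vt p.bl p.wt p.rz + p.vl s + Complex.I * π - Complex.I * π * (toTb t).ws / 4) := by
  obtain ⟨q1, q3⟩ := vc_facts hK.hρ.1 hK.hτ.1 hV
  obtain ⟨i1, i2, i3, i4⟩ := Pool.Agent.TH609.UV.ind W583.HTP.poth hK p hCr q1 q3
  have hE : VL p.bl p.wt p.rz (lg dl p) := by
    refine ⟨hV.1, fun hb => ?_⟩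
    obtain ⟨-, h2⟩ := hV.2 hb
    exact eqn' _ _ _ _ i1 h2
  have hI := vt_re hE
  have hval : 2 * π * (vt p.bl p.wt p.rz + p.vl s).re = hs dl p := by
    rw [Complex.add_re]
    linear_combination hI + i4
  have hvol := ang_vol dl p i2
  obtain ⟨g1, g2⟩ := ang_fl dl p i2
  have hang : (ang dl p).IsAng := by
    refine ⟨ang_isok dl p i2 i3, ?_⟩
    rw [ang_wt, ang_bl]
    refine vok g1 fun hb => ?_
    rw [g2]
    exact vl_im hE hb
  have hS : S_SIG := sig der
  have hI' : S_INV := inv (ref der) hS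
  have hB : S_BASE := base der (ref der) hS
  obtain ⟨k1, e1⟩ := cv_val hK der hB hS hI' p hCr q1 q3 (if p.bl then 0 else 1) (odd p.wt)
  obtain ⟨k2, e2⟩ := odd_mod p.wt
  have e2' : (((odd p.wt).toNat : ℕ) : ℂ) = p.wt + 2 * k2 := by exact_mod_cast e2
  obtain ⟨k3, e3⟩ := vertex_val hE
  have hn : ¬ p.nc = 0 := by omega
  rw [if_neg hn, if_neg hn] at e1
  refine ⟨flat dl (if p.bl then 0 else 1) (odd p.wt) p, ?_, ?_, ?_, flat_isFlat dl p hnc,
    -1 * k1 - k2 - k3 - 2, ?_⟩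
  · rw [flat_angles]
    apply toTb_inj
    rw [← shape_to, toAB_of, ang_shape, hp]
  · rw [flat_angles, ← isAngle_to, toAB_of]
    exact hang
  · rw [flat_angles, ← vol_to, toAB_of, hvol, hval]
  · rw [e1, hp]
    push_cast at e3 ⊢
    rw [e2']
    linear_combination (-1) * e3 + (2 * (π : ℂ) ^ 2 - (π : ℂ) ^ 2 * (toTb t).ws / 2) * Complex.I_sq

end Pool.Agent.TH563.CV
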