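import Pool.Agent.TH563.CV.SumV
import Pool.Agent.TH563.CV.Val

/-!
# The exponent is the complex volume: trees with hubs
-/

set_option autoImplicit false

namespace Pool.Agent.TH563.CV

open Pool.Agent.TH563.UV
open Pool.Agent.TH563.UV.Arb
open Pool.Agent.TH563.V
open Pool.Agent.TH563.Z (SDZ Adm et)
open Pool.Agent.TH858.J1745
open Pool.Agent.TH609.UV (fe VL vt_re vl_im shape_cases wt_eq vertex)
open Pool.Agent.TH609.Z (HG hg_symm hg_of_hq HB exists_g vok shp)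
open Pool.Agent.W711.HT hiding XX gd
open Pool.Agent.W719.AR (Fl)
open scoped Real

/-- the value at a critical configuration is the maximal volume of the angle structures, and the
complex volume -/
def S_GEOC : Prop := ∀ (ρ τ κ c : ℝ) (s dl : ℂ → ℂ → ℂ), KD ρ τ κ c s dl →
  ∀ (D : ℕ) (S : ℕ → ℂ → ℂ → ℂ),
  (∀ k, 3 ≤ k → k < D → Adm (et k) ∧ ∃ (r c' C : ℝ) (dl' : ℂ → ℂ → ℂ),
    SDZ (et k) r c' C (S k) dl') →
  ∃ g : ℝ, 0 < g ∧ ∀ p : PB, CV D S s ρ τ g (kz D p.bl p.nc p.wt) p →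
    VCV ρ τ g (kz D p.bl p.nc p.wt) p.bl p.wt p.rz (gv D S s (kz D p.bl p.nc p.wt) p) →
    1 ≤ p.nc →
    IsGreatest {W : ℝ | ∃ y : AB, y.shape = p.shape ∧ y.IsAng ∧ y.vol = W}
      (2 * π * (vt p.bl p.wt p.rz + vv D S s (kz D p.bl p.nc p.wt) p).re) ∧
    ∀ t : Tree, p.shape = toTb t →
      IsComplexVolume t (2 * π * (vt p.bl p.wt p.rz + vv D S s (kz D p.bl p.nc p.wt) p).re)
        (vt p.bl p.wt p.rz + vv D S s (kz D p.bl p.nc p.wt) p + Complex.I * π -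
          Complex.I * π * (toTb t).ws / 4)

theorem geoc : S_GEOC := by
  intro ρ τ κ c s dl hK D S hSD
  have H : ∀ k, ∃ (r : ℝ) (dl' : ℂ → ℂ → ℂ), 3 ≤ k → k < D → Adm (et k) ∧
      ∃ c' C, SDZ (et k) r c' C (S k) dl' := by
    intro k
    by_cases h : 3 ≤ k ∧ k < D
    · obtain ⟨h1, r, c', C, dl', h2⟩ := hSD k h.1 h.2
      exact ⟨r, dl', fun _ _ => ⟨h1, c', C, h2⟩⟩
    · exact ⟨0, fun _ _ => 0, fun h1 h2 => absurd ⟨h1, h2⟩ h⟩
  choose r Dl H using H
  have hS : ∀ k, 3 ≤ k → k < D → ∃ c' C, SDZ (et k) (r k) c' C (S k) (Dl k) :=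
    fun k h1 h2 => (H k h1 h2).2
  obtain ⟨g, hg0, hg⟩ := exists_g' (fun k g => 3 ≤ k → k < D → ∀ ψ φ : ℂ, ‖ψ‖ ≤ g →
      ‖φ - et k * Complex.I‖ ≤ g → HB (et k) (r k) (Dl k) ψ φ)
    (fun k g g' hgg h h1 h2 ψ φ a b => h h1 h2 ψ φ (a.trans hgg) (b.trans hgg))
    (by
      intro k
      by_cases h : 3 ≤ k ∧ k < D
      · obtain ⟨hA, c', C, h2⟩ := H k h.1 h.2
        obtain ⟨g, hg0, hg⟩ := exists_g hA h2
        exact ⟨g, hg0, fun _ _ => hg⟩
      · exact ⟨1, one_pos, fun h1 h2 => absurd ⟨h1, h2⟩ h⟩) D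
  have hg' : ∀ k, 3 ≤ k → k < D → ∀ ψ φ : ℂ, ‖ψ‖ ≤ g →
      ‖φ - et k * Complex.I‖ ≤ g → HB (et k) (r k) (Dl k) ψ φ :=
    fun k h1 h2 => hg k h2 h1 h2
  refine ⟨g, hg0, fun p hCr hV hnc => ⟨?_, ?_⟩⟩
  · set k := kz D p.bl p.nc p.wt with hkdef
    have hk : k ≠ 0 → 3 ≤ k ∧ k < D := fun h => (kz_ne h).2.2
    obtain ⟨i1, i2, i3, i4⟩ := indv hK hS hg' p k hk hCr (ps_of hK.hρ.1 hK.hτ.1 hV)
    set e := ee dl Dl with he
    have hE : VL p.bl p.wt p.rz (lgv D e k p) := vl_of hV i1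
    have hI' := vt_re hE
    have hval : 2 * π * (vt p.bl p.wt p.rz + vv D S s k p).re = hsv D e k p := by
      rw [Complex.add_re]
      linear_combination hI' + i4
    have hvol := agv_vol D e p k i2
    obtain ⟨g1, g2⟩ := agv_fl D e k p i2
    rw [hval]
    constructor
    · refine ⟨agv D e k p, agv_shape D e p k, ⟨agv_isok D e p k i2 i3, ?_⟩, hvol⟩
      rw [agv_wt, agv_bl]
      refine vok g1 fun hb => ?_
      rw [g2]
      exact vl_im hE hb
    · rintro W ⟨y, hshape, hy, rfl⟩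
      have h1 := vol_LLv D e W120.VC.tet p k i2 y hshape hy.1
      have h2 := LLv_eq D e p k i2 i3 y hshape hy.1
      have h3 := vertex p.bl p.rz p.wt (elv D e k p y) (elv_pos D e k p y hshape hy.1)
        (by rw [elv_map D e k p y hshape, ← (wt_eq p y hshape).1, ← (wt_eq p y hshape).2]
            exact hy.2)
        (by rw [elv_lg D e k p y hshape]; exact hE)
      rw [h3] at h2
      rw [h2] at h1
      linarith
  · intro t hp
    set k := kz D p.bl p.nc p.wt with hkdef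
    have hk : k ≠ 0 → 3 ≤ k ∧ k < D := fun h => (kz_ne h).2.2
    have hP := ps_of hK.hρ.1 hK.hτ.1 hV
    obtain ⟨i1, i2, i3, i4⟩ := indv hK hS hg' p k hk hCr hP
    have hS2 : ∀ k, 3 ≤ k → k < D → Adm (et k) ∧ ∃ c' C, SDZ (et k) (r k) c' C (S k) (Dl k) := H
    set e := ee dl Dl with he
    have hE : VL p.bl p.wt p.rz (lgv D e k p) := vl_of hV i1
    have hI' := vt_re hE
    have hval : 2 * π * (vt p.bl p.wt p.rz + vv D S s k p).re = hsv D e k p := by
      rw [Complex.add_re]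
      linear_combination hI' + i4
    have hvol := agv_vol D e p k i2
    obtain ⟨g1, g2⟩ := agv_fl D e k p i2
    have hang : (agv D e k p).IsAng := by
      refine ⟨agv_isok D e p k i2 i3, ?_⟩
      rw [agv_wt, agv_bl]
      refine vok g1 fun hb => ?_
      rw [g2]
      exact vl_im hE hb
    have hS1 : S_SIG := sig der
    have hI2 : S_INV := inv (ref der) hS1
    have hB : S_BASE := base der (ref der) hS1
    obtain ⟨k1, e1⟩ := cv_valV der hB hS1 hI2 hK hS2 hg0 hg' p k hk hCr hP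
      (if p.bl then 0 else 1) (odd p.wt)
    obtain ⟨k2, e2⟩ := odd_mod p.wt
    have e2' : (((odd p.wt).toNat : ℕ) : ℂ) = p.wt + 2 * k2 := by exact_mod_cast e2
    obtain ⟨k3, e3⟩ := vertex_val hE
    have hn : ¬ p.nc = 0 := by omega
    rw [if_neg hn, if_neg hn, ← he] at e1
    refine ⟨flatA (agA D e) D (if p.bl then 0 else 1) (odd p.wt) k p, ?_, ?_, ?_,
      flatA_isFlat (agA D e) D p hnc k, -1 * k1 - k2 - k3 - 2, ?_⟩
    · rw [flatv_angles]
      apply toTb_inj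
      rw [← shape_to, toAB_of, agv_shape, hp]
    · rw [flatv_angles, ← isAngle_to, toAB_of]
      exact hang
    · rw [flatv_angles, ← vol_to, toAB_of, hvol, hval]
    · rw [e1, hp]
      push_cast at e3 ⊢
      rw [e2']
      linear_combination (-1) * e3 + (2 * (π : ℂ) ^ 2 - (π : ℂ) ^ 2 * (toTb t).ws / 2) *
        Complex.I_sq

end Pool.Agent.TH563.CV
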